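import Pool.Agent.Work.MP_67388f_an.HM.LemA

/-!
# LemB (size M, routine): basic lemmas on the group, the action, test functions, averages

All statements are routine; many are copies of statements of `EM/Lem.lean` (for `GG n K × H` there,
for the group `G` with the closed embedding `ρ` here).
* `hasBasis_nearG`: `EM.hasBasis_near` (see `EM/Lem.lean` for its exact form) and `hρ.isInducing`;
  `ρ 1 = 1`. `lcG`, `scG`, `t2G`: closed embedding into `GG n K` (`EM.instLC`, `EM.instSC`).
* `isCompact_nearG`: preimage of a compact set under a closed embedding (`EM.isCompact_near`).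
* `exists_net`: the open sets `{g | Near (ρ (g * w⁻¹)) ε}ᵒ`, `w ∈ G`, cover the compact set
  `{g | Near (ρ g) c}`.
* `test_smul`: `f (u g x) = f ((u g u⁻¹) u x)` and `EM.near_conj_u` for `ρ u`.
* `integral_smul_eq`: `x ↦ g • x` is a measurable embedding (a homeomorphism).
-/

set_option autoImplicit false

namespace Pool.Agent.Work.MP_67388f_an.HM

open MeasureTheory Filter Topology Matrix
open Pool.Agent.Work.MP_67388f_an.EM (GG Near Rt Par NearId NIProp)

section action

variable {I : Type} [Fintype I] {n : I → ℕ} {K : I → Type} [∀ i, NontriviallyNormedField (K i)]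
  [∀ i, ProperSpace (K i)]
  {G : Type} [Group G] [TopologicalSpace G] [IsTopologicalGroup G]
  {X : Type} [TopologicalSpace X] [MulAction G X] [ContinuousSMul G X]
  {ρ : G →* GG n K}

theorem lcG (hρ : IsClosedEmbedding ρ) : LocallyCompactSpace G :=
  hρ.locallyCompactSpace

theorem scG (hρ : IsClosedEmbedding ρ) : SecondCountableTopology G :=
  hρ.isEmbedding.secondCountableTopology

theorem t2G (hρ : IsClosedEmbedding ρ) : T2Space G :=
  hρ.isEmbedding.t2Space

theorem isCompact_nearG (hρ : IsClosedEmbedding ρ) (ε : ℝ) :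
    IsCompact {g : G | Near (ρ g) ε} :=
  hρ.isCompact_preimage (EM.isCompact_near (n := n) (K := K) ε)

theorem hasBasis_nearG (hρ : IsClosedEmbedding ρ) :
    (𝓝 (1 : G)).HasBasis (fun ε : ℝ => 0 < ε) (fun ε => {g : G | Near (ρ g) ε}) := by
  have h1 : (𝓝 (ρ 1)).HasBasis (fun ε : ℝ => 0 < ε) (fun ε => {g : GG n K | Near g ε}) := by
    rw [map_one]
    exact EM.hasBasis_near
  exact hρ.isInducing.basis_nhds h1

theorem a_add (hρ : IsClosedEmbedding ρ) {a : ℤ × ℤ → G} (ha : Tor fun k => ρ (a k))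
    (k l : ℤ × ℤ) : a (k + l) = a k * a l := by
  apply hρ.injective
  rw [map_mul]
  exact ha.add k l

theorem a_zero (hρ : IsClosedEmbedding ρ) {a : ℤ × ℤ → G} (ha : Tor fun k => ρ (a k)) :
    a 0 = 1 := by
  apply hρ.injective
  rw [map_one]
  exact tor_zero ha

theorem a_conj_smul (a : ℤ × ℤ → G) (k : ℤ × ℤ) (g : G) (x : X) :
    a k • g • x = (a k * g * (a k)⁻¹) • a k • x := by
  rw [smul_smul, smul_smul, inv_mul_cancel_right]

/-- finite nets of the compact sets `{g | Near (ρ g) c}` -/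
theorem exists_net (hρ : IsClosedEmbedding ρ) (c : ℝ) {ε : ℝ} (hε : 0 < ε) :
    ∃ W : Finset G, ∀ g : G, Near (ρ g) c → ∃ w ∈ W, Near (ρ (g * w⁻¹)) ε := by
  obtain ⟨W, _, hW⟩ := (isCompact_nearG hρ c).elim_nhds_subcover
    (fun w : G => {g : G | Near (ρ (g * w⁻¹)) ε}) (fun w _ => by
      have h1 : Tendsto (fun g : G => g * w⁻¹) (𝓝 w) (𝓝 (1 : G)) := by
        have h2 := (continuous_mul_const (w⁻¹ : G)).tendsto w
        rwa [mul_inv_cancel] at h2
      exact h1 ((hasBasis_nearG hρ).mem_of_mem hε))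
  refine ⟨W, fun g hg => ?_⟩
  obtain ⟨w, hw, hgw⟩ := Set.mem_iUnion₂.1 (hW hg)
  exact ⟨w, hw, hgw⟩

theorem test_nonneg [Nonempty X] {M : ℝ} {f : X → ℝ} (hf : Test ρ M f) : 0 ≤ M := by
  obtain ⟨x⟩ := ‹Nonempty X›
  exact (abs_nonneg _).trans (hf.2.2.1 x)

theorem test_mono {M M' : ℝ} {f : X → ℝ} (hf : Test ρ M f) (h : M ≤ M') : Test ρ M' f :=
  ⟨hf.1, hf.2.1, fun x => (hf.2.2.1 x).trans h, fun g ε x hε hg =>
    (hf.2.2.2 g ε x hε hg).trans (mul_le_mul_of_nonneg_right h hε)⟩

theorem test_smul (u : G) {M : ℝ} {f : X → ℝ} (hf : Test ρ M f) :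
    ∃ M', Test ρ M' (fun x => f (u • x)) := by
  obtain ⟨C, hC, h⟩ := EM.near_conj_u (ρ u)
  have h0 : |M| ≤ |M| * (1 + C) := le_mul_of_one_le_right (abs_nonneg _) (by linarith)
  refine ⟨|M| * (1 + C), hf.1.comp (continuous_const_smul u),
    hf.2.1.comp_homeomorph (Homeomorph.smul u), fun x => ?_, fun g ε x hε hg => ?_⟩
  · exact (hf.2.2.1 _).trans ((le_abs_self M).trans h0)
  · have h1 : u • g • x = (u * g * u⁻¹) • u • x := by
      rw [smul_smul, smul_smul, inv_mul_cancel_right]
    change |f (u • g • x) - f (u • x)| ≤ _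
    rw [h1]
    have h2 : Near (ρ (u * g * u⁻¹)) (C * ε) := by
      rw [map_mul, map_mul, map_inv]
      exact h (ρ g) ε hε hg
    refine (hf.2.2.2 _ _ _ (mul_nonneg hC hε) h2).trans ?_
    rw [← mul_assoc]
    refine mul_le_mul_of_nonneg_right ?_ hε
    calc M * C ≤ |M| * C := mul_le_mul_of_nonneg_right (le_abs_self M) hC
      _ ≤ |M| * (1 + C) := mul_le_mul_of_nonneg_left (by linarith) (abs_nonneg _)

variable [MeasurableSpace X] [BorelSpace X]

theorem fix_one (μ : Measure X) : Fix μ (1 : G) := by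
  unfold Fix
  have : (fun x : X => (1 : G) • x) = id := by
    funext x
    exact one_smul _ x
  rw [this, Measure.map_id]

theorem fix_mul {μ : Measure X} {g g' : G} (h : Fix μ g) (h' : Fix μ g') : Fix μ (g * g') := by
  unfold Fix at *
  have : (fun x : X => (g * g') • x) = (fun x : X => g • x) ∘ fun x : X => g' • x := by
    funext x
    simp only [Function.comp_apply, smul_smul]
  rw [this, ← Measure.map_map (continuous_const_smul g).measurable
    (continuous_const_smul g').measurable, h', h]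

theorem fix_inv {μ : Measure X} {g : G} (h : Fix μ g) : Fix μ g⁻¹ := by
  unfold Fix at *
  conv_lhs => rw [← h]
  rw [Measure.map_map (continuous_const_smul g⁻¹).measurable (continuous_const_smul g).measurable]
  have : ((fun x : X => g⁻¹ • x) ∘ fun x : X => g • x) = id := by
    funext x
    simp only [Function.comp_apply, inv_smul_smul, id]
  rw [this, Measure.map_id]

theorem integral_smul_eq {μ : Measure X} {g : G} (h : Fix μ g) (f : X → ℝ) :
    ∫ x, f (g • x) ∂μ = ∫ x, f x ∂μ := by
  conv_rhs => rw [← h]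
  exact ((Homeomorph.smul g).measurableEmbedding.integral_map f).symm

theorem avg_sub_le (a : ℤ × ℤ → G) (D : Finset (ℤ × ℤ)) {f f' : X → ℝ} {c : ℝ} (hc : 0 ≤ c)
    {x x' : X} (h : ∀ k ∈ D, |f (a k • x) - f' (a k • x')| ≤ c) :
    |avg a D f x - avg a D f' x'| ≤ c := by
  unfold avg
  rw [← sub_div, ← Finset.sum_sub_distrib, abs_div, Nat.abs_cast]
  refine div_le_of_le_mul₀ (Nat.cast_nonneg _) hc ?_
  refine (Finset.abs_sum_le_sum_abs _ _).trans ((Finset.sum_le_sum h).trans ?_)
  rw [Finset.sum_const, nsmul_eq_mul, mul_comm]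

theorem integral_sub_le {μ : Measure X} [IsProbabilityMeasure μ] {f f' : X → ℝ}
    (hf : Continuous f) (hf' : Continuous f') (hc : HasCompactSupport f)
    (hc' : HasCompactSupport f') {c : ℝ} (h : ∀ z, |f z - f' z| ≤ c) :
    |∫ x, f x ∂μ - ∫ x, f' x ∂μ| ≤ c := by
  rw [← integral_sub (hf.integrable_of_hasCompactSupport hc)
    (hf'.integrable_of_hasCompactSupport hc')]
  have h1 := norm_integral_le_of_norm_le_const (μ := μ) (f := fun x => f x - f' x) (C := c)
    (Eventually.of_forall fun x => h x)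
  simpa using h1

end action

end Pool.Agent.Work.MP_67388f_an.HM
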