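import Pool.Agent.Work.MP_67388f_an.HM.LemA
import Pool.Agent.Work.MP_67388f_an.HM.LemB

/-!
# Lem: the basic lemmas (`LemA`, `LemB`)
-/
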