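import Pool.Agent.Work.MP_67388f_an.HM.CL
import Pool.Agent.Work.MP_67388f_an.HM.Lem
import Pool.Agent.Work.MP_67388f_an.EM.CoP

/-!
# CF (size M-L): pairs of typical points with displacement in `1 + C`
(copy and adapt `corrected_pair` of `EM/CoF.lean`)

## Proof
Let `p c = fun i => P i (c i)` for `c : Par n K`; by `Chart.mem` for each `c` there is `u c : G` with
`ρ (u c) = p c`, `Fix μ (u c)`; `u` is continuous since `ρ` is an embedding and `p` is continuous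
(`Chart.cont`). Let `ν, θ, C` be from `EM.ni_prod` (see `EM/CoP.lean` for its exact form), `ρ₁ i` from `corr_place`
for `J i, P i, θ`, `r > 0` at most all `ρ₁ i`; `B₁, B₂` the boxes of radius `r, 2 r`, `V₁ = ν B₁ ∈ (0, ∞)`,
`V₂ = ν B₂ < ∞`, `β = V₁ / (2 (1 + C))`, `εG > 0` with `V₂ εG ≤ β / 2`. Let `μ.real G₀ᶜ ≤ εG`. For `x ∈ X` let
`bad x = ν {c ∈ B₂ | u c • x ∉ G₀}`; it is measurable in `x` and by Tonelli
`∫⁻ bad x ∂μ = ∫⁻_{c ∈ B₂} μ {x | u c • x ∉ G₀} ∂ν = V₂ μ G₀ᶜ ≤ β / 2`, as `u c` preserves `μ`. So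
`G' = {x | bad x < β}` has `μ G'ᶜ ≤ 1/2`, `μ G' ≠ 0`.
Given `ε > 0` let `δ` be the minimum of the `δ i` from `corr_place` for `r` and `min ε r`. Let `x ∈ G'`,
`Near (ρ g) δ`, `y = g • x ∈ G'`, `ψ i` from `corr_place` for `(ρ g) i`, `ψ c = (ψ i (c i))_i`, which maps `B₁` to `B₂`.
The set of `c ∈ B₁` with `u c • x ∉ G₀` has `ν`-measure `< β`, the set of `c ∈ B₁` with
`ψ c ∈ {c' ∈ B₂ | u c' • y ∉ G₀}` at most `C β` (`ni_prod`); as `β + C β < V₁` there is `c ∈ B₁` in neither.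
Put `w = u c`, `v = u (ψ c)`, `x₁ = w • x ∈ G₀`; then `(v * g * w⁻¹) • x₁ = v • y ∈ G₀`, and
`ρ (v * g * w⁻¹) i = P i (ψ i (c i)) * (ρ g) i * (P i (c i))⁻¹` has the two properties by `corr_place`.
-/

set_option autoImplicit false

namespace Pool.Agent.Work.MP_67388f_an.HM

open MeasureTheory Filter Topology Matrix
open Pool.Agent.Work.MP_67388f_an.EM (GG Near Rt Par NearId NIProp)

private theorem fix_preimage {G : Type} [Group G] [TopologicalSpace G]
    {X : Type} [TopologicalSpace X] [MulAction G X] [ContinuousSMul G X] [MeasurableSpace X]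
    [BorelSpace X] {μ : Measure X} {g : G} (h : Fix μ g) {s : Set X} (hs : MeasurableSet s) :
    μ ((fun x : X => g • x) ⁻¹' s) = μ s := by
  have h1 : Measurable fun x : X => g • x := (continuous_const_smul g).measurable
  rw [← Measure.map_apply h1 hs]
  rw [show μ.map (fun x : X => g • x) = μ from h]

private theorem exists_box {I : Type} (hfin : Finite I) (r : I → ℝ) (hr : ∀ i, 0 < r i) :
    ∃ ρ : ℝ, 0 < ρ ∧ ∀ i, ρ ≤ r i := by
  have h1 : ∀ᶠ ρ : ℝ in 𝓝[>] 0, ∀ i, ρ ≤ r i := by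
    rw [Filter.eventually_all]
    intro i
    exact Filter.Eventually.filter_mono nhdsWithin_le_nhds
      ((gt_mem_nhds (hr i)).mono fun x hx => le_of_lt hx)
  have h2 : ∀ᶠ ρ : ℝ in 𝓝[>] 0, 0 < ρ := self_mem_nhdsWithin
  obtain ⟨ρ, h3, h4⟩ := (h2.and h1).exists
  exact ⟨ρ, h3, h4⟩

variable {I : Type} [Fintype I] {n : I → ℕ} {K : I → Type} [∀ i, NontriviallyNormedField (K i)]
  [∀ i, ProperSpace (K i)]
  {G : Type} [Group G] [TopologicalSpace G] [IsTopologicalGroup G]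
  {X : Type} [TopologicalSpace X] [T2Space X] [LocallyCompactSpace X] [SecondCountableTopology X]
  [MulAction G X] [ContinuousSMul G X] [MeasurableSpace X] [BorelSpace X] {ρ : G →* GG n K}

theorem corrected_pair (hρ : IsClosedEmbedding ρ) (hNI : ∀ i, NIProp (K i))
    {μ : Measure X} [IsProbabilityMeasure μ]
    {J : ∀ i, Finset (Fin (n i) × Fin (n i))}
    {P : ∀ i, (Fin (n i) × Fin (n i) → K i) → SpecialLinearGroup (Fin (n i)) (K i)} {c₀ : ℝ}
    (hC : Chart {z : GG n K | ∃ g : G, Fix μ g ∧ ρ g = z} J P c₀) :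
    ∃ εG > 0, ∀ G₀ : Set X, MeasurableSet G₀ → μ.real G₀ᶜ ≤ εG → ∃ G' : Set X, μ G' ≠ 0 ∧
      ∀ ε : ℝ, 0 < ε → ∃ δ > 0, ∀ x ∈ G', ∀ g : G, Near (ρ g) δ → g • x ∈ G' →
        ∃ x₁ ∈ G₀, ∃ v w : G, Fix μ v ∧ Fix μ w ∧ (v * g * w⁻¹) • x₁ ∈ G₀ ∧
          OnT J (ρ (v * g * w⁻¹)) ∧ Near (ρ (v * g * w⁻¹)) ε := by
  classical
  let mP : MeasurableSpace (Par n K) := borel (Par n K)
  have bP : BorelSpace (Par n K) := ⟨rfl⟩
  -- the elements `u c`
  choose u hu using fun c : Par n K => (hC.mem c : ∃ g : G, Fix μ g ∧ ρ g = fun i => P i (c i))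
  have huf : ∀ c, Fix μ (u c) := fun c => (hu c).1
  have hup : ∀ c, ρ (u c) = fun i => P i (c i) := fun c => (hu c).2
  have hucont : Continuous u := by
    rw [hρ.isInducing.continuous_iff]
    have e1 : (ρ ∘ u) = fun c : Par n K => fun i => P i (c i) := by
      funext c
      exact hup c
    rw [e1]
    exact continuous_pi fun i => (hC.cont i).comp (continuous_apply i)
  obtain ⟨ν, θ, C, hσ, hθ, hCt, hlt, hpos, hni⟩ := EM.ni_prod n K hNI
  choose ρ₁ hρ₁ hcorr using fun i => corr_place (J i) (P i) (hC.one i) (hC.deriv i) (K := K i) hθ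
  obtain ⟨r, hr, hrle⟩ := exists_box (inferInstance : Finite I) ρ₁ hρ₁
  set V₁ : ENNReal := ν {c | ∀ i, ‖c i‖ ≤ r} with hV₁
  have hV₁0 : V₁ ≠ 0 := (hpos r hr).ne'
  have hV₁t : V₁ ≠ ⊤ := (hlt r).ne
  set B₂ : Set (Par n K) := {c | ∀ i, ‖c i‖ ≤ 2 * r} with hB₂
  have hB₂m : MeasurableSet B₂ := by
    apply IsClosed.measurableSet
    rw [hB₂, Set.ofPred_forall]
    exact isClosed_iInter fun i => isClosed_le ((continuous_apply i).norm) continuous_const
  have hV₂t : ν B₂ ≠ ⊤ := (hlt (2 * r)).ne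
  have hC1 : (1 + C) ≠ ⊤ := ENNReal.add_ne_top.2 ⟨ENNReal.one_ne_top, hCt.ne⟩
  have hC0 : (1 + C) ≠ 0 := by simp
  set β : ENNReal := V₁ / 2 / (1 + C) with hβ
  have hβ0 : β ≠ 0 := by
    rw [hβ]
    exact (ENNReal.div_pos (ENNReal.div_pos hV₁0 ENNReal.ofNat_ne_top).ne' hC1).ne'
  have hβt : β ≠ ⊤ := by
    rw [hβ]
    exact ENNReal.div_ne_top (ENNReal.div_ne_top hV₁t two_ne_zero) hC0
  have hβC : β + C * β < V₁ := by
    have e1 : β + C * β = V₁ / 2 := by
      rw [← one_add_mul, hβ, ENNReal.mul_div_cancel hC0 hC1]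
    rw [e1]
    exact ENNReal.half_lt_self hV₁0 hV₁t
  -- the choice of `εG`
  obtain ⟨εG, hεG, hεGβ⟩ : ∃ εG : ℝ, 0 < εG ∧ ENNReal.ofReal εG * ν B₂ ≤ β / 2 := by
    obtain ⟨b, hb, hb2⟩ : ∃ b : ℝ, 0 < b ∧ β / 2 = ENNReal.ofReal b :=
      ⟨(β / 2).toReal, ENNReal.toReal_pos
        (ENNReal.div_pos hβ0 ENNReal.ofNat_ne_top).ne' (ENNReal.div_ne_top hβt two_ne_zero),
        (ENNReal.ofReal_toReal (ENNReal.div_ne_top hβt two_ne_zero)).symm⟩
    obtain ⟨v, hv, hv2⟩ : ∃ v : ℝ, 0 ≤ v ∧ ν B₂ = ENNReal.ofReal v :=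
      ⟨(ν B₂).toReal, ENNReal.toReal_nonneg, (ENNReal.ofReal_toReal hV₂t).symm⟩
    refine ⟨b / (v + 1), by positivity, ?_⟩
    rw [hv2, hb2, ← ENNReal.ofReal_mul (by positivity)]
    apply ENNReal.ofReal_le_ofReal
    rw [div_mul_eq_mul_div, div_le_iff₀ (by positivity)]
    nlinarith
  refine ⟨εG, hεG, fun G₀ hGm hGε => ?_⟩
  have hcontF : Continuous fun q : X × Par n K => u q.2 • q.1 :=
    (hucont.comp continuous_snd).smul continuous_fst
  set ν₂ : Measure (Par n K) := ν.restrict B₂ with hν₂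
  have : IsFiniteMeasure ν₂ := ⟨by rw [hν₂, Measure.restrict_apply_univ]; exact hlt (2 * r)⟩
  set E : Set (X × Par n K) := {q | u q.2 • q.1 ∉ G₀} with hE
  have hEm : MeasurableSet E := hcontF.measurable hGm.compl
  set bad : X → ENNReal := fun x => ν₂ (Prod.mk x ⁻¹' E) with hbad
  have hbadm : Measurable bad := measurable_measure_prodMk_left hEm
  have hint : ∫⁻ x, bad x ∂μ ≤ β / 2 := by
    rw [hbad, ← Measure.prod_apply hEm, Measure.prod_apply_symm hEm]
    have e1 : ∀ c : Par n K, μ ((fun x => (x, c)) ⁻¹' E) = μ G₀ᶜ := by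
      intro c
      exact fix_preimage (huf c) hGm.compl
    simp only [e1]
    rw [lintegral_const, hν₂, Measure.restrict_apply_univ]
    refine le_trans ?_ hεGβ
    gcongr
    rw [Measure.real, ← ENNReal.le_ofReal_iff_toReal_le (measure_ne_top _ _) hεG.le] at hGε
    exact hGε
  refine ⟨{x | bad x < β}, ?_, ?_⟩
  · intro h0
    have e1 : μ {x | β ≤ bad x} ≤ 1 / 2 := by
      refine (meas_ge_le_lintegral_div hbadm.aemeasurable hβ0 hβt).trans ?_
      calc (∫⁻ x, bad x ∂μ) / β ≤ β / 2 / β := by gcongr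
        _ = 1 / 2 := by
          rw [ENNReal.div_eq_inv_mul, ENNReal.div_eq_inv_mul, mul_left_comm,
            ENNReal.inv_mul_cancel hβ0 hβt, mul_one, ENNReal.div_eq_inv_mul, mul_one]
    have e2 : {x | bad x < β}ᶜ = {x | β ≤ bad x} := by
      ext x
      simp
    have e3 : μ (Set.univ : Set X) ≤ μ {x | bad x < β} + μ {x | bad x < β}ᶜ := by
      rw [← Set.union_compl_self {x | bad x < β}]
      exact measure_union_le _ _
    rw [h0, e2, zero_add, measure_univ] at e3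
    have e4 : (1 : ENNReal) ≤ 1 / 2 := e3.trans e1
    rw [one_div] at e4
    exact absurd e4 (not_le.2 ENNReal.one_half_lt_one)
  · intro ε hε
    choose δ hδ hψ using fun i => hcorr i r hr (hrle i) (min ε r) (lt_min hε hr)
    obtain ⟨δ₀, hδ₀, hδle⟩ := exists_box (inferInstance : Finite I) δ hδ
    refine ⟨δ₀, hδ₀, ?_⟩
    intro x hx g hg hy
    have hgi : ∀ i, ∀ j l,
        ‖(ρ g i).1 j l - (1 : Matrix (Fin (n i)) (Fin (n i)) (K i)) j l‖ ≤ δ i :=
      fun i j l => (hg i j l).trans (hδle i)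
    choose ψ hψ1 hψ2 using fun i => hψ i (ρ g i) (hgi i)
    set y : X := g • x with hydef
    set s₂ : Set (Par n K) := {c | c ∈ B₂ ∧ u c • y ∉ G₀} with hs₂
    have hs₂m : MeasurableSet s₂ := by
      refine hB₂m.inter ?_
      have e1 : Continuous fun c : Par n K => u c • y :=
        hucont.smul continuous_const
      exact e1.measurable hGm.compl
    have hB₁₂ : {c : Par n K | ∀ i, ‖c i‖ ≤ r} ⊆ B₂ := by
      intro c hc i
      exact (hc i).trans (by linarith)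
    have hbadeq : ∀ z : X, ν {c | c ∈ B₂ ∧ u c • z ∉ G₀} = bad z := by
      intro z
      have e1 : MeasurableSet (Prod.mk z ⁻¹' E) := measurable_prodMk_left hEm
      show _ = ν₂ (Prod.mk z ⁻¹' E)
      rw [hν₂, Measure.restrict_apply e1]
      congr 1
      ext c
      constructor
      · rintro ⟨h1, h2⟩
        exact ⟨h2, h1⟩
      · rintro ⟨h1, h2⟩
        exact ⟨h2, h1⟩
    have hN1 : ν {c | (∀ i, ‖c i‖ ≤ r) ∧ u c • x ∉ G₀} < β := by
      refine lt_of_le_of_lt (measure_mono ?_) (lt_of_eq_of_lt (hbadeq x) hx)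
      rintro c ⟨h1, h2⟩
      exact ⟨hB₁₂ h1, h2⟩
    have hN2 : ν ({c | ∀ i, ‖c i‖ ≤ r} ∩ (fun c i => ψ i (c i)) ⁻¹' s₂) ≤ C * β := by
      refine (hni r ψ hr hψ1 s₂ hs₂m).trans ?_
      gcongr
      exact (lt_of_eq_of_lt (hbadeq y) hy).le
    obtain ⟨c, hc1, hc2, hc3⟩ : ∃ c : Par n K, (∀ i, ‖c i‖ ≤ r) ∧
        u c • x ∈ G₀ ∧ (fun i => ψ i (c i)) ∉ s₂ := by
      by_contra hcon
      push Not at hcon
      have e1 : {c : Par n K | ∀ i, ‖c i‖ ≤ r} ⊆
          {c | (∀ i, ‖c i‖ ≤ r) ∧ u c • x ∉ G₀} ∪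
          ({c | ∀ i, ‖c i‖ ≤ r} ∩ (fun c i => ψ i (c i)) ⁻¹' s₂) := by
        intro c hc
        by_cases h1 : u c • x ∈ G₀
        · exact Or.inr ⟨hc, hcon c hc h1⟩
        · exact Or.inl ⟨hc, h1⟩
      have e2 : V₁ ≤ β + C * β := by
        refine (measure_mono e1).trans ((measure_union_le _ _).trans ?_)
        exact add_le_add hN1.le hN2
      exact absurd e2 (not_le.2 hβC)
    set ψc : Par n K := fun i => ψ i (c i) with hψc
    have hψcB : ψc ∈ B₂ := by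
      intro i
      have e1 := (hψ2 i (c i) (hc1 i)).1
      have e2 : ‖ψ i (c i)‖ ≤ ‖ψ i (c i) - c i‖ + ‖c i‖ := by
        have := norm_add_le (ψ i (c i) - c i) (c i)
        rwa [sub_add_cancel] at this
      have e3 : min ε r ≤ r := min_le_right _ _
      have e4 := hc1 i
      show ‖ψ i (c i)‖ ≤ 2 * r
      linarith
    have hψcG : u ψc • y ∈ G₀ := by
      by_contra hcon
      exact hc3 ⟨hψcB, hcon⟩
    have hval : ∀ i, ρ (u ψc * g * (u c)⁻¹) i = P i (ψ i (c i)) * ρ g i * (P i (c i))⁻¹ := by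
      intro i
      rw [map_mul, map_mul, map_inv, hup, hup]
      rfl
    refine ⟨u c • x, hc2, u ψc, u c, huf _, huf _, ?_, ?_, ?_⟩
    · rw [smul_smul, inv_mul_cancel_right, ← smul_smul]
      exact hψcG
    · intro i j l hjl
      rw [hval]
      exact (hψ2 i (c i) (hc1 i)).2.1 j l hjl
    · intro i j l
      rw [hval]
      exact ((hψ2 i (c i) (hc1 i)).2.2 j l).trans (min_le_left _ _)

end Pool.Agent.Work.MP_67388f_an.HM
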