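import Pool.Agent.Work.MP_67388f_an.MX.Samp

/-!
# MG: good sets of large measure (variant of `sgood_exists` of `MX/Samp.lean` by helper28/helper97)
-/

set_option autoImplicit false

namespace PoolMX

open MeasureTheory Filter Topology

section lists

variable {ι : Type*}

private lemma list_sum_sub_le (l : List ι) (F H : ι → ℝ) (δ : ℝ)
    (h : ∀ m ∈ l, |F m - H m| ≤ δ) : |(l.map F).sum - (l.map H).sum| ≤ l.length * δ := by
  induction l with
  | nil => simp
  | cons b l ih =>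
    have h1 := ih fun m hm => h m (List.mem_cons_of_mem _ hm)
    have h2 := h b List.mem_cons_self
    simp only [List.map_cons, List.sum_cons, List.length_cons, Nat.cast_add, Nat.cast_one]
    have h3 : F b + (l.map F).sum - (H b + (l.map H).sum) =
        (F b - H b) + ((l.map F).sum - (l.map H).sum) := by ring
    rw [h3]
    refine (abs_add_le _ _).trans ?_
    linarith

private lemma list_sum_abs_le (l : List ι) (F : ι → ℝ) (δ : ℝ) (h : ∀ m ∈ l, |F m| ≤ δ) :
    |(l.map F).sum| ≤ l.length * δ := by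
  have h1 := list_sum_sub_le l F (fun _ => 0) δ (fun m hm => by simpa using h m hm)
  simpa using h1

end lists

section samp

variable {G X : Type*} [Group G] [TopologicalSpace G] [TopologicalSpace X]
    [MeasurableSpace X] [BorelSpace X] [MulAction G X] [ContinuousSMul G X] {r : ℕ}

private lemma lavg_sub_le (a : V r → G) (l : List (V r)) (f g : X → ℝ) {δ : ℝ} (hδ : 0 ≤ δ)
    (x y : X) (h : ∀ m ∈ l, |f (a m • x) - g (a m • y)| ≤ δ) :
    |lavg a l f x - lavg a l g y| ≤ δ := by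
  rw [lavg, lavg, ← sub_div, abs_div, Nat.abs_cast]
  refine div_le_of_le_mul₀ (Nat.cast_nonneg _) hδ ?_
  rw [mul_comm]
  exact list_sum_sub_le l _ _ δ h

private lemma lavg_cont (a : V r → G) (l : List (V r)) (f : C(X, ℝ)) :
    Continuous fun x => lavg a l f x := by
  unfold lavg
  refine Continuous.div_const ?_ _
  exact continuous_list_sum _ fun m _ => f.continuous.comp (continuous_const_smul (a m))

end samp

theorem exists_uniform_large {Ω ι : Type*} [Countable ι] [MeasurableSpace Ω] (μ : Measure Ω)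
    [IsProbabilityMeasure μ] (b : ι → ℕ → Set Ω) (hs : ∀ i, Summable fun k => μ.real (b i k))
    {ε₀ : ℝ} (hε₀ : 0 < ε₀) :
    ∃ E : Set Ω, MeasurableSet E ∧ μ.real Eᶜ ≤ ε₀ ∧ ∀ i, ∀ᶠ k : ℕ in atTop, ∀ x ∈ E, x ∉ b i k := by
  obtain ⟨ε, hε, hεs⟩ := ENNReal.exists_pos_sum_of_countable
    (ENNReal.ofReal_pos.2 hε₀).ne' ι
  have htail : ∀ i, ∃ K : ℕ, ∑' k, μ (b i (k + K)) < ε i := by
    intro i
    have h1 : ∑' k, μ (b i k) ≠ ⊤ := by
      have h2 : ∀ k, μ (b i k) = ENNReal.ofReal (μ.real (b i k)) := fun k =>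
        (ofReal_measureReal (measure_ne_top _ _)).symm
      rw [tsum_congr h2]
      exact (hs i).tsum_ofReal_ne_top
    have h3 := ENNReal.tendsto_sum_nat_add (fun k => μ (b i k)) h1
    exact ((tendsto_order.1 h3).2 _ (ENNReal.coe_pos.2 (hε i))).exists
  choose K hK using htail
  refine ⟨(toMeasurable μ (⋃ i, ⋃ k, b i (k + K i)))ᶜ, (measurableSet_toMeasurable _ _).compl,
    ?_, ?_⟩
  · rw [compl_compl, measureReal_def, measure_toMeasurable]
    have h1 : μ (⋃ i, ⋃ k, b i (k + K i)) ≤ ENNReal.ofReal ε₀ := by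
      refine ((measure_iUnion_le _).trans ?_).trans hεs.le
      exact ENNReal.tsum_le_tsum fun i => (measure_iUnion_le _).trans (hK i).le
    exact ENNReal.toReal_le_of_le_ofReal hε₀.le h1
  · intro i
    filter_upwards [eventually_ge_atTop (K i)] with k hk x hx hxb
    apply hx
    refine subset_toMeasurable _ _ ?_
    refine Set.mem_iUnion.2 ⟨i, Set.mem_iUnion.2 ⟨k - K i, ?_⟩⟩
    rwa [Nat.sub_add_cancel hk]

private theorem sum_div (g : ℕ → ℝ) (M : ℕ) (hM : 0 < M) (n : ℕ) :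
    ∑ k ∈ Finset.range (n * M), g (k / M) = M * ∑ R ∈ Finset.range n, g R := by
  induction n with
  | zero => simp
  | succ n ih =>
    rw [Nat.succ_mul, Finset.sum_range_add, ih, Finset.sum_range_succ, mul_add]
    congr 1
    have h : ∀ x ∈ Finset.range M, g ((n * M + x) / M) = g n := by
      intro x hx
      congr 1
      rw [add_comm, Nat.add_mul_div_right _ _ hM, Nat.div_eq_of_lt (Finset.mem_range.1 hx), zero_add]
    rw [Finset.sum_congr rfl h, Finset.sum_const, Finset.card_range, nsmul_eq_mul]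

private theorem summable_div {g : ℕ → ℝ} (hg : Summable g) (h0 : ∀ n, 0 ≤ g n) {M : ℕ}
    (hM : 0 < M) : Summable fun k => g (k / M) := by
  refine summable_of_sum_range_le (c := M * ∑' R, g R) (fun n => h0 _) fun n => ?_
  calc ∑ k ∈ Finset.range n, g (k / M) ≤ ∑ k ∈ Finset.range (n * M), g (k / M) := by
        refine Finset.sum_le_sum_of_subset_of_nonneg ?_ fun k _ _ => h0 _
        exact Finset.range_mono (Nat.le_mul_of_pos_right n hM)
    _ = M * ∑ R ∈ Finset.range n, g R := sum_div g M hM n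
    _ ≤ M * ∑' R, g R := by
        refine mul_le_mul_of_nonneg_left ?_ (Nat.cast_nonneg _)
        exact hg.sum_le_tsum _ fun k _ => h0 k

theorem sgood_large {G X : Type*} [Group G] [TopologicalSpace G] [TopologicalSpace X]
    [LocallyCompactSpace X] [T2Space X] [SecondCountableTopology X] [MeasurableSpace X]
    [BorelSpace X] [MulAction G X] [ContinuousSMul G X] {r : ℕ} (a : V r → G) (μ : Measure X)
    [IsProbabilityMeasure μ] (hμ : ∀ m, μ.map (fun x => a m • x) = μ) {C : Type*} [Finite C]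
    (w : C → V r →+ ℝ) (M : ℕ) (hM : 0 < M)
    (hconv : ∀ c, w c ≠ 0 → Sampled a μ (w c)) {ε₀ : ℝ} (hε₀ : 0 < ε₀) :
    ∃ F : C → ℕ → ℕ → ℕ → List (V r),
      (∀ c, w c ≠ 0 → ∀ N p : ℕ, 0 < N → ∀ R, F c N p R ≠ [] ∧
        ∀ m ∈ F c N p R, m ∈ strip (w c) N (1 / ((p : ℝ) + 1)) R) ∧
      ∃ E : Set X, MeasurableSet E ∧ μ.real Eᶜ ≤ ε₀ ∧ SGood a μ M w F E := by
  classical
  obtain ⟨D, hD, hDd⟩ := exists_dense_cc X
  have hFch : ∀ (c : C) (N p : ℕ), ∃ F : ℕ → List (V r), w c ≠ 0 → 0 < N →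
      (∀ R, F R ≠ [] ∧ ∀ m ∈ F R, m ∈ strip (w c) N (1 / ((p : ℝ) + 1)) R) ∧
        SampleConv a μ F := by
    intro c N p
    by_cases h : w c ≠ 0 ∧ 0 < N
    · obtain ⟨F, hF⟩ := hconv c h.1 N (1 / ((p : ℝ) + 1)) h.2 (by positivity)
      exact ⟨F, fun _ _ => hF⟩
    · exact ⟨fun _ => [], fun h1 h2 => absurd ⟨h1, h2⟩ h⟩
  choose F hF using hFch
  have hch : ∀ (c : C) (N p n l : ℕ), ∃ f : C(X, ℝ), HasCompactSupport f ∧
      (∀ x, |D n x - f x| ≤ 1 / ((l : ℝ) + 1)) ∧ (w c ≠ 0 → 0 < N → ∀ δ : ℝ, 0 < δ →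
        Summable fun R : ℕ => μ.real {x | δ < |lavg a (F c N p R) f x - ∫ y, f y ∂μ|}) := by
    intro c N p n l
    by_cases h : w c ≠ 0 ∧ 0 < N
    · obtain ⟨f, h1, h2, h3⟩ := (hF c N p h.1 h.2).2 (D n) (hD n) (1 / ((l : ℝ) + 1))
        (by positivity)
      exact ⟨f, h1, h2, fun _ _ => h3⟩
    · refine ⟨D n, hD n, fun x => ?_, fun h1 h2 => absurd ⟨h1, h2⟩ h⟩
      rw [sub_self, abs_zero]
      positivity
  choose f hf1 hf2 hf3 using hch
  refine ⟨F, fun c hc N p hN => (hF c N p hc hN).1, ?_⟩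
  let b : (ℕ × ℕ × C × ℕ × ℕ × ℕ) → ℕ → Set X := fun i k =>
    {x | w i.2.2.1 ≠ 0 ∧ 1 / ((i.2.2.2.2.2 : ℝ) + 1) <
      |lavg a (F i.2.2.1 (i.2.2.2.1 + 1) i.2.2.2.2.1 (k / M))
        (f i.2.2.1 (i.2.2.2.1 + 1) i.2.2.2.2.1 i.1 i.2.1) (a (ctr (w i.2.2.1) k) • x) -
        ∫ y, f i.2.2.1 (i.2.2.2.1 + 1) i.2.2.2.2.1 i.1 i.2.1 y ∂μ|}
  have hsum : ∀ i, Summable fun k => μ.real (b i k) := by
    rintro ⟨n, l, c, N, p, q⟩
    by_cases hc : w c = 0
    · have : ∀ k, b (n, l, c, N, p, q) k = ∅ := by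
        intro k
        ext x
        simp [b, hc]
      simp only [this, measureReal_empty]
      exact summable_zero
    · have h1 : Summable fun R : ℕ => μ.real {x | 1 / ((q : ℝ) + 1) <
          |lavg a (F c (N + 1) p R) (f c (N + 1) p n l) x - ∫ y, f c (N + 1) p n l y ∂μ|} :=
        hf3 c (N + 1) p n l hc (Nat.succ_pos N) _ (by positivity)
      have h2 := summable_div h1 (fun R => measureReal_nonneg) hM
      refine h2.congr fun k => ?_
      have hcont := lavg_cont a (F c (N + 1) p (k / M)) (f c (N + 1) p n l)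
      have hms : MeasurableSet {x | 1 / ((q : ℝ) + 1) <
          |lavg a (F c (N + 1) p (k / M)) (f c (N + 1) p n l) x -
            ∫ y, f c (N + 1) p n l y ∂μ|} :=
        (isOpen_lt continuous_const ((hcont.sub continuous_const).abs)).measurableSet
      have h3 : b (n, l, c, N, p, q) k = (fun x => a (ctr (w c) k) • x) ⁻¹'
          {x | 1 / ((q : ℝ) + 1) <
          |lavg a (F c (N + 1) p (k / M)) (f c (N + 1) p n l) x -
            ∫ y, f c (N + 1) p n l y ∂μ|} := by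
        ext x
        simp only [b, Set.mem_ofPred_eq, Set.mem_preimage]
        exact ⟨fun h => h.2, fun h => ⟨hc, h⟩⟩
      have h4 : Measurable fun x : X => a (ctr (w c) k) • x :=
        (continuous_const_smul (a (ctr (w c) k))).measurable
      rw [h3, measureReal_def, measureReal_def, ← Measure.map_apply h4 hms, hμ]
  obtain ⟨E, hEm, hE, hEb⟩ := exists_uniform_large μ b hsum hε₀
  refine ⟨E, hEm, hE, ?_⟩
  intro c hc N p hN θ hθ ε hε
  obtain ⟨N, rfl⟩ : ∃ N', N = N' + 1 := ⟨N - 1, by omega⟩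
  obtain ⟨n, hn⟩ := hDd θ hθ (ε / 8) (by positivity)
  obtain ⟨l, hl⟩ := exists_nat_one_div_lt (by positivity : 0 < ε / 8)
  obtain ⟨q, hq⟩ := exists_nat_one_div_lt (by positivity : 0 < ε / 2)
  filter_upwards [hEb (n, l, c, N, p, q)] with k hk x hx
  have h1 := hk x hx
  simp only [b, Set.mem_ofPred_eq, not_and, not_lt] at h1
  have h2 := h1 hc
  set f₀ := f c (N + 1) p n l with hf₀
  set l₀ := F c (N + 1) p (k / M) with hl₀
  have hclose : ∀ y, |θ y - f₀ y| ≤ ε / 4 := by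
    intro y
    have e1 := hn y
    have e2 := hf2 c (N + 1) p n l y
    have e3 : θ y - f₀ y = (θ y - D n y) + (D n y - f₀ y) := by ring
    rw [e3]
    refine (abs_add_le _ _).trans ?_
    linarith
  have h3 := lavg_sub_le a l₀ θ f₀ (by positivity : 0 ≤ ε / 4) (a (ctr (w c) k) • x)
    (a (ctr (w c) k) • x) (fun m _ => hclose _)
  have h4 : |∫ y, θ y ∂μ - ∫ y, f₀ y ∂μ| ≤ ε / 4 := by
    have i1 : Integrable (fun y => θ y) μ := θ.continuous.integrable_of_hasCompactSupport hθ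
    have i2 : Integrable (fun y => f₀ y) μ :=
      f₀.continuous.integrable_of_hasCompactSupport (hf1 c (N + 1) p n l)
    rw [← integral_sub i1 i2, ← Real.norm_eq_abs]
    have e1 := norm_integral_le_of_norm_le_const (μ := μ) (f := fun y => θ y - f₀ y) (C := ε / 4)
      (Eventually.of_forall fun y => by rw [Real.norm_eq_abs]; exact hclose y)
    rwa [probReal_univ, mul_one] at e1
  have e4 : lavg a l₀ θ (a (ctr (w c) k) • x) - ∫ y, θ y ∂μ =
      (lavg a l₀ θ (a (ctr (w c) k) • x) - lavg a l₀ f₀ (a (ctr (w c) k) • x)) +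
      (lavg a l₀ f₀ (a (ctr (w c) k) • x) - ∫ y, f₀ y ∂μ) -
        (∫ y, θ y ∂μ - ∫ y, f₀ y ∂μ) := by ring
  rw [e4]
  refine (abs_sub _ _).trans ?_
  have e5 := abs_add_le
    (lavg a l₀ θ (a (ctr (w c) k) • x) - lavg a l₀ f₀ (a (ctr (w c) k) • x))
      (lavg a l₀ f₀ (a (ctr (w c) k) • x) - ∫ y, f₀ y ∂μ)
  linarith

end PoolMX
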