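import Pool.Agent.Work.MP_67388f_an.HM.GC
import Pool.Agent.Work.MP_67388f_an.HM.CF
import Pool.Agent.Work.MP_67388f_an.HM.MG
import Pool.Agent.Work.MP_67388f_an.EM.CoR
import Pool.Agent.Work.MP_67388f_an.EM.CoQ
import Pool.Agent.Work.MP_67388f_an.MX.SMain
import Pool.Agent.Work.MP_67388f_an.MX.Cvx

/-!
# AM: assembly of the homogeneity theorem
-/

set_option autoImplicit false

namespace Pool.Agent.Work.MP_67388f_an.HM

open MeasureTheory Filter Topology Matrix
open Pool.Agent.Work.MP_67388f_an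
open Pool.Agent.Work.MP_67388f_an.EM (GG Near Rt NearId NIProp)
open PoolMX

section iso

variable {ι : Type} (n₀ : ℕ) (n q : ι → ℕ) [∀ v, Fact (q v).Prime]

/-- the components as one family -/
noncomputable def toGP : SLS n₀ n q →* GP n₀ n q where
  toFun x := fun i => match i with
    | none => x.1
    | some v => x.2 v
  map_one' := by
    funext i
    cases i <;> rfl
  map_mul' x y := by
    funext i
    cases i <;> rfl

theorem isClosedEmbedding_toGP : IsClosedEmbedding (toGP n₀ n q) := by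
  have h1 : Continuous (toGP n₀ n q) := by
    refine continuous_pi fun i => ?_
    cases i with
    | none => exact continuous_fst
    | some v => exact (continuous_apply v).comp continuous_snd
  let inv : GP n₀ n q → SLS n₀ n q := fun g => (reC g, fun v => paC v g)
  have h2 : Continuous inv := by
    refine Continuous.prodMk ?_ (continuous_pi fun v => ?_)
    · exact continuous_apply (none : Option ι)
    · exact continuous_apply (some v : Option ι)
  have h3 : ∀ x, inv (toGP n₀ n q x) = x := fun x => rfl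
  have h4 : ∀ g, toGP n₀ n q (inv g) = g := by
    intro g
    funext i
    cases i <;> rfl
  exact (Homeomorph.mk ⟨toGP n₀ n q, inv, h3, h4⟩ h1 h2).isClosedEmbedding

variable {n₀ n q}

theorem toGP_diag {x : SLS n₀ n q} (hx : (∀ i k, i ≠ k → x.1 i k = 0) ∧
    ∀ v, ∀ i k, i ≠ k → x.2 v i k = 0) :
    ∀ i j l, j ≠ l → (toGP n₀ n q x i).1 j l = 0 := by
  intro i
  cases i with
  | none => exact hx.1
  | some v => exact hx.2 v

theorem niProp_fld (i : Option ι) : NIProp (Fld q i) := by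
  cases i with
  | none => exact EM.niProp_real
  | some v => exact EM.niProp_padic (q v)

end iso

/-- `OnT` is stable under conjugation by diagonal elements -/
theorem onT_conj_diag {I : Type} {n : I → ℕ} {K : I → Type} [∀ i, NontriviallyNormedField (K i)]
    {d : GG n K} (hd : ∀ i j l, j ≠ l → (d i).1 j l = 0)
    {J : ∀ i, Finset (Fin (n i) × Fin (n i))} {g : GG n K} (h : OnT J g) :
    OnT J (d * g * d⁻¹) := by
  intro i j l hjl
  have h0 := h i j l hjl
  -- the inverse of `d` is diagonal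
  have e1 : ∀ (A : Matrix (Fin (n i)) (Fin (n i)) (K i)) (j l), ((d i).1 * A) j l =
      (d i).1 j j * A j l := by
    intro A j l
    rw [Matrix.mul_apply]
    exact Finset.sum_eq_single j (fun b _ hb => by rw [hd i j b (Ne.symm hb), zero_mul])
      (fun hb => absurd (Finset.mem_univ j) hb)
  have e2 : ∀ (A : Matrix (Fin (n i)) (Fin (n i)) (K i)) (j l), (A * (d i).1) j l =
      A j l * (d i).1 l l := by
    intro A j l
    rw [Matrix.mul_apply]
    exact Finset.sum_eq_single l (fun b _ hb => by rw [hd i b l hb, mul_zero])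
      (fun hb => absurd (Finset.mem_univ l) hb)
  have e3 : (d i).1 * (d i)⁻¹.1 = 1 := by
    have : (d i * (d i)⁻¹).1 = (1 : SpecialLinearGroup (Fin (n i)) (K i)).1 := by
      rw [mul_inv_cancel]
    exact this
  have e4 : ∀ j, (d i).1 j j ≠ 0 := by
    intro j hj
    have h1 := congrFun (congrFun e3 j) j
    rw [e1, hj, zero_mul, Matrix.one_apply_eq] at h1
    exact zero_ne_one h1
  have e5 : (d i * g i * (d i)⁻¹).1 * (d i).1 = (d i).1 * (g i).1 := by
    have : (d i * g i * (d i)⁻¹ * d i).1 = (d i * g i).1 := by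
      rw [inv_mul_cancel_right]
    exact this
  have h1 := congrFun (congrFun e5 j) l
  rw [e2, e1, h0] at h1
  have h2 : (d i * g i * (d i)⁻¹).1 j l * (d i).1 l l =
      (1 : Matrix (Fin (n i)) (Fin (n i)) (K i)) j l * (d i).1 l l := by
    rw [h1]
    by_cases hjl' : j = l
    · subst hjl'
      rw [mul_comm]
    · rw [Matrix.one_apply_ne hjl', mul_zero, zero_mul]
  exact mul_right_cancel₀ (e4 l) h2

section main

variable {ι : Type} [Fintype ι] {n₀ : ℕ} {n : ι → ℕ} {q : ι → ℕ} [∀ v, Fact (q v).Prime]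
  {G : Type} [Group G] [TopologicalSpace G] [IsTopologicalGroup G]
  {X : Type} [TopologicalSpace X] [LocallyCompactSpace X] [T2Space X]
  [SecondCountableTopology X] [MeasurableSpace X] [BorelSpace X] [MulAction G X]
  [ContinuousSMul G X]

/-- Points which are generic along samples and differ by an element commuting with the `a m`. -/
theorem exists_gen_set {r : ℕ} (a : V r → G) (ha : ∀ m m', a (m + m') = a m * a m')
    (μ : Measure X) [IsProbabilityMeasure μ] (hμ : ∀ m, μ.map (fun x => a m • x) = μ)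
    (herg : ∀ t : Set X, MeasurableSet t → (∀ m, (fun z => a m • z) ⁻¹' t =ᵐ[μ] t) →
      μ t = 0 ∨ μ tᶜ = 0) :
    ∃ Ω : Set X, MeasurableSet Ω ∧ μ Ωᶜ = 0 ∧ ∀ x ∈ Ω, ∀ t : G, t • x ∈ Ω →
      (∀ m, a m * t = t * a m) → μ.map (fun x => t • x) = μ := by
  obtain ⟨F, hF⟩ := exists_erg_samples a ha μ hμ herg
  obtain ⟨Ω, hΩ, hΩm, hΩF⟩ := hF.exists_measurable_mem
  refine ⟨Ω, hΩm, mem_ae_iff.1 hΩ, fun x hx t htx htc => ?_⟩
  rw [map_eq_iff_test]
  intro θ hθ
  have hθ' : HasCompactSupport (θ.comp ⟨fun x : X => t • x, continuous_const_smul t⟩) :=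
    hθ.comp_homeomorph (Homeomorph.smul t)
  have h1 := hΩF x hx _ hθ'
  have h2 := hΩF (t • x) htx θ hθ
  have h3 : ∀ l : List (V r), lavg a l θ (t • x) =
      lavg a l (θ.comp ⟨fun x : X => t • x, continuous_const_smul t⟩) x := by
    intro l
    have h4 : (fun m : V r => θ (a m • t • x)) = fun m : V r =>
        (θ.comp ⟨fun x : X => t • x, continuous_const_smul t⟩) (a m • x) := by
      funext m
      change θ (a m • t • x) = θ (t • a m • x)
      rw [smul_smul, smul_smul, htc m]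
    unfold lavg
    rw [h4]
  simp only [h3] at h2
  exact tendsto_nhds_unique h1 h2

theorem homog_of_sampled (hq : Function.Injective q) (κ : G →* SLS n₀ n q)
    (hκ : IsClosedEmbedding κ) (hopen : ∀ x : X, IsOpenMap fun g : G => g • x) {r : ℕ}
    (a : V r → G) (ha : ∀ m m', a (m + m') = a m * a m') (A : Subgroup G)
    (hA : ∀ g, g ∈ A ↔ ∃ m, a m = g) (hcls : ClsS κ (MonoidHom.id G) A) (μ : Measure X)
    [IsProbabilityMeasure μ] (hμ : ∀ g ∈ A, μ.map (fun z => g • z) = μ)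
    (herg : ∀ s : Set X, MeasurableSet s → (∀ g ∈ A, (fun z => g • z) ⁻¹' s =ᵐ[μ] s) →
      μ s = 0 ∨ μ sᶜ = 0)
    (hconv : ∀ w : V r →+ ℝ, w ≠ 0 → (∃ c, ∀ m, w m = gwt κ (a m) c) → Sampled a μ w) :
    Homog G μ := by
  classical
  have hT2 : T2Space G := hκ.isEmbedding.t2Space
  have hsc : SecondCountableTopology G := by
    have := sls_second (n₀ := n₀) (n := n) (q := q)
    exact hκ.isEmbedding.secondCountableTopology
  have hlc : LocallyCompactSpace G := by
    have := sls_loc (n₀ := n₀) (n := n) (q := q)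
    exact hκ.locallyCompactSpace
  have hmA : ∀ m, a m ∈ A := fun m => (hA _).2 ⟨m, rfl⟩
  have hμm : ∀ m, μ.map (fun x => a m • x) = μ := fun m => hμ _ (hmA m)
  have hergm : ∀ t : Set X, MeasurableSet t → (∀ m, (fun z => a m • z) ⁻¹' t =ᵐ[μ] t) →
      μ t = 0 ∨ μ tᶜ = 0 := by
    intro t ht hinv
    refine herg t ht fun g hg => ?_
    obtain ⟨m, rfl⟩ := (hA g).1 hg
    exact hinv m
  -- the representation and the stabilizer
  obtain ⟨ρ, hρd⟩ : ∃ ρ : G →* GP n₀ n q, ρ = (toGP n₀ n q).comp κ := ⟨_, rfl⟩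
  have hρ : IsClosedEmbedding ρ := by
    rw [hρd]
    exact (isClosedEmbedding_toGP n₀ n q).comp hκ
  have hdiag : ∀ m, ∀ i j l, j ≠ l → (ρ (a m) i).1 j l = 0 := by
    intro m
    rw [hρd]
    exact toGP_diag (hcls.diag (a m) (hmA m))
  have hScl : IsClosed (((stb (G := G) μ).map ρ : Subgroup (GP n₀ n q)) :
      Set (GP n₀ n q)) := by
    rw [Subgroup.coe_map]
    exact hρ.isClosedMap _ (stb_closed μ)
  obtain ⟨J, P, c₀, hC⟩ := exists_chart hq _ hScl
  have hset : (((stb (G := G) μ).map ρ : Subgroup (GP n₀ n q)) : Set (GP n₀ n q)) =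
      {z : GP n₀ n q | ∃ g : G, Fix μ g ∧ ρ g = z} := by
    ext z
    rw [SetLike.mem_coe, Subgroup.mem_map]
    rfl
  have hC' : Chart {z : GP n₀ n q | ∃ g : G, Fix μ g ∧ ρ g = z} J P c₀ := by
    rw [← hset]
    exact hC
  obtain ⟨εG, hεG, hcorr⟩ := corrected_pair hρ (fun i => niProp_fld i) hC'
  -- gauge, facets, samples, good set
  obtain ⟨w, hw, H⟩ := exists_mgauge κ hκ a ha A hA hcls
  obtain ⟨M, hM, hfac⟩ := facet H
  obtain ⟨F, hF, E, hEm, hEμ, hUG⟩ := sgood_large a μ hμm w M hM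
    (fun c hc => hconv (w c) hc ⟨c, hw c⟩) hεG
  obtain ⟨Ω, hΩm, hΩ0, hΩ⟩ := exists_gen_set a ha μ hμm hergm
  have hG0 : μ.real (E ∩ Ω)ᶜ ≤ εG := by
    rw [Set.compl_inter]
    refine (measureReal_union_le _ _).trans ?_
    have : μ.real Ωᶜ = 0 := by
      rw [measureReal_def, hΩ0, ENNReal.toReal_zero]
    rw [this, add_zero]
    exact hEμ
  obtain ⟨G', hG', hpair⟩ := hcorr (E ∩ Ω) (hEm.inter hΩm) hG0
  by_cases hp : ∃ V₀ ∈ 𝓝 (1 : G), ∀ x ∈ G', ∀ h ∈ V₀, h • x ∈ G' → h ∈ stb (G := G) μ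
  · obtain ⟨V₀, hV, hno⟩ := hp
    obtain ⟨x, hx⟩ := orbit_of_no_pairs hopen a μ hergm (stb (G := G) μ) (stb_closed μ)
      (fun m => hμm m) G' (pos_iff_ne_zero.2 hG') V₀ hV hno
    exact ⟨x, hx⟩
  · exfalso
    push Not at hp
    have hch : ∀ j : ℕ, ∃ (x : X) (t : G), x ∈ E ∩ Ω ∧ t • x ∈ E ∩ Ω ∧ OnT J (ρ t) ∧
        Near (ρ t) (1 / ((j : ℝ) + 1)) ∧ t ∉ stb (G := G) μ := by
      intro j
      obtain ⟨δ, hδ, hjd⟩ := hpair (1 / ((j : ℝ) + 1)) (by positivity)
      obtain ⟨x, hx, h, hh, hhx, hhS⟩ := hp _ ((hasBasis_nearG hρ).mem_of_mem hδ)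
      obtain ⟨x₁, hx₁, v, u, hv, hu, h1, h2, h3⟩ := hjd x hx h hh hhx
      refine ⟨x₁, v * h * u⁻¹, hx₁, h1, h2, h3, fun hmem => hhS ?_⟩
      have hv' : v ∈ stb (G := G) μ := hv
      have hu' : u ∈ stb (G := G) μ := hu
      have h4 : h = v⁻¹ * (v * h * u⁻¹) * u := by group
      rw [h4]
      exact mul_mem (mul_mem (inv_mem hv') hmem) hu'
    choose x t hx htx hT hN hS using hch
    have ht1 : Tendsto t atTop (𝓝 1) := by
      rw [(hasBasis_nearG hρ).tendsto_right_iff]
      intro ε hε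
      obtain ⟨j₀, hj₀⟩ := exists_nat_one_div_lt hε
      filter_upwards [eventually_ge_atTop j₀] with j hj
      refine EM.near_mono (hN j) (le_trans ?_ hj₀.le)
      exact Nat.one_div_le_one_div hj
    have hne : ∀ j, ∃ c, w c ≠ 0 ∧ scoord κ c (t j) ≠ 0 := by
      intro j
      by_contra hcon
      push Not at hcon
      exact hS j (hΩ (x j) (hx j).2 (t j) (htx j).2 (H.cen (t j) hcon))
    obtain ⟨β, U, k, u, hβ, hUle, hk, hu, hub, huz, hsmall⟩ := hfac t ht1 hne
    have hinv := sdyn a μ H M F hF E hUG β hβ U k hk x t u (fun j => (hx j).1)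
      (fun j => (htx j).1) hu hsmall
    have huS : u ∈ stb (G := G) μ := hinv
    -- `u` is in the transversal
    have huT : OnT J (ρ u) := by
      have hcl : IsClosed {g : G | OnT J (ρ g)} := (isClosed_onT J).preimage hρ.continuous
      refine hcl.mem_of_tendsto hu (Eventually.of_forall fun j => ?_)
      show OnT J (ρ (a (ctr (w β) (k j)) * t j * (a (ctr (w β) (k j)))⁻¹))
      rw [map_mul, map_mul, map_inv]
      exact onT_conj_diag (hdiag _) (hT j)
    have hcont := ctr_contract ha H β hβ u huz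
    obtain ⟨k', hk'⟩ := (hcont.eventually ((hasBasis_nearG hρ).mem_of_mem hC.c₀_pos)).exists
    obtain ⟨b, hbd⟩ : ∃ b : G, b = a (-(ctr (w β) k')) := ⟨_, rfl⟩
    rw [← hbd] at hk'
    have hbS : b ∈ stb (G := G) μ := by
      rw [hbd]
      exact hμm _
    have h1 : ρ (b * u * b⁻¹) = 1 := by
      refine hC.isol _ ?_ hk' ?_
      · rw [SetLike.mem_coe, Subgroup.mem_map]
        exact ⟨b * u * b⁻¹, mul_mem (mul_mem hbS huS) (inv_mem hbS), rfl⟩
      · rw [map_mul, map_mul, map_inv, hbd]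
        exact onT_conj_diag (hdiag _) huT
    have h2 : b * u * b⁻¹ = 1 := hρ.injective (by rw [h1, map_one])
    have h3 : u = 1 := by
      have h4 : u = b⁻¹ * (b * u * b⁻¹) * b := by group
      rw [h4, h2]
      group
    exact hub ((H.eq_one u).2 h3 β)

/-- Polynomially or exponentially mixing measures are homogeneous. -/
theorem homog_of_mix (hq : Function.Injective q) (κ : G →* SLS n₀ n q)
    (hκ : IsClosedEmbedding κ) (hopen : ∀ x : X, IsOpenMap fun g : G => g • x) {r : ℕ}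
    (a : V r → G) (ha : ∀ m m', a (m + m') = a m * a m') (A : Subgroup G)
    (hA : ∀ g, g ∈ A ↔ ∃ m, a m = g) (hcls : ClsS κ (MonoidHom.id G) A) (μ : Measure X)
    [IsProbabilityMeasure μ] (hμ : ∀ g ∈ A, μ.map (fun z => g • z) = μ)
    (hmix : (3 ≤ r ∧ PolyMix a μ 2) ∨ (2 ≤ r ∧ PolyMix a μ 4) ∨ (2 ≤ r ∧ PoolMX.ExpMix a μ)) :
    Homog G μ := by
  have hmA : ∀ m, a m ∈ A := fun m => (hA _).2 ⟨m, rfl⟩
  have hμm : ∀ m, μ.map (fun x => a m • x) = μ := fun m => hμ _ (hmA m)
  have hr : 1 ≤ r := by rcases hmix with h | h | h <;> omega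
  have hsamp : ∀ w : V r →+ ℝ, w ≠ 0 → Sampled a μ w := by
    intro w hw
    have hcc : ((3 ≤ r ∧ PolyMix a μ 2) ∨ (2 ≤ r ∧ PolyMix a μ 4)) → Sampled a μ w := by
      intro h
      refine sampled_of_cconv a μ w fun θ hθ ε hε => ?_
      obtain ⟨f, h1, h2, h3⟩ := cconv_of_mix a μ hμm h θ hθ ε hε
      exact ⟨f, h1, h2, h3 w hw⟩
    rcases hmix with h | h | h
    · exact hcc (Or.inl h)
    · exact hcc (Or.inr h)
    · exact sampled_of_exp h.1 a ha μ hμm h.2 w hw
  -- a nonzero functional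
  set w₀ : V r →+ ℝ :=
    { toFun := fun m => ((m ⟨0, hr⟩ : ℤ) : ℝ)
      map_zero' := by simp
      map_add' := fun m m' => by simp } with hw₀
  have hw₀ne : w₀ ≠ 0 := by
    intro h
    have h1 := DFunLike.congr_fun h (Pi.single ⟨0, hr⟩ 1)
    have h2 : w₀ (Pi.single ⟨0, hr⟩ 1) = 1 := by
      show (((Pi.single ⟨0, hr⟩ 1 : V r) ⟨0, hr⟩ : ℤ) : ℝ) = 1
      rw [Pi.single_eq_same]; norm_num
    rw [h2] at h1
    exact one_ne_zero h1
  have herg : ∀ s : Set X, MeasurableSet s → (∀ g ∈ A, (fun z => g • z) ⁻¹' s =ᵐ[μ] s) →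
      μ s = 0 ∨ μ sᶜ = 0 := by
    intro s hs hinv
    exact serg a μ hμm w₀ (hsamp w₀ hw₀ne) s hs (fun m => hinv _ (hmA m))
  exact homog_of_sampled hq κ hκ hopen a ha A hA hcls μ hμ herg (fun w hw _ => hsamp w hw)

end main

end Pool.Agent.Work.MP_67388f_an.HM
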