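import Pool.Agent.Work.MP_67388f_an.EM.Lem
import Pool.Agent.Work.MP_67388f_an.EM.CoDefs

/-!
# Exponentially mixing measures are homogeneous: definitions (project HM)

`G` is a topological group with a closed embedding `ρ` into `GG n K = ∏ SL(n i, K i)`, acting on `X`;
`a : ℤ × ℤ → G` is additive with diagonal values. `Near`, `Rt`, `Par`, `NearId`, `NIProp` are those of
project EM. `Rt n` is the type of index triples `ψ = ⟨i, (j, l)⟩` (`j = l` allowed).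
-/

set_option autoImplicit false

namespace Pool.Agent.Work.MP_67388f_an.HM

open MeasureTheory Filter Topology Matrix
open Pool.Agent.Work.MP_67388f_an.EM (GG Near Rt Par NearId NIProp)

/-- The size of a time. -/
def sz (k : ℤ × ℤ) : ℝ := |(k.1 : ℝ)| + |(k.2 : ℝ)|

section group

variable {I : Type} {n : I → ℕ} {K : I → Type} [∀ i, NontriviallyNormedField (K i)]

/-- The entry of `g` at `ψ`. -/
def ent (g : GG n K) (ψ : Rt n) : K ψ.1 := (g ψ.1).1 ψ.2.1 ψ.2.2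

/-- The entry of the identity at `ψ`. -/
def ent1 (K : I → Type) [∀ i, NontriviallyNormedField (K i)] (ψ : Rt n) : K ψ.1 :=
  (1 : Matrix (Fin (n ψ.1)) (Fin (n ψ.1)) (K ψ.1)) ψ.2.1 ψ.2.2

/-- The factor by which conjugation with the diagonal element `g` multiplies the entry `ψ`. -/
noncomputable def chi (g : GG n K) (ψ : Rt n) : K ψ.1 :=
  (g ψ.1).1 ψ.2.1 ψ.2.1 * ((g ψ.1).1 ψ.2.2 ψ.2.2)⁻¹

/-- `a` is additive with diagonal values. -/
structure Tor (a : ℤ × ℤ → GG n K) : Prop where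
  add : ∀ k l, a (k + l) = a k * a l
  diag : ∀ k i j l, j ≠ l → (a k i).1 j l = 0

/-- The logarithmic size of the factor. -/
noncomputable def lam (a : ℤ × ℤ → GG n K) (ψ : Rt n) (k : ℤ × ℤ) : ℝ := Real.log ‖chi (a k) ψ‖

/-- Some entry of `g` differs from that of `1` by at least `c`. -/
def Far (g : GG n K) (c : ℝ) : Prop := ∃ ψ : Rt n, c ≤ ‖ent g ψ - ent1 K ψ‖

/-- `g - 1` has nonzero entries at the positions in `J` only. -/
def OnT (J : ∀ i, Finset (Fin (n i) × Fin (n i))) (g : GG n K) : Prop :=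
  ∀ i j l, (j, l) ∉ J i → (g i).1 j l = (1 : Matrix (Fin (n i)) (Fin (n i)) (K i)) j l

/-- `g` has no entries at the positions with nontrivial `lam`. -/
def WZero (a : ℤ × ℤ → GG n K) (g : GG n K) : Prop :=
  ∀ ψ : Rt n, (∃ k, lam a ψ k ≠ 0) → ent g ψ = 0

/-- A parametrized piece of the closed set `S` with complementary coordinates `J`, and
`S ∩ (1 + C) = {1}` near `1`, where `C` is spanned by the coordinates in `J`. -/
structure Chart (S : Set (GG n K)) (J : ∀ i, Finset (Fin (n i) × Fin (n i)))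
    (P : ∀ i, (Fin (n i) × Fin (n i) → K i) → SpecialLinearGroup (Fin (n i)) (K i)) (c₀ : ℝ) :
    Prop where
  cont : ∀ i, Continuous (P i)
  one : ∀ i, P i 0 = 1
  mem : ∀ c : Par n K, (fun i => P i (c i)) ∈ S
  deriv : ∀ i, ∃ L : (Fin (n i) × Fin (n i) → K i) →L[K i] (Fin (n i) × Fin (n i) → K i),
    HasStrictFDerivAt (fun (c : Fin (n i) × Fin (n i) → K i) (ψ : Fin (n i) × Fin (n i)) =>
      (P i c).1 ψ.1 ψ.2) L 0 ∧ ∀ c ψ, ψ ∉ J i → L c ψ = c ψ
  c₀_pos : 0 < c₀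
  isol : ∀ g ∈ S, Near g c₀ → OnT J g → g = 1

end group

/-- Multiplicative functions on `ℤ × ℤ` with values in `K` are close to one at the points of a
sublattice at which the absolute value is close to one. -/
def HNProp (K : Type) [NontriviallyNormedField K] : Prop :=
  ∀ χ : ℤ × ℤ → K, (∀ k l, χ (k + l) = χ k * χ l) → χ 0 = 1 → ∀ ε : ℝ, 0 < ε →
    ∃ N : ℕ, 1 ≤ N ∧ ∃ ε' > 0, ∀ w : ℤ × ℤ, |Real.log ‖χ (N • w)‖| ≤ ε' → ‖χ (N • w) - 1‖ ≤ ε

section action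

variable {I : Type} {n : I → ℕ} {K : I → Type} [∀ i, NontriviallyNormedField (K i)]
  {G : Type} [Group G] {X : Type} [MulAction G X]

/-- `f` is continuous with compact support, bounded by `M` and Lipschitz with constant `M` along
the orbits of `G`. -/
def Test (ρ : G →* GG n K) [TopologicalSpace X] (M : ℝ) (f : X → ℝ) : Prop :=
  Continuous f ∧ HasCompactSupport f ∧ (∀ x, |f x| ≤ M) ∧
    ∀ (g : G) (ε : ℝ) (x : X), 0 ≤ ε → Near (ρ g) ε → |f (g • x) - f x| ≤ M * ε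

variable [MeasurableSpace X]

/-- The correlation of `f ∘ a_k` and `f'`. -/
noncomputable def corr (a : ℤ × ℤ → G) (μ : Measure X) (f f' : X → ℝ) (k : ℤ × ℤ) : ℝ :=
  ∫ x, f (a k • x) * f' x ∂μ - (∫ x, f x ∂μ) * ∫ x, f' x ∂μ

/-- Exponential mixing. -/
def ExpMix (ρ : G →* GG n K) [TopologicalSpace X] (a : ℤ × ℤ → G) (μ : Measure X) : Prop :=
  ∃ C κ : ℝ, 0 < κ ∧ ∀ (M M' : ℝ) (f f' : X → ℝ), Test ρ M f → Test ρ M' f' →
    ∀ k : ℤ × ℤ, |corr a μ f f' k| ≤ C * M * M' * Real.exp (-κ * sz k)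

/-- `g` preserves `μ`. -/
def Fix (μ : Measure X) (g : G) : Prop := μ.map (fun x : X => g • x) = μ

/-- The average of `f ∘ a_k` over `k ∈ D`. -/
noncomputable def avg (a : ℤ × ℤ → G) (D : Finset (ℤ × ℤ)) (f : X → ℝ) (x : X) : ℝ :=
  (∑ k ∈ D, f (a k • x)) / (D.card : ℝ)

/-- Sampling sets. -/
structure Sampler (ρ : G →* GG n K) [TopologicalSpace X] (a : ℤ × ℤ → G) (μ : Measure X)
    (η C₁ ε : ℝ) (N : ℕ) (S : ℕ → Finset (Finset (ℤ × ℤ))) (s₁ : ℕ) : Prop where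
  nonempty : ∀ s, ∀ D ∈ S s, D.Nonempty
  zero : ∀ s, s₁ ≤ s → ∃ D ∈ S s, ∀ k ∈ D, ∃ v, k = N • v
  near : ∀ s, s₁ ≤ s → ∀ b : ℤ × ℤ, sz b ≤ C₁ * 2 ^ s → ∀ ψ : Rt n, ∃ D ∈ S s, ∀ k ∈ D,
    (∃ v, k - b = N • v) ∧ |lam (fun k => ρ (a k)) ψ (k - b)| ≤ ε ∧ sz (k - b) ≤ η * 2 ^ s
  summ : ∀ (M : ℝ) (f : X → ℝ), Test ρ M f → ∀ δ : ℝ, 0 < δ →
    Summable fun s => ∑ D ∈ S s, μ.real {x | δ ≤ |avg a D f x - ∫ y, f y ∂μ|}

/-- `μ` is supported on one orbit of its stabilizer. -/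
def Homog (G : Type) [Group G] [MulAction G X] (μ : Measure X) : Prop :=
  ∃ x : X, μ {y | ∃ g : G, Fix μ g ∧ y = g • x}ᶜ = 0

end action

end Pool.Agent.Work.MP_67388f_an.HM
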