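import Pool.Agent.Work.MP_67388f_an.HM.Base

/-!
# CH (size M-L): a chart at one place from velocities

`Vel T` is the set of velocities at `0` of strictly differentiable continuous curves `K → T`.

## Proof of `chart_place`
`E = Fin m × Fin m → K`. Let `V` be the `K`-span of `Vel T`. There are `w_1, ..., w_d ∈ Vel T` forming a basis
of `V` (`exists_linearIndependent`, or `Submodule` span of a set in a finite-dimensional space), with curves
`e_1, ..., e_d`. Complementary coordinates: there is a set `J` of coordinates such that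
`E = V ⊕ span {single ψ 1 : ψ ∈ J}`: choose `J` maximal such that `V` and `span {single ψ 1 : ψ ∈ J}` are
disjoint; then the sum is everything, because if some `single ψ 1` were not in the sum one could add `ψ` to
`J`. So the map `π : V → (Jᶜ → K)`, restriction to the coordinates outside `J`, is bijective: injective since
its kernel is `V ∩ span J`, surjective since modulo `span J` every vector is in `V`. Let
`σ : (Jᶜ → K) → V` be its inverse and write `σ (e_ψ) = ∑_k A k ψ • w_k`, `ψ ∉ J`. Put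
`P c = ∏_k e_k (∑_{ψ ∉ J} A k ψ * c ψ)` (ordered product over `List.finRange d`). It is continuous, `P 0 = 1`,
`P c ∈ T`. The strict derivative at `0` of `c ↦ (P c).1` (entries; product rule for finitely many factors with
value `1` at `0`; e.g. induction over the list, with the matrices as normed algebra
`Matrix.linftyOpNormedRing`, and `HasStrictFDerivAt.mul'`) is
`L c = ∑_k (∑_{ψ ∉ J} A k ψ * c ψ) • w_k = σ (c restricted to Jᶜ)`, so `L c ψ = c ψ` for `ψ ∉ J`.
Bound: `σ` is linear between finite-dimensional spaces, hence bounded by some `A ≥ 0` for the sup norms: for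
`w ∈ V`, `w = σ (π w)`, so `‖w‖ ≤ A * B` if all coordinates of `w` outside `J` are at most `B` (if `Jᶜ` is
empty then `V = 0`, `w = 0`; `B ≥ 0` is assumed).
-/

set_option autoImplicit false

namespace Pool.Agent.Work.MP_67388f_an.HM

open Filter Topology Matrix

/-- Velocities of curves in `T`. -/
def Vel {K : Type} [NontriviallyNormedField K] {m : ℕ}
    (T : Set (SpecialLinearGroup (Fin m) K)) : Set (Fin m × Fin m → K) :=
  {w | ∃ e : K → SpecialLinearGroup (Fin m) K, Continuous e ∧ e 0 = 1 ∧ (∀ t, e t ∈ T) ∧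
    HasStrictDerivAt (fun (t : K) (ψ : Fin m × Fin m) => (e t).1 ψ.1 ψ.2) w 0}

private theorem ch_mul {K : Type} [NontriviallyNormedField K] {m : ℕ} {X : Type}
    [NormedAddCommGroup X] [NormedSpace K X] {F G : X → SpecialLinearGroup (Fin m) K}
    {F' G' : X →L[K] (Fin m × Fin m → K)} {x : X} (hF1 : F x = 1) (hG1 : G x = 1)
    (hF : HasStrictFDerivAt (fun (c : X) (ψ : Fin m × Fin m) => (F c).1 ψ.1 ψ.2) F' x)
    (hG : HasStrictFDerivAt (fun (c : X) (ψ : Fin m × Fin m) => (G c).1 ψ.1 ψ.2) G' x) :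
    HasStrictFDerivAt (fun (c : X) (ψ : Fin m × Fin m) => (F c * G c).1 ψ.1 ψ.2) (F' + G') x := by
  rw [hasStrictFDerivAt_pi'] at hF hG ⊢
  intro ψ
  have h1 : ∀ k ∈ (Finset.univ : Finset (Fin m)),
      HasStrictFDerivAt (fun c => (F c).1 ψ.1 k * (G c).1 k ψ.2)
        ((F x).1 ψ.1 k • ((ContinuousLinearMap.proj (k, ψ.2)).comp G') +
          (G x).1 k ψ.2 • ((ContinuousLinearMap.proj (ψ.1, k)).comp F')) x :=
    fun k _ => (hF (ψ.1, k)).mul (hG (k, ψ.2))
  have h2 := HasStrictFDerivAt.fun_sum h1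
  have h3 : (fun c : X => (F c * G c).1 ψ.1 ψ.2) =
      fun c => ∑ k ∈ (Finset.univ : Finset (Fin m)), (F c).1 ψ.1 k * (G c).1 k ψ.2 := by
    funext c
    exact Matrix.mul_apply
  rw [h3]
  refine h2.congr_fderiv ?_
  ext c
  rw [hF1, hG1]
  have h4 : ∀ k, ((1 : SpecialLinearGroup (Fin m) K).1 ψ.1 k •
      ((ContinuousLinearMap.proj (R := K) (φ := fun _ : Fin m × Fin m => K) (k, ψ.2)).comp G') +
      (1 : SpecialLinearGroup (Fin m) K).1 k ψ.2 •
      ((ContinuousLinearMap.proj (R := K) (φ := fun _ : Fin m × Fin m => K) (ψ.1, k)).comp F')) c =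
      (if ψ.1 = k then G' c (k, ψ.2) else 0) + (if k = ψ.2 then F' c (ψ.1, k) else 0) := by
    intro k
    show (1 : Matrix (Fin m) (Fin m) K) ψ.1 k * G' c (k, ψ.2) +
      (1 : Matrix (Fin m) (Fin m) K) k ψ.2 * F' c (ψ.1, k) = _
    rw [Matrix.one_apply, Matrix.one_apply, ite_mul, ite_mul, one_mul, zero_mul, one_mul, zero_mul]
  rw [ContinuousLinearMap.sum_apply, Finset.sum_congr rfl (fun k _ => h4 k),
    Finset.sum_add_distrib, Finset.sum_ite_eq, Finset.sum_ite_eq', if_pos (Finset.mem_univ _),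
    if_pos (Finset.mem_univ _)]
  show G' c ψ + F' c ψ = F' c ψ + G' c ψ
  rw [add_comm]

private theorem ch_one {K : Type} [NontriviallyNormedField K] {m : ℕ} {X : Type}
    [NormedAddCommGroup X] [NormedSpace K X] (x : X) :
    HasStrictFDerivAt (fun (_ : X) (ψ : Fin m × Fin m) =>
      (1 : SpecialLinearGroup (Fin m) K).1 ψ.1 ψ.2) (0 : X →L[K] (Fin m × Fin m → K)) x :=
  hasStrictFDerivAt_const _ _

private theorem ch_vel_zero {K : Type} [NontriviallyNormedField K] {m : ℕ}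
    (T : Subgroup (SpecialLinearGroup (Fin m) K)) :
    (0 : Fin m × Fin m → K) ∈ Vel (T : Set (SpecialLinearGroup (Fin m) K)) := by
  refine ⟨fun _ => 1, continuous_const, rfl, fun _ => T.one_mem, ?_⟩
  exact hasStrictDerivAt_const _ _

private theorem ch_vel_add {K : Type} [NontriviallyNormedField K] {m : ℕ}
    (T : Subgroup (SpecialLinearGroup (Fin m) K)) {w w' : Fin m × Fin m → K}
    (hw : w ∈ Vel (T : Set (SpecialLinearGroup (Fin m) K)))
    (hw' : w' ∈ Vel (T : Set (SpecialLinearGroup (Fin m) K))) :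
    w + w' ∈ Vel (T : Set (SpecialLinearGroup (Fin m) K)) := by
  obtain ⟨e, he, he0, heT, hed⟩ := hw
  obtain ⟨e', he', he0', heT', hed'⟩ := hw'
  refine ⟨fun t => e t * e' t, he.mul he', by show e 0 * e' 0 = 1; rw [he0, he0', mul_one],
    fun t => T.mul_mem (heT t) (heT' t), ?_⟩
  have h := ch_mul he0 he0' hed.hasStrictFDerivAt hed'.hasStrictFDerivAt
  refine hasStrictDerivAt_iff_hasStrictFDerivAt.2 (h.congr_fderiv ?_)
  ext c
  simp

private theorem ch_vel_smul {K : Type} [NontriviallyNormedField K] {m : ℕ}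
    (T : Subgroup (SpecialLinearGroup (Fin m) K)) (a : K) {w : Fin m × Fin m → K}
    (hw : w ∈ Vel (T : Set (SpecialLinearGroup (Fin m) K))) :
    a • w ∈ Vel (T : Set (SpecialLinearGroup (Fin m) K)) := by
  obtain ⟨e, he, he0, heT, hed⟩ := hw
  refine ⟨fun t => e (a * t), he.comp (continuous_const.mul continuous_id),
    by show e (a * 0) = 1; rw [mul_zero, he0], fun t => heT _, ?_⟩
  have h1 : HasStrictFDerivAt (fun t : K => a * t) (a • ContinuousLinearMap.id K K) (0 : K) :=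
    (hasStrictFDerivAt_id (0 : K)).const_mul a
  have h2 : HasStrictFDerivAt (fun (t : K) (ψ : Fin m × Fin m) => (e t).1 ψ.1 ψ.2)
      (ContinuousLinearMap.toSpanSingleton K w) (a * 0) := by
    rw [mul_zero]
    exact hed.hasStrictFDerivAt
  have h := h2.comp (0 : K) h1
  refine hasStrictDerivAt_iff_hasStrictFDerivAt.2 (h.congr_fderiv ?_)
  ext c
  simp [mul_comm]

private theorem ch_span {K : Type} [NontriviallyNormedField K] {m : ℕ}
    (T : Subgroup (SpecialLinearGroup (Fin m) K)) {w : Fin m × Fin m → K}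
    (hw : w ∈ Submodule.span K (Vel (T : Set (SpecialLinearGroup (Fin m) K)))) :
    w ∈ Vel (T : Set (SpecialLinearGroup (Fin m) K)) := by
  induction hw using Submodule.span_induction with
  | mem x h => exact h
  | zero => exact ch_vel_zero T
  | add x y _ _ hx hy => exact ch_vel_add T hx hy
  | smul a x _ hx => exact ch_vel_smul T a hx

/-- coordinates complementary to a subspace -/
private theorem ch_coord {K : Type} [Field K] {Ψ : Type} [Fintype Ψ] [DecidableEq Ψ]
    (V : Submodule K (Ψ → K)) :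
    ∃ (J : Finset Ψ) (v : Ψ → (Ψ → K)), (∀ ψ, ψ ∉ J → v ψ ∈ V) ∧
      (∀ ψ, ψ ∉ J → ∀ φ, φ ∉ J → v ψ φ = if ψ = φ then 1 else 0) ∧
      ∀ w ∈ V, w = ∑ ψ ∈ Jᶜ, w ψ • v ψ := by
  classical
  obtain ⟨J, hJ, hmax⟩ := Finset.exists_max_image
    (Finset.univ.filter fun J : Finset Ψ => ∀ v ∈ V, (∀ ψ, ψ ∉ J → v ψ = 0) → v = 0)
    Finset.card ⟨∅, by
      rw [Finset.mem_filter]
      refine ⟨Finset.mem_univ _, fun v _ hv => funext fun ψ => hv ψ (Finset.notMem_empty ψ)⟩⟩
  rw [Finset.mem_filter] at hJ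
  have hinj := hJ.2
  have hex : ∀ ψ, ∃ v : Ψ → K, ψ ∉ J → v ∈ V ∧ ∀ φ, φ ∉ J → v φ = if ψ = φ then 1 else 0 := by
    intro ψ
    by_cases hψ : ψ ∈ J
    · exact ⟨0, fun h => absurd hψ h⟩
    · have h1 : ¬ ∀ v ∈ V, (∀ φ, φ ∉ insert ψ J → v φ = 0) → v = 0 := by
        intro h
        have := hmax (insert ψ J) (Finset.mem_filter.2 ⟨Finset.mem_univ _, h⟩)
        rw [Finset.card_insert_of_notMem hψ] at this
        omega
      push Not at h1
      obtain ⟨v, hv, hv0, hvne⟩ := h1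
      have hvψ : v ψ ≠ 0 := by
        intro h
        apply hvne
        apply hinj v hv
        intro φ hφ
        by_cases hφψ : φ = ψ
        · rw [hφψ, h]
        · exact hv0 φ fun h => (Finset.mem_insert.1 h).elim hφψ hφ
      refine ⟨(v ψ)⁻¹ • v, fun _ => ⟨V.smul_mem _ hv, fun φ hφ => ?_⟩⟩
      rw [Pi.smul_apply, smul_eq_mul]
      by_cases hφψ : ψ = φ
      · rw [if_pos hφψ, ← hφψ, inv_mul_cancel₀ hvψ]
      · rw [if_neg hφψ, hv0 φ fun h => (Finset.mem_insert.1 h).elim (fun h => hφψ h.symm) hφ,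
          mul_zero]
  choose v hv using hex
  refine ⟨J, v, fun ψ hψ => (hv ψ hψ).1, fun ψ hψ => (hv ψ hψ).2, fun w hw => ?_⟩
  have h1 : w - ∑ ψ ∈ Jᶜ, w ψ • v ψ = 0 := by
    apply hinj
    · apply V.sub_mem hw
      apply V.sum_mem
      intro ψ hψ
      exact V.smul_mem _ (hv ψ (Finset.mem_compl.1 hψ)).1
    · intro φ hφ
      rw [Pi.sub_apply, Finset.sum_apply]
      have h2 : ∀ ψ ∈ Jᶜ, (w ψ • v ψ) φ = if ψ = φ then w ψ else 0 := by
        intro ψ hψ
        rw [Pi.smul_apply, smul_eq_mul, (hv ψ (Finset.mem_compl.1 hψ)).2 φ hφ, mul_ite, mul_one,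
          mul_zero]
      rw [Finset.sum_congr rfl h2, Finset.sum_ite_eq', if_pos (Finset.mem_compl.2 hφ), sub_self]
  exact sub_eq_zero.1 h1

private theorem ch_list {K : Type} [NontriviallyNormedField K] {m : ℕ}
    (T : Subgroup (SpecialLinearGroup (Fin m) K))
    (e : Fin m × Fin m → K → SpecialLinearGroup (Fin m) K)
    (v : Fin m × Fin m → (Fin m × Fin m → K)) (l : List (Fin m × Fin m))
    (he : ∀ ψ ∈ l, Continuous (e ψ) ∧ e ψ 0 = 1 ∧ (∀ t, e ψ t ∈ T) ∧
      HasStrictDerivAt (fun (t : K) (φ : Fin m × Fin m) => (e ψ t).1 φ.1 φ.2) (v ψ) 0) :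
    ∃ (P : (Fin m × Fin m → K) → SpecialLinearGroup (Fin m) K)
      (L : (Fin m × Fin m → K) →L[K] (Fin m × Fin m → K)),
      Continuous P ∧ P 0 = 1 ∧ (∀ c, P c ∈ T) ∧
      HasStrictFDerivAt (fun (c : Fin m × Fin m → K) (φ : Fin m × Fin m) =>
          (P c).1 φ.1 φ.2) L 0 ∧ ∀ c, L c = (l.map fun ψ => c ψ • v ψ).sum := by
  induction l with
  | nil =>
    refine ⟨fun _ => 1, 0, continuous_const, rfl, fun _ => T.one_mem, ch_one _, fun c => ?_⟩
    simp
  | cons ψ l ih =>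
    obtain ⟨P, L, hP, hP0, hPT, hPd, hL⟩ := ih fun ψ hψ => he ψ (List.mem_cons_of_mem _ hψ)
    obtain ⟨h1, h2, h3, h4⟩ := he ψ List.mem_cons_self
    refine ⟨fun c => e ψ (c ψ) * P c,
      (ContinuousLinearMap.toSpanSingleton K (v ψ)).comp (ContinuousLinearMap.proj ψ) + L,
      (h1.comp (continuous_apply ψ)).mul hP, ?_, fun c => T.mul_mem (h3 _) (hPT c), ?_, ?_⟩
    · show e ψ ((0 : Fin m × Fin m → K) ψ) * P 0 = 1
      rw [Pi.zero_apply, h2, hP0, mul_one]
    · refine ch_mul (F := fun c : Fin m × Fin m → K => e ψ (c ψ)) (G := P) ?_ hP0 ?_ hPd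
      · show e ψ ((0 : Fin m × Fin m → K) ψ) = 1
        rw [Pi.zero_apply, h2]
      · have h5 : HasStrictFDerivAt (fun c : Fin m × Fin m → K => c ψ)
            (ContinuousLinearMap.proj (R := K) (φ := fun _ : Fin m × Fin m => K) ψ) 0 :=
          (ContinuousLinearMap.proj (R := K) (φ := fun _ : Fin m × Fin m => K)
            ψ).hasStrictFDerivAt
        exact HasStrictFDerivAt.comp (0 : Fin m × Fin m → K)
          (g := fun (t : K) (φ : Fin m × Fin m) => (e ψ t).1 φ.1 φ.2) h4.hasStrictFDerivAt h5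
    · intro c
      rw [List.map_cons, List.sum_cons, ← hL]
      rfl

theorem chart_place {K : Type} [NontriviallyNormedField K] [CompleteSpace K] {m : ℕ}
    (T : Subgroup (SpecialLinearGroup (Fin m) K)) :
    ∃ (J : Finset (Fin m × Fin m)) (P : (Fin m × Fin m → K) → SpecialLinearGroup (Fin m) K),
      Continuous P ∧ P 0 = 1 ∧ (∀ c, P c ∈ T) ∧
      (∃ L : (Fin m × Fin m → K) →L[K] (Fin m × Fin m → K),
        HasStrictFDerivAt (fun (c : Fin m × Fin m → K) (ψ : Fin m × Fin m) =>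
          (P c).1 ψ.1 ψ.2) L 0 ∧ ∀ c ψ, ψ ∉ J → L c ψ = c ψ) ∧
      ∃ A : ℝ, 0 ≤ A ∧ ∀ w ∈ Vel (T : Set (SpecialLinearGroup (Fin m) K)), ∀ B : ℝ, 0 ≤ B →
        (∀ ψ, ψ ∉ J → ‖w ψ‖ ≤ B) → ‖w‖ ≤ A * B := by
  obtain ⟨J, v, hvV, hvδ, hw⟩ := ch_coord
    (Submodule.span K (Vel (T : Set (SpecialLinearGroup (Fin m) K))))
  have hcur : ∀ ψ, ∃ e : K → SpecialLinearGroup (Fin m) K, ψ ∉ J → Continuous e ∧ e 0 = 1 ∧
      (∀ t, e t ∈ T) ∧
      HasStrictDerivAt (fun (t : K) (φ : Fin m × Fin m) => (e t).1 φ.1 φ.2) (v ψ) 0 := by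
    intro ψ
    by_cases hψ : ψ ∈ J
    · exact ⟨fun _ => 1, fun h => absurd hψ h⟩
    · obtain ⟨e, h1, h2, h3, h4⟩ := ch_span T (hvV ψ hψ)
      exact ⟨e, fun _ => ⟨h1, h2, h3, h4⟩⟩
  choose e he using hcur
  obtain ⟨P, L, hP, hP0, hPT, hPd, hL⟩ := ch_list T e v (Jᶜ).toList fun ψ hψ => by
    rw [Finset.mem_toList, Finset.mem_compl] at hψ
    exact he ψ hψ
  refine ⟨J, P, hP, hP0, hPT, ⟨L, hPd, fun c ψ hψ => ?_⟩, ∑ ψ ∈ Jᶜ, ‖v ψ‖,
    Finset.sum_nonneg fun _ _ => norm_nonneg _, fun w hwV B hB hwB => ?_⟩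
  · rw [hL, Finset.sum_map_toList, Finset.sum_apply]
    have h2 : ∀ φ ∈ Jᶜ, (c φ • v φ) ψ = if φ = ψ then c φ else 0 := by
      intro φ hφ
      rw [Pi.smul_apply, smul_eq_mul, hvδ φ (Finset.mem_compl.1 hφ) ψ hψ, mul_ite, mul_one,
        mul_zero]
    rw [Finset.sum_congr rfl h2, Finset.sum_ite_eq', if_pos (Finset.mem_compl.2 hψ)]
  · have h1 := hw w (Submodule.subset_span hwV)
    rw [h1, Finset.sum_mul]
    refine (norm_sum_le _ _).trans (Finset.sum_le_sum fun ψ hψ => ?_)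
    rw [norm_smul, mul_comm]
    exact mul_le_mul_of_nonneg_left (hwB ψ (Finset.mem_compl.1 hψ)) (norm_nonneg _)

end Pool.Agent.Work.MP_67388f_an.HM
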