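import Pool.Agent.Work.MP_67388f_an.EM.CoDefs

/-!
# CL (size M-L): the correction at one place (copy and adapt `EM/CoL.lean`)

## Proof
Let `E = Fin m × Fin m → K` (sup norm), also used for matrices. The map
`Q (y, x, g) = P y * g * adj (P x)` (`adj` = adjugate, which is the inverse on `SL`), for all matrices `g`,
is strictly differentiable at `(0, 0, 1)`: `P` is so at `0` with derivative `L` and `P 0 = 1`; the
adjugate is a polynomial map; and `P x * adj (P x) = 1` near `0` (for all `x`) shows that the derivative of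
`x ↦ adj (P x)` at `0` is `-L` (or use `Ring.inverse` instead of the adjugate and
`hasStrictFDerivAt_ringInverse` at `1`). So `Q` has the strict derivative `(dy, dx, dg) ↦ L dy - L dx + dg`. Let
`Θ (y, x, g) φ = (Q (y, x, g) - 1) φ` for `φ ∉ J` and `= y φ - x φ` for `φ ∈ J`. Since `L c φ = c φ` for
`φ ∉ J`, `Θ` has the strict derivative `dy - dx + 1_{φ ∉ J} dg` at `(0, 0, 1)`, `Θ (x, x, 1) = 0` and
`Q (x, x, 1) = 1`. The private lemma `CoL_fix` of `EM/CoL.lean` (copy it) now gives the claim: for `g` close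
to `1` there is `ψ` with `NearId θ ρ ψ`, `‖ψ x - x‖ ≤ ε`, `Θ (ψ x, x, g) = 0` (so the entries of
`P (ψ x) * g * (P x)⁻¹ - 1` outside `J` vanish) and `‖Q (ψ x, x, g) - 1‖ ≤ ε`.
-/

set_option autoImplicit false

namespace Pool.Agent.Work.MP_67388f_an.HM

open Filter Topology Matrix
open Pool.Agent.Work.MP_67388f_an.EM (NearId)

private theorem CoL_fix {K E M : Type} [NontriviallyNormedField K] [NormedAddCommGroup E]
    [NormedSpace K E] [CompleteSpace E] [NormedAddCommGroup M] [NormedSpace K M]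
    (Θ : E × E × M → E) (P : E × E × M → M) (g₀ : M) (R : M →L[K] E)
    (P' : E × E × M →L[K] M)
    (hP : HasStrictFDerivAt P P' (0, 0, g₀))
    (Λ : E × E × M →L[K] E) (hΛ : ∀ a, Λ a = a.1 - a.2.1 + R a.2.2)
    (hΘ : HasStrictFDerivAt Θ Λ (0, 0, g₀)) (hΘ0 : ∀ x, Θ (x, x, g₀) = 0)
    (hP0 : ∀ x, P (x, x, g₀) = g₀) {θ : ℝ} (hθ : 0 < θ) :
    ∃ ρ₁ > 0, ∀ ρ : ℝ, 0 < ρ → ρ ≤ ρ₁ → ∀ ε : ℝ, 0 < ε → ∃ δ > 0,
      ∀ g : M, ‖g - g₀‖ ≤ δ → ∃ ψ : E → E, NearId θ ρ ψ ∧ ∀ x, ‖x‖ ≤ ρ →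
        ‖ψ x - x‖ ≤ ε ∧ Θ (ψ x, x, g) = 0 ∧ ‖P (ψ x, x, g) - g₀‖ ≤ ε := by
  classical
  set θ' : ℝ := min θ 1 / 4 with hθ'
  have hθ'0 : 0 < θ' := by rw [hθ']; have : 0 < min θ 1 := lt_min hθ one_pos
                           linarith
  have hθ'1 : θ' ≤ 1 / 4 := by rw [hθ']; have : min θ 1 ≤ 1 := min_le_right _ _
                               linarith
  have hθ'2 : 4 * θ' ≤ θ := by rw [hθ']; have : min θ 1 ≤ θ := min_le_left _ _
                               linarith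
  obtain ⟨s, hs, hsΘ⟩ := hΘ.approximates_deriv_on_nhds (c := ⟨θ', hθ'0.le⟩) (Or.inr hθ'0)
  obtain ⟨A, s', hs', hAP⟩ := hP.exists_lipschitzOnWith
  obtain ⟨r, hr, hrs⟩ := Metric.nhds_basis_closedBall.mem_iff.1 (Filter.inter_mem hs hs')
  have hmem : ∀ y x : E, ∀ g : M, ‖y‖ ≤ r → ‖x‖ ≤ r → ‖g - g₀‖ ≤ r → (y, x, g) ∈ s ∩ s' := by
    intro y x g hy hx hg
    apply hrs
    rw [Metric.mem_closedBall, dist_eq_norm]
    show ‖(y - 0, x - 0, g - g₀)‖ ≤ r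
    rw [sub_zero, sub_zero, Prod.norm_def, Prod.norm_def]
    exact max_le hy (max_le hx hg)
  -- the two estimates
  have hest : ∀ y x y' x' : E, ∀ g g' : M, ‖y‖ ≤ r → ‖x‖ ≤ r → ‖g - g₀‖ ≤ r → ‖y'‖ ≤ r →
      ‖x'‖ ≤ r → ‖g' - g₀‖ ≤ r →
      ‖Θ (y, x, g) - Θ (y', x', g') - ((y - y') - (x - x') + R (g - g'))‖ ≤
        θ' * max ‖y - y'‖ (max ‖x - x'‖ ‖g - g'‖) := by
    intro y x y' x' g g' h1 h2 h3 h4 h5 h6
    have h7 := hsΘ _ (hmem y x g h1 h2 h3).1 _ (hmem y' x' g' h4 h5 h6).1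
    rw [hΛ] at h7
    exact h7
  have hlip : ∀ y x y' x' : E, ∀ g g' : M, ‖y‖ ≤ r → ‖x‖ ≤ r → ‖g - g₀‖ ≤ r → ‖y'‖ ≤ r →
      ‖x'‖ ≤ r → ‖g' - g₀‖ ≤ r →
      ‖P (y, x, g) - P (y', x', g')‖ ≤ A * max ‖y - y'‖ (max ‖x - x'‖ ‖g - g'‖) := by
    intro y x y' x' g g' h1 h2 h3 h4 h5 h6
    exact hAP.norm_sub_le (hmem y x g h1 h2 h3).2 (hmem y' x' g' h4 h5 h6).2
  refine ⟨r / 2, by positivity, fun ρ hρ hρr ε hε => ?_⟩
  set ε' : ℝ := min (r / 2) (min ε (ε / (A + 1))) with hε'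
  have hA0 : (0 : ℝ) ≤ A := A.2
  have hε'0 : 0 < ε' := lt_min (by positivity) (lt_min hε (by positivity))
  have hε'r : ε' ≤ r / 2 := min_le_left _ _
  have hε'ε : ε' ≤ ε := (min_le_right _ _).trans (min_le_left _ _)
  have hε'A : A * ε' ≤ ε := by
    have h1 : ε' ≤ ε / (A + 1) := (min_le_right _ _).trans (min_le_right _ _)
    rw [le_div_iff₀ (by positivity)] at h1
    nlinarith
  set δ : ℝ := min r (min ε' ((1 - θ') * ε' / (‖R‖ + 1))) with hδ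
  have hR0 : 0 ≤ ‖R‖ := norm_nonneg _
  have hδ0 : 0 < δ := lt_min hr (lt_min hε'0 (div_pos (mul_pos (by linarith) hε'0) (by positivity)))
  have hδr : δ ≤ r := min_le_left _ _
  have hδε : δ ≤ ε' := (min_le_right _ _).trans (min_le_left _ _)
  have hδR : (‖R‖ + 1) * δ ≤ (1 - θ') * ε' := by
    have h1 : δ ≤ (1 - θ') * ε' / (‖R‖ + 1) := (min_le_right _ _).trans (min_le_right _ _)
    rw [le_div_iff₀ (by positivity)] at h1
    linarith
  refine ⟨δ, hδ0, fun g hg => ?_⟩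
  have hgr : ‖g - g₀‖ ≤ r := hg.trans hδr
  have hg₀r : ‖g₀ - g₀‖ ≤ r := by rw [sub_self, norm_zero]; exact hr.le
  -- the correction of one point
  have hex : ∀ x : E, ‖x‖ ≤ ρ → ∃ y, ‖y - x‖ ≤ ε' ∧ Θ (y, x, g) = 0 := by
    intro x hx
    have hxr : ‖x‖ ≤ r := by linarith
    have happ : ApproximatesLinearOn (fun y => Θ (y, x, g)) (ContinuousLinearMap.id K E)
        (Metric.closedBall x ε') ⟨θ', hθ'0.le⟩ := by
      intro y hy y' hy'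
      rw [mem_closedBall_iff_norm] at hy hy'
      have hyr : ‖y‖ ≤ r := by
        calc ‖y‖ = ‖(y - x) + x‖ := by rw [sub_add_cancel]
          _ ≤ ‖y - x‖ + ‖x‖ := norm_add_le _ _
          _ ≤ r := by linarith
      have hyr' : ‖y'‖ ≤ r := by
        calc ‖y'‖ = ‖(y' - x) + x‖ := by rw [sub_add_cancel]
          _ ≤ ‖y' - x‖ + ‖x‖ := norm_add_le _ _
          _ ≤ r := by linarith
      have h1 := hest y x y' x g g hyr hxr hgr hyr' hxr hgr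
      rw [sub_self, sub_self, map_zero, sub_zero, add_zero, norm_zero, norm_zero, max_self,
        max_eq_left (norm_nonneg _)] at h1
      exact h1
    have hsurj := happ.surjOn_closedBall_of_nonlinearRightInverse
      (⟨id, 1, fun y => by simp, fun y => rfl⟩) hε'0.le subset_rfl
    have h0 : (0 : E) ∈ Metric.closedBall (Θ (x, x, g)) ((((1 : NNReal) : ℝ)⁻¹ - θ') * ε') := by
      rw [mem_closedBall_iff_norm, zero_sub, norm_neg, NNReal.coe_one, inv_one]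
      have h1 := hest x x x x g g₀ hxr hxr hgr hxr hxr hg₀r
      rw [hΘ0, sub_zero, sub_self (x - x), zero_add, sub_self x, norm_zero,
        max_eq_right (norm_nonneg _), max_eq_right (norm_nonneg _)] at h1
      have h2 : ‖R (g - g₀)‖ ≤ ‖R‖ * ‖g - g₀‖ := R.le_opNorm _
      calc ‖Θ (x, x, g)‖ = ‖(Θ (x, x, g) - R (g - g₀)) + R (g - g₀)‖ := by rw [sub_add_cancel]
        _ ≤ ‖Θ (x, x, g) - R (g - g₀)‖ + ‖R (g - g₀)‖ := norm_add_le _ _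
        _ ≤ θ' * ‖g - g₀‖ + ‖R‖ * ‖g - g₀‖ := add_le_add h1 h2
        _ = (‖R‖ + θ') * ‖g - g₀‖ := by ring
        _ ≤ (‖R‖ + 1) * δ := by
            apply mul_le_mul _ hg (norm_nonneg _) (by positivity)
            linarith
        _ ≤ _ := hδR
    obtain ⟨y, hy, hy0⟩ := hsurj h0
    rw [mem_closedBall_iff_norm] at hy
    exact ⟨y, hy, hy0⟩
  set ψ : E → E := fun x => if h : ‖x‖ ≤ ρ then (hex x h).choose else x with hψ
  have hψ1 : ∀ x, ‖x‖ ≤ ρ → ‖ψ x - x‖ ≤ ε' := by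
    intro x hx
    simp only [hψ, dif_pos hx]
    exact (hex x hx).choose_spec.1
  have hψ2 : ∀ x, ‖x‖ ≤ ρ → Θ (ψ x, x, g) = 0 := by
    intro x hx
    simp only [hψ, dif_pos hx]
    exact (hex x hx).choose_spec.2
  have hψr : ∀ x, ‖x‖ ≤ ρ → ‖ψ x‖ ≤ r := by
    intro x hx
    calc ‖ψ x‖ = ‖(ψ x - x) + x‖ := by rw [sub_add_cancel]
      _ ≤ ‖ψ x - x‖ + ‖x‖ := norm_add_le _ _
      _ ≤ r := by linarith [hψ1 x hx]
  refine ⟨ψ, ?_, ?_⟩
  · intro x x' hx hx'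
    have h1 := hest (ψ x) x (ψ x') x' g g (hψr x hx) (by linarith) hgr (hψr x' hx')
      (by linarith) hgr
    rw [hψ2 x hx, hψ2 x' hx', sub_self, sub_self, map_zero, add_zero, zero_sub, norm_neg,
      norm_zero, max_eq_left (norm_nonneg (x - x'))] at h1
    set w := ψ x - ψ x' - (x - x') with hw
    have h2 : ‖ψ x - ψ x'‖ ≤ ‖w‖ + ‖x - x'‖ := by
      calc ‖ψ x - ψ x'‖ = ‖w + (x - x')‖ := by rw [hw, sub_add_cancel]
        _ ≤ _ := norm_add_le _ _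
    have h3 : max ‖ψ x - ψ x'‖ ‖x - x'‖ ≤ ‖w‖ + ‖x - x'‖ :=
      max_le h2 (by linarith [norm_nonneg w])
    have h4 : ‖w‖ ≤ θ' * (‖w‖ + ‖x - x'‖) :=
      h1.trans (mul_le_mul_of_nonneg_left h3 hθ'0.le)
    have h5 := norm_nonneg w
    have h6 := norm_nonneg (x - x')
    have h7 : ‖w‖ * (3 / 4) ≤ θ' * ‖x - x'‖ := by nlinarith
    nlinarith
  · intro x hx
    refine ⟨(hψ1 x hx).trans hε'ε, hψ2 x hx, ?_⟩
    have hxr : ‖x‖ ≤ r := by linarith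
    have h1 := hlip (ψ x) x x x g g₀ (hψr x hx) hxr hgr hxr hxr hg₀r
    rw [hP0, sub_self, norm_zero, max_eq_right (norm_nonneg (g - g₀))] at h1
    refine h1.trans ?_
    calc (A : ℝ) * max ‖ψ x - x‖ ‖g - g₀‖ ≤ A * ε' :=
          mul_le_mul_of_nonneg_left (max_le (hψ1 x hx) (hg.trans hδε)) hA0
      _ ≤ ε := hε'A

section abs

variable {K 𝔸 ι : Type} [NontriviallyNormedField K] [NormedRing 𝔸] [NormedAlgebra K 𝔸]
  [Fintype ι]

omit [Fintype ι] in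
private theorem CoL_mk (f : 𝔸 → K) (hadd : ∀ a b, f (a + b) = f a + f b)
    (hsmul : ∀ (c : K) (a : 𝔸), f (c • a) = c * f a) (hb : ∀ a, ‖f a‖ ≤ ‖a‖) :
    ∃ En : 𝔸 →L[K] K, ∀ a, En a = f a :=
  ⟨LinearMap.mkContinuous { toFun := f, map_add' := hadd, map_smul' := hsmul } 1
    (fun a => by rw [one_mul]; exact hb a), fun a => rfl⟩

open Classical in
private noncomputable def CoL_R (En : ι → 𝔸 →L[K] K) (J : Finset ι) : 𝔸 →L[K] (ι → K) :=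
  ContinuousLinearMap.pi fun φ => if φ ∈ J then En φ else 0

open Classical in
private noncomputable def CoL_Q (K : Type) [NontriviallyNormedField K] (J : Finset ι) :
    (ι → K) →L[K] (ι → K) :=
  ContinuousLinearMap.pi fun φ => if φ ∈ J then 0 else ContinuousLinearMap.proj φ

private theorem CoL_R_mem (En : ι → 𝔸 →L[K] K) {J : Finset ι} {φ : ι} (h : φ ∈ J)
    (A : 𝔸) : CoL_R En J A φ = En φ A := by
  classical
  show (if φ ∈ J then En φ else 0 : 𝔸 →L[K] K) A = _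
  rw [if_pos h]

private theorem CoL_R_not (En : ι → 𝔸 →L[K] K) {J : Finset ι} {φ : ι} (h : φ ∉ J)
    (A : 𝔸) : CoL_R En J A φ = 0 := by
  classical
  show (if φ ∈ J then En φ else 0 : 𝔸 →L[K] K) A = _
  rw [if_neg h]
  rfl

private theorem CoL_Q_mem {J : Finset ι} {φ : ι} (h : φ ∈ J)
    (x : ι → K) : CoL_Q K J x φ = 0 := by
  classical
  show (if φ ∈ J then 0 else ContinuousLinearMap.proj φ : (ι → K) →L[K] K) x = _
  rw [if_pos h]
  rfl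

private theorem CoL_Q_not {J : Finset ι} {φ : ι} (h : φ ∉ J)
    (x : ι → K) : CoL_Q K J x φ = x φ := by
  classical
  show (if φ ∈ J then 0 else ContinuousLinearMap.proj φ : (ι → K) →L[K] K) x = _
  rw [if_neg h]
  rfl

private theorem CL_abs [CompleteSpace K] (Q Qi : (ι → K) → 𝔸) (S : (ι → K) →L[K] 𝔸)
    (hQ : HasStrictFDerivAt Q S 0) (hQi : HasStrictFDerivAt Qi (-S) 0)
    (hQ0 : Q 0 = 1) (hQi0 : Qi 0 = 1) {En : ι → 𝔸 →L[K] K} (J : Finset ι)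
    (hEn : ∀ φ ∈ J, ∀ c, En φ (S c) = c φ)
    (hinv : ∀ x : ι → K, Q x * Qi x = 1)
    {θ : ℝ} (hθ : 0 < θ) :
    ∃ ρ₁ > 0, ∀ ρ : ℝ, 0 < ρ → ρ ≤ ρ₁ → ∀ ε : ℝ, 0 < ε → ∃ δ > 0,
      ∀ g : 𝔸, ‖g - 1‖ ≤ δ → ∃ ψ : (ι → K) → (ι → K),
          NearId θ ρ ψ ∧ ∀ x, ‖x‖ ≤ ρ → ‖ψ x - x‖ ≤ ε ∧
            (∀ φ ∈ J, En φ (Q (ψ x) * g * Qi x - 1) = 0) ∧
            ‖Q (ψ x) * g * Qi x - 1‖ ≤ ε := by
  set p1 : (ι → K) × (ι → K) × 𝔸 →L[K] (ι → K) := ContinuousLinearMap.fst K _ _ with hp1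
  set p2 : (ι → K) × (ι → K) × 𝔸 →L[K] (ι → K) :=
    (ContinuousLinearMap.fst K _ _).comp (ContinuousLinearMap.snd K _ _) with hp2
  set p3 : (ι → K) × (ι → K) × 𝔸 →L[K] 𝔸 :=
      (ContinuousLinearMap.snd K _ _).comp (ContinuousLinearMap.snd K _ _) with hp3
  set P : (ι → K) × (ι → K) × 𝔸 → 𝔸 := fun a =>
      Q a.1 * a.2.2 * Qi a.2.1 with hPdef
  have hP : HasStrictFDerivAt P (S.comp p1 + p3 - S.comp p2)
      ((0, 0, 1) : (ι → K) × (ι → K) × 𝔸) := by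
    have h1 : HasStrictFDerivAt (fun a : (ι → K) × (ι → K) × 𝔸 => Q a.1)
        (S.comp p1) (0, 0, 1) :=
      HasStrictFDerivAt.comp (f := fun a => p1 a) _ hQ p1.hasStrictFDerivAt
    have h2 : HasStrictFDerivAt (fun a : (ι → K) × (ι → K) × 𝔸 => a.2.2) p3 (0, 0, 1) :=
      p3.hasStrictFDerivAt
    have h3 : HasStrictFDerivAt (fun a : (ι → K) × (ι → K) × 𝔸 =>
        Qi a.2.1) ((-S).comp p2) (0, 0, 1) :=
      HasStrictFDerivAt.comp (f := fun a => p2 a) _ hQi p2.hasStrictFDerivAt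
    have h4 := (h1.fun_mul' h2).fun_mul' h3
    refine h4.congr_fderiv ?_
    have e1 : Q ((0, 0, 1) : (ι → K) × (ι → K) × 𝔸).1 = 1 := hQ0
    have e2 : Qi ((0, 0, 1) : (ι → K) × (ι → K) × 𝔸).2.1 = 1 := hQi0
    rw [e1, e2]
    refine ContinuousLinearMap.ext fun a => ?_
    simp
    abel
  set Θ : (ι → K) × (ι → K) × 𝔸 → (ι → K) := fun a =>
    CoL_R En J (P a - 1) + CoL_Q K J (a.1 - a.2.1) with hΘdef
  have hΘ : HasStrictFDerivAt Θ ((CoL_R En J).comp (S.comp p1 + p3 - S.comp p2) +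
      (CoL_Q K J).comp (p1 - p2)) ((0, 0, 1) : (ι → K) × (ι → K) × 𝔸) := by
    have h1 : HasStrictFDerivAt (fun a => CoL_R En J (P a - 1))
        ((CoL_R En J).comp (S.comp p1 + p3 - S.comp p2))
        ((0, 0, 1) : (ι → K) × (ι → K) × 𝔸) :=
      HasStrictFDerivAt.comp (f := fun a => P a - 1) _ (CoL_R En J).hasStrictFDerivAt
        (hP.sub_const 1)
    have h2 : HasStrictFDerivAt (fun a : (ι → K) × (ι → K) × 𝔸 => CoL_Q K J (a.1 - a.2.1))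
      ((CoL_Q K J).comp (p1 - p2)) (0, 0, 1) :=
      ((CoL_Q K J).comp (p1 - p2)).hasStrictFDerivAt
    exact h1.add h2
  have hΛ : ∀ a : (ι → K) × (ι → K) × 𝔸,
      ((CoL_R En J).comp (S.comp p1 + p3 - S.comp p2) + (CoL_Q K J).comp (p1 - p2)) a =
        a.1 - a.2.1 + CoL_R En J a.2.2 := by
    intro a
    funext φ
    show CoL_R En J (S a.1 + a.2.2 - S a.2.1) φ + CoL_Q K J (a.1 - a.2.1) φ =
      (a.1 φ - a.2.1 φ) + CoL_R En J a.2.2 φ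
    by_cases hφ : φ ∈ J
    · rw [CoL_R_mem En hφ, CoL_Q_mem hφ, CoL_R_mem En hφ, map_sub, map_add,
        hEn φ hφ, hEn φ hφ]
      ring
    · rw [CoL_R_not En hφ, CoL_Q_not hφ, CoL_R_not En hφ]
      show 0 + (a.1 φ - a.2.1 φ) = _
      ring
  have hP0 : ∀ x : ι → K, P (x, x, 1) = 1 := by
    intro x
    show Q x * 1 * Qi x = 1
    rw [mul_one]
    exact hinv x
  have hΘ0 : ∀ x : ι → K, Θ (x, x, 1) = 0 := by
    intro x
    show CoL_R En J (P (x, x, 1) - 1) + CoL_Q K J (x - x) = 0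
    rw [hP0, sub_self, sub_self, map_zero, map_zero, add_zero]
  obtain ⟨ρ₁, hρ₁, h⟩ := CoL_fix Θ P 1 (CoL_R En J) _ hP _ hΛ hΘ hΘ0 hP0 hθ
  refine ⟨ρ₁, hρ₁, fun ρ hρ hρρ ε hε => ?_⟩
  obtain ⟨δ, hδ, h⟩ := h ρ hρ hρρ ε hε
  refine ⟨δ, hδ, fun g hg => ?_⟩
  obtain ⟨ψ, hψ, hψ'⟩ := h g hg
  refine ⟨ψ, hψ, fun x hx => ?_⟩
  obtain ⟨h1, h2, h3⟩ := hψ' x hx
  refine ⟨h1, fun φ hφ => ?_, h3⟩
  have h4 := congrFun h2 φ
  have h5 : CoL_R En J (P (ψ x, x, g) - 1) φ + CoL_Q K J (ψ x - x) φ = 0 := h4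
  rw [CoL_R_mem En hφ, CoL_Q_mem hφ, add_zero] at h5
  exact h5

private theorem CL_inv [CompleteSpace 𝔸] {Q : (ι → K) → 𝔸} {S : (ι → K) →L[K] 𝔸}
    (hQ : HasStrictFDerivAt Q S 0) (hQ0 : Q 0 = 1) :
    HasStrictFDerivAt (fun c => Ring.inverse (Q c)) (-S) 0 := by
  have e2 := hasStrictFDerivAt_ringInverse (𝕜 := K) (1 : 𝔸ˣ)
  have e3 : HasStrictFDerivAt (Ring.inverse : 𝔸 → 𝔸)
      (-ContinuousLinearMap.mulLeftRight K 𝔸 1 1) (Q 0) := by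
    rw [hQ0]
    simpa using e2
  have e4 := HasStrictFDerivAt.comp (f := Q) (0 : ι → K) e3 hQ
  refine e4.congr_fderiv ?_
  refine ContinuousLinearMap.ext fun a => ?_
  simp

end abs

section mat

variable {K : Type} [NontriviallyNormedField K] {m : ℕ}

attribute [local instance] Matrix.linftyOpNormedRing Matrix.linftyOpNormedAlgebra

private theorem CoL_entry (A : Matrix (Fin m) (Fin m) K) (i j : Fin m) : ‖A i j‖ ≤ ‖A‖ := by
  rw [Matrix.linfty_opNorm_def, ← coe_nnnorm, NNReal.coe_le_coe]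
  calc ‖A i j‖₊ ≤ ∑ j, ‖A i j‖₊ :=
        Finset.single_le_sum (f := fun j => ‖A i j‖₊) (fun _ _ => zero_le) (Finset.mem_univ j)
    _ ≤ _ := Finset.le_sup (f := fun i => ∑ j, ‖A i j‖₊) (Finset.mem_univ i)

private theorem CoL_norm_le (A : Matrix (Fin m) (Fin m) K) {δ : ℝ} (hδ : 0 ≤ δ)
    (h : ∀ i j, ‖A i j‖ ≤ δ) : ‖A‖ ≤ (m + 1) * δ := by
  obtain ⟨d, rfl⟩ : ∃ d : NNReal, (d : ℝ) = δ := ⟨⟨δ, hδ⟩, rfl⟩
  rw [Matrix.linfty_opNorm_def]
  have h1 : ((m : ℝ) + 1) * d = (((m + 1 : NNReal) * d : NNReal) : ℝ) := by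
    push_cast
    rfl
  rw [h1, NNReal.coe_le_coe]
  refine Finset.sup_le fun i _ => ?_
  have h2 : ∑ j, ‖A i j‖₊ ≤ ∑ _j : Fin m, d :=
    Finset.sum_le_sum fun j _ => h i j
  have h3 : ∑ _j : Fin m, d = m * d := by simp
  rw [h3] at h2
  exact h2.trans (mul_le_mul' le_self_add le_rfl)

private theorem CL_main [CompleteSpace K]
    (J : Finset (Fin m × Fin m)) (P : (Fin m × Fin m → K) → SpecialLinearGroup (Fin m) K)
    (h1 : P 0 = 1)
    (hd : ∃ L : (Fin m × Fin m → K) →L[K] (Fin m × Fin m → K),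
      HasStrictFDerivAt (fun (c : Fin m × Fin m → K) (ψ : Fin m × Fin m) =>
        (P c).1 ψ.1 ψ.2) L 0 ∧ ∀ c ψ, ψ ∉ J → L c ψ = c ψ)
    {θ : ℝ} (hθ : 0 < θ) :
    ∃ ρ₁ > 0, ∀ ρ : ℝ, 0 < ρ → ρ ≤ ρ₁ → ∀ ε : ℝ, 0 < ε → ∃ δ > 0,
      ∀ g : SpecialLinearGroup (Fin m) K,
        (∀ j l, ‖g.1 j l - (1 : Matrix (Fin m) (Fin m) K) j l‖ ≤ δ) →
        ∃ ψ : (Fin m × Fin m → K) → (Fin m × Fin m → K), NearId θ ρ ψ ∧ ∀ x, ‖x‖ ≤ ρ →
          ‖ψ x - x‖ ≤ ε ∧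
          (∀ j l, (j, l) ∉ J →
            (P (ψ x) * g * (P x)⁻¹).1 j l = (1 : Matrix (Fin m) (Fin m) K) j l) ∧
          ∀ j l, ‖(P (ψ x) * g * (P x)⁻¹).1 j l - (1 : Matrix (Fin m) (Fin m) K) j l‖ ≤ ε := by
  classical
  obtain ⟨L, hL, hLJ⟩ := hd
  obtain ⟨T, hT⟩ : ∃ T : (Fin m × Fin m → K) →L[K] Matrix (Fin m) (Fin m) K,
      ∀ f, T f = Matrix.of fun i j => f (i, j) := by
    refine ⟨LinearMap.mkContinuous
      { toFun := fun f => Matrix.of fun i j => f (i, j)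
        map_add' := fun _ _ => rfl
        map_smul' := fun _ _ => rfl } (m + 1) ?_, fun f => rfl⟩
    intro f
    exact CoL_norm_le _ (norm_nonneg f) fun i j => norm_le_pi_norm f (i, j)
  choose En hEn using fun φ : Fin m × Fin m =>
    CoL_mk (𝔸 := Matrix (Fin m) (Fin m) K) (fun A => A φ.1 φ.2) (fun _ _ => rfl)
      (fun _ _ => rfl) (fun A => CoL_entry A φ.1 φ.2)
  have hQ : HasStrictFDerivAt (fun c => (P c).1) (T.comp L) 0 := by
    have e1 : (fun c => (P c).1) = fun c => T (fun ψ : Fin m × Fin m => (P c).1 ψ.1 ψ.2) := by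
      funext c
      rw [hT]
      rfl
    rw [e1]
    exact HasStrictFDerivAt.comp (f := fun (c : Fin m × Fin m → K) (ψ : Fin m × Fin m) =>
        (P c).1 ψ.1 ψ.2) (0 : Fin m × Fin m → K) T.hasStrictFDerivAt hL
  have hP01 : (P 0).1 = 1 := by rw [h1]; rfl
  have hPi : ∀ c, ((P c)⁻¹).1 = Ring.inverse (P c).1 := by
    intro c
    have e1 : (P c).1 * ((P c)⁻¹).1 = 1 := by
      have e2 : (P c * (P c)⁻¹).1 = (P c).1 * ((P c)⁻¹).1 := rfl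
      rw [← e2, mul_inv_cancel]
      rfl
    have e3 : ((P c)⁻¹).1 * (P c).1 = 1 := by
      have e2 : ((P c)⁻¹ * P c).1 = ((P c)⁻¹).1 * (P c).1 := rfl
      rw [← e2, inv_mul_cancel]
      rfl
    exact (Ring.inverse_unit (⟨(P c).1, ((P c)⁻¹).1, e1, e3⟩ :
      (Matrix (Fin m) (Fin m) K)ˣ)).symm
  have hQi : HasStrictFDerivAt (fun c => ((P c)⁻¹).1) (-(T.comp L)) 0 := by
    have e1 : (fun c => ((P c)⁻¹).1) = fun c => Ring.inverse (P c).1 := by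
      funext c
      exact hPi c
    rw [e1]
    have hcomp : @CompleteSpace (Matrix (Fin m) (Fin m) K)
        (@PseudoMetricSpace.toUniformSpace _
          (@NormedRing.toMetricSpace _ Matrix.linftyOpNormedRing).toPseudoMetricSpace) :=
      inferInstanceAs (CompleteSpace (Fin m → Fin m → K))
    exact CL_inv hQ hP01
  obtain ⟨ρ₁, hρ₁, h⟩ := CL_abs (fun c => (P c).1) (fun c => ((P c)⁻¹).1) (T.comp L) hQ hQi
    hP01 (by rw [h1, inv_one]; rfl) (En := En) Jᶜ (by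
      intro φ hφ c
      rw [hEn]
      show (T (L c)) φ.1 φ.2 = c φ
      rw [hT]
      exact hLJ c φ (Finset.mem_compl.1 hφ)) (by
      intro x
      have e2 : (P x * (P x)⁻¹).1 = (P x).1 * ((P x)⁻¹).1 := rfl
      show (P x).1 * ((P x)⁻¹).1 = 1
      rw [← e2, mul_inv_cancel]
      rfl) hθ
  refine ⟨ρ₁, hρ₁, fun ρ hρ hρρ ε hε => ?_⟩
  obtain ⟨δ, hδ, h⟩ := h ρ hρ hρρ ε hε
  have hm : (0 : ℝ) < m + 1 := by positivity
  refine ⟨δ / (m + 1), by positivity, fun g hg => ?_⟩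
  obtain ⟨ψ, hψ, hψ'⟩ := h g.1 (by
    have h1 := CoL_norm_le (g.1 - 1) (δ := δ / (m + 1)) (by positivity) (fun i j => hg i j)
    rwa [mul_div_cancel₀ _ hm.ne'] at h1)
  refine ⟨ψ, hψ, fun x hx => ?_⟩
  obtain ⟨h1, h2, h3⟩ := hψ' x hx
  refine ⟨h1, fun j l hjl => ?_, fun j l => ?_⟩
  · have h4 := h2 (j, l) (Finset.mem_compl.2 hjl)
    rw [hEn] at h4
    exact sub_eq_zero.1 h4
  · exact (CoL_entry _ j l).trans h3

end mat

theorem corr_place {K : Type} [NontriviallyNormedField K] [CompleteSpace K] {m : ℕ}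
    (J : Finset (Fin m × Fin m)) (P : (Fin m × Fin m → K) → SpecialLinearGroup (Fin m) K)
    (h1 : P 0 = 1)
    (hd : ∃ L : (Fin m × Fin m → K) →L[K] (Fin m × Fin m → K),
      HasStrictFDerivAt (fun (c : Fin m × Fin m → K) (ψ : Fin m × Fin m) =>
        (P c).1 ψ.1 ψ.2) L 0 ∧ ∀ c ψ, ψ ∉ J → L c ψ = c ψ)
    {θ : ℝ} (hθ : 0 < θ) :
    ∃ ρ₁ > 0, ∀ ρ : ℝ, 0 < ρ → ρ ≤ ρ₁ → ∀ ε : ℝ, 0 < ε → ∃ δ > 0,
      ∀ g : SpecialLinearGroup (Fin m) K,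
        (∀ j l, ‖g.1 j l - (1 : Matrix (Fin m) (Fin m) K) j l‖ ≤ δ) →
        ∃ ψ : (Fin m × Fin m → K) → (Fin m × Fin m → K), NearId θ ρ ψ ∧ ∀ x, ‖x‖ ≤ ρ →
          ‖ψ x - x‖ ≤ ε ∧
          (∀ j l, (j, l) ∉ J →
            (P (ψ x) * g * (P x)⁻¹).1 j l = (1 : Matrix (Fin m) (Fin m) K) j l) ∧
          ∀ j l, ‖(P (ψ x) * g * (P x)⁻¹).1 j l - (1 : Matrix (Fin m) (Fin m) K) j l‖ ≤ ε := by
  exact CL_main J P h1 hd hθ

end Pool.Agent.Work.MP_67388f_an.HM
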