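import Mathlib

/-!
# EX (size M): the exponential near zero

## Proof
`exp_local` : `NormedSpace.exp` has the strict derivative `1` at `0`
(`hasStrictFDerivAt_exp_zero_of_radius_pos`). So there is a neighbourhood of `0` on which
`‖exp x - exp y - (x - y)‖ ≤ ε' ‖x - y‖`, `ε' = min ε (1/2)`; and `exp` maps neighbourhoods of `0` onto
neighbourhoods of `exp 0 = 1` (`HasStrictFDerivAt.map_nhds_eq_of_equiv`, or
`HasStrictFDerivAt.toOpenPartialHomeomorph`). So each `g` close to `1` is `exp x` with `x` in the given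
neighbourhood; with `y = 0`: `‖g - 1 - x‖ ≤ ε' ‖x‖`, hence `‖x‖ ≤ ‖g - 1‖ + ‖x‖ / 2`.
`padic_radius` : `‖(k !)⁻¹‖ = p ^ v_p(k!) ≤ p ^ k` (`sub_one_mul_padicValNat_factorial`: `(p - 1) v_p(k!) ≤ k`;
or by induction: `v_p` of the product), so `‖expSeries k‖ * (1/p)^k` is bounded by the norm of
`ContinuousMultilinearMap.mkPiAlgebraFin`, at most `max 1 ‖1‖` (`ContinuousMultilinearMap.norm_mkPiAlgebraFin_le_of_pos`
and the case `k = 0`), and `FormalMultilinearSeries.le_radius_of_bound` gives radius `≥ 1/p`.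
(`FormalMultilinearSeries.le_radius_of_bound`; for a trivial ring everything is clear.)
-/

set_option autoImplicit false

namespace Pool.Agent.Work.MP_67388f_an.HM

open Filter Topology NormedSpace

theorem exp_local {𝕂 𝔸 : Type} [NontriviallyNormedField 𝕂] [CharZero 𝕂] [NormedRing 𝔸]
    [NormedAlgebra 𝕂 𝔸] [CompleteSpace 𝔸] (h : 0 < (expSeries 𝕂 𝔸).radius) {ε : ℝ}
    (hε : 0 < ε) :
    ∃ c > 0, ∀ g : 𝔸, ‖g - 1‖ ≤ c → ∃ x : 𝔸, exp x = g ∧ ‖x - (g - 1)‖ ≤ ε * ‖x‖ ∧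
      ‖x‖ ≤ 2 * ‖g - 1‖ := by
  have hs := hasStrictFDerivAt_exp_zero_of_radius_pos h
  have hs' : HasStrictFDerivAt (exp : 𝔸 → 𝔸)
      ((ContinuousLinearEquiv.refl 𝕂 𝔸 : 𝔸 ≃L[𝕂] 𝔸) : 𝔸 →L[𝕂] 𝔸) 0 := hs
  have hmap := hs'.map_nhds_eq_of_equiv
  have hlo := (hasFDerivAt_iff_isLittleO_nhds_zero.1 hs.hasFDerivAt).def
    (show 0 < min ε (1 / 2) by positivity)
  have hU : {x : 𝔸 | ‖exp x - 1 - x‖ ≤ min ε (1 / 2) * ‖x‖} ∈ 𝓝 (0 : 𝔸) := by
    filter_upwards [hlo] with x hx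
    rw [zero_add, exp_zero] at hx
    exact hx
  have himg := image_mem_map (m := (exp : 𝔸 → 𝔸)) hU
  rw [hmap, exp_zero] at himg
  obtain ⟨c, hc, hcU⟩ := Metric.nhds_basis_closedBall.mem_iff.1 himg
  refine ⟨c, hc, fun g hg => ?_⟩
  obtain ⟨x, hx, hxg⟩ := hcU (mem_closedBall_iff_norm.2 hg)
  have hx1 : ‖x - (g - 1)‖ ≤ min ε (1 / 2) * ‖x‖ := by
    have h1 : x - (g - 1) = -(exp x - 1 - x) := by
      rw [hxg]
      abel
    rw [h1, norm_neg]
    exact hx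
  refine ⟨x, hxg, hx1.trans (mul_le_mul_of_nonneg_right (min_le_left _ _) (norm_nonneg _)), ?_⟩
  have h2 : ‖x - (g - 1)‖ ≤ 1 / 2 * ‖x‖ :=
    hx1.trans (mul_le_mul_of_nonneg_right (min_le_right _ _) (norm_nonneg _))
  have h3 : ‖x‖ ≤ ‖x - (g - 1)‖ + ‖g - 1‖ := by
    calc ‖x‖ = ‖(x - (g - 1)) + (g - 1)‖ := by rw [sub_add_cancel]
      _ ≤ _ := norm_add_le _ _
  linarith

private theorem ex_fact (p : ℕ) [Fact p.Prime] (k : ℕ) :
    ‖((k.factorial : ℚ_[p]))⁻¹‖ ≤ (p : ℝ) ^ k := by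
  have hp : 1 < p := (Fact.out : p.Prime).one_lt
  have hp' : (1 : ℝ) ≤ (p : ℝ) := by exact_mod_cast hp.le
  have hne : (k.factorial : ℚ_[p]) ≠ 0 := by exact_mod_cast k.factorial_ne_zero
  rw [norm_inv, Padic.norm_eq_zpow_neg_valuation hne, Padic.valuation_natCast, zpow_neg, inv_inv,
    zpow_natCast]
  apply pow_le_pow_right₀ hp'
  have h1 := sub_one_mul_padicValNat_factorial (p := p) k
  have h2 : 1 * padicValNat p k.factorial ≤ (p - 1) * padicValNat p k.factorial :=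
    Nat.mul_le_mul_right _ (by omega)
  omega

theorem padic_radius (p : ℕ) [Fact p.Prime] {𝔸 : Type} [NormedRing 𝔸] [NormedAlgebra ℚ_[p] 𝔸] :
    0 < (expSeries ℚ_[p] 𝔸).radius := by
  have hp : 0 < (p : ℝ) := by exact_mod_cast (Fact.out : p.Prime).pos
  obtain ⟨r, hr⟩ : ∃ r : NNReal, (r : ℝ) = (p : ℝ)⁻¹ := ⟨⟨(p : ℝ)⁻¹, by positivity⟩, rfl⟩
  have hb : (r : ENNReal) ≤ (expSeries ℚ_[p] 𝔸).radius := by
    apply FormalMultilinearSeries.le_radius_of_bound _ (max 1 ‖(1 : 𝔸)‖)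
    intro k
    rw [hr]
    have h1 : ‖expSeries ℚ_[p] 𝔸 k‖ ≤ (p : ℝ) ^ k * max 1 ‖(1 : 𝔸)‖ := by
      rw [expSeries_eq_ofScalars, FormalMultilinearSeries.ofScalars_norm_eq_mul]
      exact mul_le_mul (ex_fact p k) ContinuousMultilinearMap.norm_mkPiAlgebraFin_le
        (ContinuousMultilinearMap.opNorm_nonneg _) (by positivity)
    refine (mul_le_mul_of_nonneg_right h1 (by positivity)).trans (le_of_eq ?_)
    rw [inv_pow]
    field_simp
  refine lt_of_lt_of_le ?_ hb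
  rw [ENNReal.coe_pos]
  exact NNReal.coe_pos.1 (by
    rw [hr]
    positivity)

end Pool.Agent.Work.MP_67388f_an.HM
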