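import Pool.Agent.Work.MP_67388f_an.HM.IS

/-!
# GC: a chart for every closed subgroup of the product over all places
-/

set_option autoImplicit false

namespace Pool.Agent.Work.MP_67388f_an.HM

open Filter Topology Matrix
open Pool.Agent.Work.MP_67388f_an.EM (GG Near Rt NIProp)

theorem exists_chart {ι : Type} [Fintype ι] {n₀ : ℕ} {n q : ι → ℕ} [∀ v, Fact (q v).Prime]
    (hq : Function.Injective q) (S : Subgroup (GP n₀ n q)) (hS : IsClosed (S : Set (GP n₀ n q))) :
    ∃ (J : ∀ i : Option ι, Finset (Fin (Rk n₀ n i) × Fin (Rk n₀ n i)))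
      (P : ∀ i : Option ι, (Fin (Rk n₀ n i) × Fin (Rk n₀ n i) → Fld q i) →
        SpecialLinearGroup (Fin (Rk n₀ n i)) (Fld q i)) (c₀ : ℝ),
      Chart (S : Set (GP n₀ n q)) J P c₀ := by
  classical
  choose J P hP h1 hPT hd A hA hV using fun i : Option ι => chart_place (partAt S i)
  obtain ⟨c₀, hc₀, hiso⟩ := exists_isol hq S hS J A hA hV
  refine ⟨J, P, c₀, ⟨hP, h1, fun c => ?_, hd, hc₀, hiso⟩⟩
  exact Subgroup.pi_mem_of_mulSingle_mem (H := S) (fun i => P i (c i)) fun i =>
    (mem_partAt S i _).1 (hPT i (c i))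

end Pool.Agent.Work.MP_67388f_an.HM
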