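import Pool.Agent.Work.MP_67388f_an.HM.Places

/-!
# SP (size M): powers near the identity; splitting off the p-adic places

## Proof
Matrices over `ℚ_[p]`, sup norm `N(A)` of the entries: `N(A B) ≤ N(A) N(B)`, `N(A + B) ≤ max`.
`near_pow` : for `N(g - 1) ≤ ε < 1` the set of such `g` is a group: `g h - 1 = (g - 1) h + (h - 1)`, `N(h) ≤ 1`;
`g⁻¹ = 1 - (g - 1) g⁻¹`, where `N(g⁻¹) ≤ 1` because the inverse is the adjugate, a polynomial with integer
coefficients in the entries (`N(g) ≤ 1`). So the claim for integer powers.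
`near_pow_prime` : let `N(g - 1) ≤ 1/p`. Claim `N(g ^ (p^j * k) - 1) ≤ p^(-(j+1))`: by induction on `j`, if
`h = 1 + x`, `N(x) ≤ p^(-(j+1))`, then `h^p - 1 = p x + (binomial terms of degree ≥ 2 in x)`, and
`N(p x) ≤ p^(-(j+2))`, `N(x^2) ≤ p^(-2(j+1)) ≤ p^(-(j+2))` (binomial coefficients are integers, norm at most
one); then the `k`-th power by `near_pow` with `ε = p^(-(j+1)) < 1`.
`split_fin` : let `v` be given, `p = q v`, `M = ∏_{v' ≠ v} q v'` (prime to `p` as the `q v'` are distinct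
primes), `N_j = M ^ ((p - 1) * p ^ j)`. Then `p^(j+1) ∣ N_j - 1` (Euler: `φ(p^(j+1)) = (p-1) p^j`,
`Nat.ModEq.pow_totient`), `N_j ≥ 1`, and `(q v') ^ j ∣ N_j` for `v' ≠ v` (as `(p - 1) p^j ≥ j`). So the elements
`g ^ N_j ∈ S` converge to `Pi.mulSingle (some v) (g (some v))` (`paPart`, `partAt`): real component `1`; at `v' ≠ v`,
`(g_{v'})^{N_j} → 1` by `near_pow_prime`; at `v`, `g_v^{N_j} = g_v * g_v^{N_j - 1} → g_v` by `near_pow_prime`. `S` is
closed. (`GG` is a product of subspaces of matrix spaces: convergence is convergence of all entries.)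
-/

set_option autoImplicit false

namespace Pool.Agent.Work.MP_67388f_an.HM

open Filter Topology Matrix
open Pool.Agent.Work.MP_67388f_an.EM (GG Near Rt)

private theorem sp_mul {p : ℕ} [Fact p.Prime] {m : ℕ} {A B : Matrix (Fin m) (Fin m) ℚ_[p]}
    {a b : ℝ} (ha : 0 ≤ a) (hb : 0 ≤ b) (hA : ∀ j l, ‖A j l‖ ≤ a) (hB : ∀ j l, ‖B j l‖ ≤ b) :
    ∀ j l, ‖(A * B) j l‖ ≤ a * b := by
  intro j l
  rw [Matrix.mul_apply]
  apply IsUltrametricDist.norm_sum_le_of_forall_le_of_nonneg (mul_nonneg ha hb)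
  intro k _
  rw [norm_mul]
  exact mul_le_mul (hA j k) (hB k l) (norm_nonneg _) ha

private theorem sp_add {p : ℕ} [Fact p.Prime] {x y : ℚ_[p]} {a : ℝ} (hx : ‖x‖ ≤ a)
    (hy : ‖y‖ ≤ a) : ‖x + y‖ ≤ a :=
  (IsUltrametricDist.norm_add_le_max x y).trans (max_le hx hy)

private theorem sp_one {p : ℕ} [Fact p.Prime] {m : ℕ} (j l : Fin m) :
    ‖(1 : Matrix (Fin m) (Fin m) ℚ_[p]) j l‖ ≤ 1 := by
  rw [Matrix.one_apply]
  split_ifs <;> simp

private theorem sp_le_one {p : ℕ} [Fact p.Prime] {m : ℕ} {A : Matrix (Fin m) (Fin m) ℚ_[p]}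
    {ε : ℝ} (hε : ε < 1)
    (hA : ∀ j l, ‖A j l - (1 : Matrix (Fin m) (Fin m) ℚ_[p]) j l‖ ≤ ε) (j l : Fin m) :
    ‖A j l‖ ≤ 1 := by
  have h := sp_add ((hA j l).trans hε.le) (sp_one (p := p) j l)
  rwa [sub_add_cancel] at h

private theorem sp_det {p : ℕ} [Fact p.Prime] {m : ℕ} {A : Matrix (Fin m) (Fin m) ℚ_[p]}
    (hA : ∀ j l, ‖A j l‖ ≤ 1) : ‖A.det‖ ≤ 1 := by
  rw [Matrix.det_apply']
  apply IsUltrametricDist.norm_sum_le_of_forall_le_of_nonneg zero_le_one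
  intro σ _
  rw [norm_mul, norm_prod]
  have h1 : ‖((Equiv.Perm.sign σ : ℤ) : ℚ_[p])‖ ≤ 1 := Padic.norm_int_le_one _
  have h2 : ∏ i, ‖A (σ i) i‖ ≤ 1 :=
    Finset.prod_le_one (fun i _ => norm_nonneg _) (fun i _ => hA _ _)
  calc _ ≤ 1 * 1 := mul_le_mul h1 h2 (Finset.prod_nonneg fun i _ => norm_nonneg _) zero_le_one
    _ = 1 := one_mul 1

private theorem sp_adj {p : ℕ} [Fact p.Prime] {m : ℕ} {A : Matrix (Fin m) (Fin m) ℚ_[p]}
    (hA : ∀ j l, ‖A j l‖ ≤ 1) (j l : Fin m) : ‖A.adjugate j l‖ ≤ 1 := by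
  rw [Matrix.adjugate_apply]
  apply sp_det
  intro a b
  rw [Matrix.updateRow_apply]
  split_ifs
  · rw [Pi.single_apply]
    split_ifs <;> simp
  · exact hA a b

private theorem sp_inv {p : ℕ} [Fact p.Prime] {m : ℕ} (g : SpecialLinearGroup (Fin m) ℚ_[p])
    {ε : ℝ} (hε0 : 0 ≤ ε) (hε : ε < 1)
    (hg : ∀ j l, ‖g.1 j l - (1 : Matrix (Fin m) (Fin m) ℚ_[p]) j l‖ ≤ ε) (j l : Fin m) :
    ‖(g⁻¹).1 j l - (1 : Matrix (Fin m) (Fin m) ℚ_[p]) j l‖ ≤ ε := by
  have h1 : (g⁻¹).1 - 1 = (1 - g.1) * (g⁻¹).1 := by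
    have h2 : g.1 * (g⁻¹).1 = 1 := by
      have := congrArg Subtype.val (mul_inv_cancel g)
      exact this
    rw [sub_mul, one_mul, h2]
  have h3 : (g⁻¹).1 j l - (1 : Matrix (Fin m) (Fin m) ℚ_[p]) j l = ((1 - g.1) * (g⁻¹).1) j l := by
    rw [← h1]
    rfl
  rw [h3]
  have h4 := sp_mul (A := 1 - g.1) (B := (g⁻¹).1) hε0 zero_le_one (fun j l => by
    rw [Matrix.sub_apply, norm_sub_rev]
    exact hg j l) (fun j l => sp_adj (sp_le_one hε hg) j l) j l
  rwa [mul_one] at h4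

private theorem sp_nat {p : ℕ} [Fact p.Prime] {m : ℕ} (A : Matrix (Fin m) (Fin m) ℚ_[p])
    {ε : ℝ} (hε0 : 0 ≤ ε) (hε : ε < 1)
    (hg : ∀ j l, ‖A j l - (1 : Matrix (Fin m) (Fin m) ℚ_[p]) j l‖ ≤ ε) (k : ℕ) :
    ∀ j l, ‖(A ^ k) j l - (1 : Matrix (Fin m) (Fin m) ℚ_[p]) j l‖ ≤ ε := by
  induction k with
  | zero =>
    intro j l
    rw [pow_zero, sub_self, norm_zero]
    exact hε0
  | succ k ih =>
    intro j l
    have h1 : (A ^ (k + 1)) j l - (1 : Matrix (Fin m) (Fin m) ℚ_[p]) j l =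
        ((A ^ k - 1) * A) j l + (A j l - (1 : Matrix (Fin m) (Fin m) ℚ_[p]) j l) := by
      rw [sub_mul, one_mul, ← pow_succ, Matrix.sub_apply]
      ring
    rw [h1]
    apply sp_add _ (hg j l)
    have h4 := sp_mul (A := A ^ k - 1) (B := A) hε0 zero_le_one (fun j l => by
      rw [Matrix.sub_apply]
      exact ih j l) (sp_le_one hε hg) j l
    rwa [mul_one] at h4

theorem near_pow (p : ℕ) [Fact p.Prime] {m : ℕ} (g : SpecialLinearGroup (Fin m) ℚ_[p]) {ε : ℝ}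
    (hε : ε < 1)
    (hg : ∀ j l, ‖g.1 j l - (1 : Matrix (Fin m) (Fin m) ℚ_[p]) j l‖ ≤ ε) (k : ℤ) :
    ∀ j l, ‖(g ^ k).1 j l - (1 : Matrix (Fin m) (Fin m) ℚ_[p]) j l‖ ≤ ε := by
  intro j l
  have hε0 : 0 ≤ ε := (norm_nonneg _).trans (hg j l)
  rcases Int.eq_nat_or_neg k with ⟨n, rfl | rfl⟩
  · rw [zpow_natCast]
    exact sp_nat g.1 hε0 hε hg n j l
  · rw [_root_.zpow_neg, zpow_natCast]
    exact sp_inv (g ^ n) hε0 hε (fun j l => sp_nat g.1 hε0 hε hg n j l) j l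

theorem near_pow_prime (p : ℕ) [Fact p.Prime] {m : ℕ} (g : SpecialLinearGroup (Fin m) ℚ_[p])
    (hg : ∀ j l, ‖g.1 j l - (1 : Matrix (Fin m) (Fin m) ℚ_[p]) j l‖ ≤ (p : ℝ)⁻¹) (i k : ℕ) :
    ∀ j l, ‖(g ^ (p ^ i * k)).1 j l - (1 : Matrix (Fin m) (Fin m) ℚ_[p]) j l‖ ≤
      ((p : ℝ)⁻¹) ^ (i + 1) := by
  have hp1 : 1 < p := (Fact.out : p.Prime).one_lt
  have hp : (1 : ℝ) < (p : ℝ) := by exact_mod_cast hp1
  have hpi : (p : ℝ)⁻¹ < 1 := inv_lt_one_of_one_lt₀ hp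
  have hpi0 : 0 < (p : ℝ)⁻¹ := by positivity
  have key : ∀ i : ℕ, ∀ j l, ‖(g ^ (p ^ i)).1 j l - (1 : Matrix (Fin m) (Fin m) ℚ_[p]) j l‖ ≤
      ((p : ℝ)⁻¹) ^ (i + 1) := by
    intro i
    induction i with
    | zero =>
      intro j l
      rw [pow_zero, pow_one, zero_add, pow_one]
      exact hg j l
    | succ i ih =>
      intro j l
      set h := g ^ (p ^ i) with hh
      have hgh : g ^ (p ^ (i + 1)) = h ^ p := by
        rw [hh, ← pow_mul, pow_succ]
      rw [hgh]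
      have hδ1 : ((p : ℝ)⁻¹) ^ (i + 1) ≤ (p : ℝ)⁻¹ := by
        calc ((p : ℝ)⁻¹) ^ (i + 1) ≤ ((p : ℝ)⁻¹) ^ 1 :=
              pow_le_pow_of_le_one hpi0.le hpi.le (by omega)
          _ = (p : ℝ)⁻¹ := pow_one _
      have hδ0 : 0 ≤ ((p : ℝ)⁻¹) ^ (i + 1) := by positivity
      have e1 : (h ^ p).1 - 1 = (∑ t ∈ Finset.range p, h.1 ^ t) * (h.1 - 1) :=
        (geom_sum_mul h.1 p).symm
      have e2 : (h ^ p).1 j l - (1 : Matrix (Fin m) (Fin m) ℚ_[p]) j l =
          ((∑ t ∈ Finset.range p, h.1 ^ t) * (h.1 - 1)) j l := by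
        rw [← e1]
        rfl
      rw [e2]
      have e3 := sp_mul (A := ∑ t ∈ Finset.range p, h.1 ^ t) (B := h.1 - 1) hpi0.le hδ0 (by
        intro a b
        have e4 : (∑ t ∈ Finset.range p, h.1 ^ t) a b =
            (∑ t ∈ Finset.range p, ((h.1 ^ t) a b -
              (1 : Matrix (Fin m) (Fin m) ℚ_[p]) a b)) +
            (p : ℚ_[p]) * (1 : Matrix (Fin m) (Fin m) ℚ_[p]) a b := by
          rw [Matrix.sum_apply, Finset.sum_sub_distrib, Finset.sum_const, Finset.card_range,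
            nsmul_eq_mul]
          ring
        rw [e4]
        apply sp_add
        · apply IsUltrametricDist.norm_sum_le_of_forall_le_of_nonneg hpi0.le
          intro t _
          exact (sp_nat h.1 hδ0 (hδ1.trans_lt hpi) ih t a b).trans hδ1
        · rw [norm_mul, Padic.norm_p]
          calc (p : ℝ)⁻¹ * ‖(1 : Matrix (Fin m) (Fin m) ℚ_[p]) a b‖ ≤ (p : ℝ)⁻¹ * 1 :=
                mul_le_mul_of_nonneg_left (sp_one a b) hpi0.le
            _ = (p : ℝ)⁻¹ := mul_one _) (fun a b => by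
        rw [Matrix.sub_apply]
        exact ih a b) j l
      refine e3.trans (le_of_eq ?_)
      ring
  intro j l
  have h1 := near_pow p (g ^ (p ^ i)) (ε := ((p : ℝ)⁻¹) ^ (i + 1)) (pow_lt_one₀ hpi0.le hpi
    (by omega)) (key i) (k : ℤ) j l
  rw [zpow_natCast, ← pow_mul] at h1
  exact h1

private theorem sp_tendsto {K : Type} [NontriviallyNormedField K] {m : ℕ}
    {u : ℕ → SpecialLinearGroup (Fin m) K} {h : SpecialLinearGroup (Fin m) K} {e : ℕ → ℝ}
    (he : Tendsto e atTop (𝓝 0)) (hu : ∀ t j l, ‖(u t).1 j l - h.1 j l‖ ≤ e t) :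
    Tendsto u atTop (𝓝 h) := by
  have h1 : Tendsto (fun t => (u t).1) atTop (𝓝 h.1) := by
    refine tendsto_pi_nhds.2 fun j => tendsto_pi_nhds.2 fun l => ?_
    rw [tendsto_iff_norm_sub_tendsto_zero]
    exact squeeze_zero (fun t => norm_nonneg _) (fun t => hu t j l) he
  exact tendsto_subtype_rng.2 h1

theorem split_fin {ι : Type} [Fintype ι] {n₀ : ℕ} {n q : ι → ℕ} [∀ v, Fact (q v).Prime]
    (hq : Function.Injective q) (S : Subgroup (GP n₀ n q)) (hS : IsClosed (S : Set (GP n₀ n q)))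
    (g : GP n₀ n q) (hg : g ∈ S) (h0 : g none = 1)
    (hn : ∀ (v : ι) (j l : Fin (n v)), ‖(paC v g).1 j l -
      (1 : Matrix (Fin (n v)) (Fin (n v)) ℚ_[q v]) j l‖ ≤ ((q v : ℕ) : ℝ)⁻¹) (v : ι) :
    paC v g ∈ paPart S v := by
  classical
  refine (mem_partAt S (some v) (paC v g)).2 ?_
  have hprime : ∀ v, (q v).Prime := fun v => Fact.out
  set M : ℕ := ∏ w ∈ Finset.univ.erase v, q w with hM
  set N : ℕ → ℕ := fun t => M ^ ((q v - 1) * (q v) ^ t) with hN
  have hcop : Nat.Coprime M (q v) := by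
    rw [hM, Nat.coprime_prod_left_iff]
    intro w hw
    rw [Nat.coprime_primes (hprime w) (hprime v)]
    intro h
    exact (Finset.mem_erase.1 hw).1 (hq h)
  have hcong : ∀ t, ∃ k, N t = 1 + (q v) ^ (t + 1) * k := by
    intro t
    have h1 : M ^ Nat.totient ((q v) ^ (t + 1)) ≡ 1 [MOD (q v) ^ (t + 1)] :=
      Nat.ModEq.pow_totient (hcop.pow_right _)
    rw [Nat.totient_prime_pow_succ (hprime v), mul_comm] at h1
    have hMpos : 0 < M := Finset.prod_pos fun w _ => (hprime w).pos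
    have h2 : (q v) ^ (t + 1) ∣ N t - 1 := by
      have := (Nat.modEq_iff_dvd' (Nat.one_le_pow _ _ hMpos)).1 h1.symm
      exact this
    obtain ⟨k, hk⟩ := h2
    refine ⟨k, ?_⟩
    have h3 : 1 ≤ N t := Nat.one_le_pow _ _ hMpos
    omega
  have hdvd : ∀ w, w ≠ v → ∀ t, ∃ k, N t = (q w) ^ t * k := by
    intro w hw t
    have h1 : q w ∣ M := Finset.dvd_prod_of_mem q (Finset.mem_erase.2 ⟨hw, Finset.mem_univ w⟩)
    have h2 : t ≤ (q v - 1) * (q v) ^ t := by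
      have h3 : t < (q v) ^ t := Nat.lt_pow_self (hprime v).one_lt
      have h4 : 1 ≤ q v - 1 := by
        have := (hprime v).two_le
        omega
      calc t ≤ 1 * (q v) ^ t := by omega
        _ ≤ (q v - 1) * (q v) ^ t := Nat.mul_le_mul_right _ h4
    obtain ⟨k, hk⟩ := (pow_dvd_pow_of_dvd h1 t).trans (pow_dvd_pow M h2)
    exact ⟨k, hk⟩
  have hlim : Tendsto (fun t => g ^ (N t)) atTop (𝓝 (Pi.mulSingle (some v) (paC v g))) := by
    refine tendsto_pi_nhds.2 fun i => ?_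
    rcases i with _ | w
    · have h1 : ∀ t, (g ^ (N t)) none = (Pi.mulSingle (some v) (paC v g) : GP n₀ n q) none := by
        intro t
        rw [Pi.pow_apply, h0, one_pow, Pi.mulSingle_eq_of_ne (by simp)]
      simp only [h1]
      exact tendsto_const_nhds
    · by_cases hw : w = v
      · subst hw
        rw [Pi.mulSingle_eq_same]
        have hpos : (1 : ℝ) < ((q w : ℕ) : ℝ) := by exact_mod_cast (hprime w).one_lt
        have he : Tendsto (fun t : ℕ => (((q w : ℕ) : ℝ)⁻¹) ^ (t + 1 + 1)) atTop (𝓝 0) :=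
          (tendsto_pow_atTop_nhds_zero_of_lt_one (by positivity)
            (inv_lt_one_of_one_lt₀ hpos)).comp (tendsto_add_atTop_nat 2)
        refine sp_tendsto (K := ℚ_[q w]) (m := n w) he ?_
        intro t j l
        obtain ⟨k, hk⟩ := hcong t
        have h1 : (g ^ (N t)) (some w) = paC w g * (paC w g) ^ ((q w) ^ (t + 1) * k) := by
          rw [Pi.pow_apply, hk, pow_add, pow_one]
          rfl
        rw [h1]
        have h2 : (paC w g * (paC w g) ^ ((q w) ^ (t + 1) * k)).1 j l - (paC w g).1 j l =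
            ((paC w g).1 * (((paC w g) ^ ((q w) ^ (t + 1) * k)).1 - 1)) j l := by
          rw [mul_sub, mul_one]
          rfl
        rw [h2]
        have h3 := sp_mul (A := (paC w g).1) (B := ((paC w g) ^ ((q w) ^ (t + 1) * k)).1 - 1)
          zero_le_one (b := (((q w : ℕ) : ℝ)⁻¹) ^ (t + 1 + 1)) (by positivity)
          (sp_le_one (inv_lt_one_of_one_lt₀ hpos) (hn w))
          (fun a b => near_pow_prime (q w) (paC w g) (hn w) (t + 1) k a b) j l
        rwa [one_mul] at h3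
      · rw [Pi.mulSingle_eq_of_ne (by simpa using hw)]
        have hpos : (1 : ℝ) < ((q w : ℕ) : ℝ) := by exact_mod_cast (hprime w).one_lt
        have he : Tendsto (fun t : ℕ => (((q w : ℕ) : ℝ)⁻¹) ^ (t + 1)) atTop (𝓝 0) :=
          (tendsto_pow_atTop_nhds_zero_of_lt_one (by positivity)
            (inv_lt_one_of_one_lt₀ hpos)).comp (tendsto_add_atTop_nat 1)
        refine sp_tendsto (K := ℚ_[q w]) (m := n w) he ?_
        intro t j l
        obtain ⟨k, hk⟩ := hdvd w hw t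
        have h1 : (g ^ (N t)) (some w) = (paC w g) ^ ((q w) ^ t * k) := by
          rw [Pi.pow_apply, hk]
          rfl
        rw [h1]
        exact near_pow_prime (q w) (paC w g) (hn w) t k j l
  exact hS.mem_of_tendsto hlim (Eventually.of_forall fun t => S.pow_mem hg _)

end Pool.Agent.Work.MP_67388f_an.HM
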