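import Pool.Agent.Work.MP_67388f_an.HM.EX
import Pool.Agent.Work.MP_67388f_an.HM.CH
import Pool.Agent.Work.MP_67388f_an.HM.SP

/-!
# RD (size M-L): directions of a closed subgroup at the real place

## Proof
Let `𝔸 = Matrix (Fin n₀) (Fin n₀) ℝ` with the local instances `Matrix.linftyOpNormedRing`,
`Matrix.linftyOpNormedAlgebra`; `exp_local` applies (`expSeries_radius_pos`). For large `k` write
`(reC (g k)).1 = exp (x k)` with `‖x k - (reC (g k) - 1)‖ ≤ ε_k ‖x k‖`, `ε_k → 0`, `‖x k‖ ≤ 2 ‖reC (g k) - 1‖ → 0`, and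
`x k ≠ 0` as `reC (g k) ≠ 1`. The unit vectors `x k / ‖x k‖` have a subsequence converging to some `x` with
`‖x‖ = 1` (compactness of the unit sphere of the finite-dimensional `𝔸`). The entries of `x` outside `J` vanish:
`(reC (g k) - 1) / ‖x k‖ → x` too along the subsequence and its entries outside `J` are zero.
`w = entries of x`; `w ≠ 0`. Claim: for every `t : ℝ` the matrix `exp (t • x)` has determinant one and the element
`(exp (t • x), 1, ..., 1)` is in `S`. Let `m k = ⌊t / ‖x k‖⌋` (integers); `m k • x k → t • x` along the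
subsequence (`|m k ‖x k‖ - t| ≤ ‖x k‖ → 0`). `(g k) ^ (m k) ∈ S`, its real component has the matrix
`exp (m k • x k) → exp (t • x)` (`Matrix.exp_zsmul` or induction with commuting exponentials; continuity of
`exp`), so the determinant is one; the p-adic components of `(g k) ^ (m k)` tend to `1`, since those of `g k` do
(`near_pow`: powers are not farther from `1`). `S` is closed. The curve `e t =` the element of `SL` with matrix
`exp (t • x)` is continuous, `e 0 = 1`, with values in `rePart S` (all `h` with `Pi.mulSingle none h ∈ S`), strictly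
differentiable at `0` with derivative `x` (`hasStrictFDerivAt_exp_zero` composed with `t ↦ t • x`, or
`hasStrictDerivAt_exp_smul_const`; pass to the entries). So `w ∈ Vel (rePart S)`.
-/

set_option autoImplicit false

namespace Pool.Agent.Work.MP_67388f_an.HM

open Filter Topology Matrix
open Pool.Agent.Work.MP_67388f_an.EM (GG Near Rt)

section common

private def MA (m : ℕ) (K : Type) : Type := Matrix (Fin m) (Fin m) K

variable {m : ℕ} {K : Type} [NontriviallyNormedField K]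

open scoped Matrix.Norms.Operator in
private noncomputable instance instMARing : NormedRing (MA m K) :=
  (inferInstance : NormedRing (Matrix (Fin m) (Fin m) K))

open scoped Matrix.Norms.Operator in
private noncomputable instance instMAAlg : NormedAlgebra K (MA m K) :=
  (inferInstance : NormedAlgebra K (Matrix (Fin m) (Fin m) K))

private instance instMAFin : FiniteDimensional K (MA m K) :=
  (inferInstance : FiniteDimensional K (Matrix (Fin m) (Fin m) K))

private def entL : MA m K ≃ₗ[K] (Fin m × Fin m → K) where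
  toFun A ψ := (show Matrix (Fin m) (Fin m) K from A) ψ.1 ψ.2
  invFun w := (show Matrix (Fin m) (Fin m) K from Matrix.of fun i j => w (i, j))
  map_add' _ _ := rfl
  map_smul' _ _ := rfl
  left_inv _ := rfl
  right_inv _ := rfl

private def toMA (A : Matrix (Fin m) (Fin m) K) : MA m K := A

private def ofMA (A : MA m K) : Matrix (Fin m) (Fin m) K := A

omit [NontriviallyNormedField K] in
private theorem ofMA_toMA (A : Matrix (Fin m) (Fin m) K) : ofMA (toMA A) = A := rfl

private theorem ofMA_mul (A B : MA m K) : ofMA (A * B) = ofMA A * ofMA B := rfl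

private theorem ofMA_one : ofMA (1 : MA m K) = 1 := rfl

private theorem ofMA_pow (A : MA m K) (k : ℕ) : ofMA (A ^ k) = ofMA A ^ k := by
  induction k with
  | zero => rw [pow_zero, pow_zero, ofMA_one]
  | succ k ih => rw [pow_succ, pow_succ, ofMA_mul, ih]

variable [CompleteSpace K]

private instance instMAComplete : CompleteSpace (MA m K) := FiniteDimensional.complete K (MA m K)

private noncomputable def entC : MA m K ≃L[K] (Fin m × Fin m → K) :=
  (entL : MA m K ≃ₗ[K] (Fin m × Fin m → K)).toContinuousLinearEquiv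

private theorem entC_apply (A : MA m K) (ψ : Fin m × Fin m) : entC A ψ = ofMA A ψ.1 ψ.2 := rfl

private theorem continuous_ofMA : Continuous (ofMA : MA m K → Matrix (Fin m) (Fin m) K) := by
  refine continuous_matrix fun i j => ?_
  have h1 : Continuous fun A : MA m K => entC A (i, j) :=
    (continuous_apply (i, j)).comp entC.continuous
  exact h1

omit [CompleteSpace K] in
private theorem bounds_aux {V W : Type} [NormedAddCommGroup V] [NormedSpace K V]
    [NormedAddCommGroup W] [NormedSpace K W] (E : V ≃L[K] W) :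
    ∃ C1 C2 : ℝ, 0 ≤ C1 ∧ 0 ≤ C2 ∧ (∀ v, ‖v‖ ≤ C1 * ‖E v‖) ∧ ∀ v, ‖E v‖ ≤ C2 * ‖v‖ :=
  ⟨‖(E.symm : W →L[K] V)‖, ‖(E : V →L[K] W)‖, norm_nonneg _, norm_nonneg _,
    fun v => by
      have h := (E.symm : W →L[K] V).le_opNorm (E v)
      have h2 : (E.symm : W →L[K] V) (E v) = v := E.symm_apply_apply v
      rwa [h2] at h, fun v => (E : V →L[K] W).le_opNorm v⟩

end common

private theorem exp_zpow_aux {m : ℕ} (x : MA m ℝ) (h : SpecialLinearGroup (Fin m) ℝ)
    (hx : NormedSpace.exp x = toMA h.1) (z : ℤ) :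
    NormedSpace.exp ((z : ℝ) • x) = toMA (h ^ z).1 := by
  let _ : NormedAlgebra ℚ (MA m ℝ) := NormedAlgebra.restrictScalars ℚ ℝ (MA m ℝ)
  have hadd : ∀ a b : ℝ, NormedSpace.exp ((a + b) • x) =
      NormedSpace.exp (a • x) * NormedSpace.exp (b • x) := by
    intro a b
    rw [add_smul]
    exact NormedSpace.exp_add_of_commute (((Commute.refl x).smul_left a).smul_right b)
  have hinv : NormedSpace.exp ((-1 : ℝ) • x) = toMA (h⁻¹).1 := by
    have h1 : NormedSpace.exp x * NormedSpace.exp ((-1 : ℝ) • x) = 1 := by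
      have h2 := hadd 1 (-1)
      rw [one_smul, add_neg_cancel, zero_smul, NormedSpace.exp_zero] at h2
      exact h2.symm
    have h3 : toMA (h⁻¹).1 * toMA h.1 = (1 : MA m ℝ) := by
      have h4 : (h⁻¹ * h).1 = (h⁻¹).1 * h.1 := rfl
      rw [inv_mul_cancel] at h4
      exact h4.symm
    rw [hx] at h1
    calc NormedSpace.exp ((-1 : ℝ) • x) = (toMA (h⁻¹).1 * toMA h.1) *
          NormedSpace.exp ((-1 : ℝ) • x) := by rw [h3, one_mul]
      _ = toMA (h⁻¹).1 * (toMA h.1 * NormedSpace.exp ((-1 : ℝ) • x)) := mul_assoc _ _ _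
      _ = toMA (h⁻¹).1 := by rw [h1, mul_one]
  induction z using Int.induction_on with
  | zero =>
    rw [Int.cast_zero, zero_smul, NormedSpace.exp_zero, zpow_zero]
    rfl
  | succ k ih =>
    push_cast at ih ⊢
    rw [hadd, ih, one_smul, hx, _root_.zpow_add_one]
    rfl
  | pred k ih =>
    push_cast at ih ⊢
    rw [sub_eq_add_neg, hadd, ih, hinv, _root_.zpow_sub_one]
    rfl

private theorem cont_exp {m : ℕ} : Continuous (NormedSpace.exp : MA m ℝ → MA m ℝ) := by
  let _ : NormedAlgebra ℚ (MA m ℝ) := NormedAlgebra.restrictScalars ℚ ℝ (MA m ℝ)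
  exact NormedSpace.exp_continuous

private theorem tendsto_SL {K : Type} [NontriviallyNormedField K] {m : ℕ}
    {F : ℕ → SpecialLinearGroup (Fin m) K} {a : SpecialLinearGroup (Fin m) K}
    (h : ∀ i j, Tendsto (fun k => (F k).1 i j) atTop (𝓝 (a.1 i j))) :
    Tendsto F atTop (𝓝 a) := by
  refine IsInducing.subtypeVal.tendsto_nhds_iff.2 ?_
  refine tendsto_pi_nhds.2 fun i => tendsto_pi_nhds.2 fun j => h i j

private theorem entries_SL {K : Type} [NontriviallyNormedField K] {m : ℕ}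
    {F : ℕ → SpecialLinearGroup (Fin m) K} {a : SpecialLinearGroup (Fin m) K}
    (h : Tendsto F atTop (𝓝 a)) (i j : Fin m) :
    Tendsto (fun k => (F k).1 i j) atTop (𝓝 (a.1 i j)) := by
  have h1 := IsInducing.subtypeVal.tendsto_nhds_iff.1 h
  exact tendsto_pi_nhds.1 (tendsto_pi_nhds.1 h1 i) j

private theorem tendsto_single {I : Type} [DecidableEq I] {n : I → ℕ} {K : I → Type}
    [∀ i, NontriviallyNormedField (K i)] (F : ℕ → GG n K) (i₀ : I)
    (h : SpecialLinearGroup (Fin (n i₀)) (K i₀)) (h1 : Tendsto (fun k => F k i₀) atTop (𝓝 h))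
    (h2 : ∀ i, i ≠ i₀ → Tendsto (fun k => F k i) atTop (𝓝 1)) :
    Tendsto F atTop (𝓝 (Pi.mulSingle i₀ h)) := by
  refine tendsto_pi_nhds.2 fun i => ?_
  by_cases hi : i = i₀
  · subst hi
    rw [Pi.mulSingle_eq_same]
    exact h1
  · rw [Pi.mulSingle_eq_of_ne hi]
    exact h2 i hi

theorem real_direction {ι : Type} [Fintype ι] {n₀ : ℕ} {n q : ι → ℕ} [∀ v, Fact (q v).Prime]
    (S : Subgroup (GP n₀ n q)) (hS : IsClosed (S : Set (GP n₀ n q)))
    (J : Finset (Fin n₀ × Fin n₀)) (g : ℕ → GP n₀ n q) (hg : ∀ k, g k ∈ S)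
    (hlim : Tendsto g atTop (𝓝 1)) (hne : ∀ k, reC (g k) ≠ 1)
    (hJ : ∀ k, ∀ ψ : Fin n₀ × Fin n₀, ψ ∉ J →
      (reC (g k)).1 ψ.1 ψ.2 = (1 : Matrix (Fin n₀) (Fin n₀) ℝ) ψ.1 ψ.2) :
    ∃ w ∈ Vel (rePart S : Set (SpecialLinearGroup (Fin n₀) ℝ)),
      w ≠ 0 ∧ ∀ ψ, ψ ∉ J → w ψ = 0 := by
  classical
  have hprop : ProperSpace (MA n₀ ℝ) := FiniteDimensional.proper ℝ (MA n₀ ℝ)
  set E : MA n₀ ℝ ≃L[ℝ] (Fin n₀ × Fin n₀ → ℝ) := entC with hE
  obtain ⟨C1, C2, hC10, hC20, hb1, hb2⟩ := bounds_aux E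
  have hrad : 0 < (NormedSpace.expSeries ℝ (MA n₀ ℝ)).radius :=
    NormedSpace.expSeries_radius_pos ℝ (MA n₀ ℝ)
  obtain ⟨c, hc, H⟩ := exp_local (𝕂 := ℝ) (𝔸 := MA n₀ ℝ) hrad (ε := 1 / 2) (by norm_num)
  -- the real components converge
  have hGlim0 : Tendsto (fun k => (toMA (reC (g k)).1 : MA n₀ ℝ) - 1) atTop (𝓝 0) := by
    have h0 : Tendsto (fun k => reC (g k)) atTop (𝓝 (1 : SpecialLinearGroup (Fin n₀) ℝ)) :=
      (tendsto_pi_nhds.1 hlim) none
    have h1 : Tendsto (fun k => E (toMA (reC (g k)).1 - 1)) atTop (𝓝 0) := by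
      refine tendsto_pi_nhds.2 fun ψ => ?_
      have h2 := (entries_SL h0 ψ.1 ψ.2).sub_const
        ((1 : SpecialLinearGroup (Fin n₀) ℝ).1 ψ.1 ψ.2)
      rw [sub_self] at h2
      exact h2
    have h2 := (E.symm.continuous.tendsto 0).comp h1
    rw [map_zero] at h2
    refine h2.congr fun k => ?_
    exact E.symm_apply_apply _
  obtain ⟨N, hN⟩ : ∃ N, ∀ k, N ≤ k → ‖(toMA (reC (g k)).1 : MA n₀ ℝ) - 1‖ ≤ c := by
    have h1 := (hGlim0.norm).eventually (ge_mem_nhds (by rw [norm_zero]; exact hc))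
    exact eventually_atTop.1 h1
  set g' : ℕ → GP n₀ n q := fun k => g (k + N) with hg'
  set G : ℕ → MA n₀ ℝ := fun k => toMA (reC (g' k)).1 with hG
  have hGlim : Tendsto (fun k => G k - 1) atTop (𝓝 0) := hGlim0.comp (tendsto_add_atTop_nat N)
  have hlim' : Tendsto g' atTop (𝓝 1) := hlim.comp (tendsto_add_atTop_nat N)
  have hx : ∀ k, ∃ x : MA n₀ ℝ, NormedSpace.exp x = G k ∧ ‖x‖ ≤ 2 * ‖G k - 1‖ := by
    intro k
    obtain ⟨x, h1, h2, h3⟩ := H (G k) (hN (k + N) (Nat.le_add_left _ _))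
    exact ⟨x, h1, h3⟩
  choose x hx1 hx2 using hx
  have hx0 : ∀ k, x k ≠ 0 := by
    intro k h
    apply hne (k + N)
    have h1 := hx1 k
    rw [h, NormedSpace.exp_zero] at h1
    apply Subtype.ext
    exact h1.symm
  have hxpos : ∀ k, 0 < ‖x k‖ := fun k => norm_pos_iff.2 (hx0 k)
  have hxlim : Tendsto x atTop (𝓝 0) := by
    refine squeeze_zero_norm hx2 ?_
    have := hGlim.norm.const_mul 2
    rwa [norm_zero, mul_zero] at this
  set u : ℕ → MA n₀ ℝ := fun k => (‖x k‖⁻¹ : ℝ) • x k with hu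
  have hu1 : ∀ k, u k ∈ Metric.sphere (0 : MA n₀ ℝ) 1 := by
    intro k
    rw [mem_sphere_zero_iff_norm, hu]
    show ‖(‖x k‖⁻¹ : ℝ) • x k‖ = 1
    rw [norm_smul, norm_inv, norm_norm, inv_mul_cancel₀ (hxpos k).ne']
  obtain ⟨U, hU, φ, hφ, hUlim⟩ := (isCompact_sphere (0 : MA n₀ ℝ) 1).tendsto_subseq hu1
  have hU1 : ‖U‖ = 1 := by rwa [mem_sphere_zero_iff_norm] at hU
  have hφt := hφ.tendsto_atTop
  -- entries outside `J`
  have hout : ∀ ψ, ψ ∉ J → E U ψ = 0 := by
    intro ψ hψ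
    have h1 : Tendsto (fun k => E (u (φ k)) ψ) atTop (𝓝 (E U ψ)) :=
      ((continuous_apply ψ).tendsto _).comp ((E.continuous.tendsto _).comp hUlim)
    have h2 : Tendsto (fun k => E (u k) ψ) atTop (𝓝 0) := by
      have h3 := (hasFDerivAt_iff_tendsto).1
        (hasFDerivAt_exp_zero_of_radius_pos (𝕂 := ℝ) (𝔸 := MA n₀ ℝ) hrad)
      have h4 := (h3.comp hxlim).const_mul C2
      rw [mul_zero] at h4
      refine squeeze_zero_norm (fun k => ?_) h4
      have h5 : E (u k) ψ = ‖x k‖⁻¹ * E (x k) ψ := by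
        rw [hu]
        show E ((‖x k‖⁻¹ : ℝ) • x k) ψ = _
        rw [map_smul]
        rfl
      have h6 : E (G k - 1) ψ = 0 := by
        have := hJ (k + N) ψ hψ
        show (reC (g' k)).1 ψ.1 ψ.2 - (1 : Matrix (Fin n₀) (Fin n₀) ℝ) ψ.1 ψ.2 = 0
        rw [hg']
        show (reC (g (k + N))).1 ψ.1 ψ.2 - (1 : Matrix (Fin n₀) (Fin n₀) ℝ) ψ.1 ψ.2 = 0
        rw [this, sub_self]
      have h7 : E (x k) ψ = - E (G k - 1 - x k) ψ := by
        rw [map_sub E (G k - 1) (x k)]
        show _ = -(E (G k - 1) ψ - E (x k) ψ)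
        rw [h6]; ring
      have h8 : ‖E (G k - 1 - x k) ψ‖ ≤ C2 * ‖G k - 1 - x k‖ :=
        (norm_le_pi_norm _ _).trans (hb2 _)
      rw [h5, h7, norm_mul, norm_inv, norm_norm, norm_neg]
      have h9 : ((fun x' : MA n₀ ℝ => ‖x' - 0‖⁻¹ * ‖NormedSpace.exp x' - NormedSpace.exp 0 -
          (1 : MA n₀ ℝ →L[ℝ] MA n₀ ℝ) (x' - 0)‖) ∘ x) k = ‖x k‖⁻¹ * ‖G k - 1 - x k‖ := by
        simp only [Function.comp_apply, sub_zero, NormedSpace.exp_zero, hx1]
        rfl
      have h10 : ‖x k‖⁻¹ * ‖E (G k - 1 - x k) ψ‖ ≤ C2 * (‖x k‖⁻¹ * ‖G k - 1 - x k‖) :=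
        calc ‖x k‖⁻¹ * ‖E (G k - 1 - x k) ψ‖ ≤ ‖x k‖⁻¹ * (C2 * ‖G k - 1 - x k‖) :=
            mul_le_mul_of_nonneg_left h8 (inv_nonneg.2 (norm_nonneg _))
        _ = C2 * (‖x k‖⁻¹ * ‖G k - 1 - x k‖) := by ring
      exact h10.trans (le_of_eq (congrArg (fun y => C2 * y) h9.symm))
    exact tendsto_nhds_unique h1 (h2.comp hφt)
  -- the one parameter group
  have hpar : ∀ t : ℝ, ∃ m : ℕ → ℤ, Tendsto (fun k => NormedSpace.exp ((m k : ℝ) • x (φ k)))
      atTop (𝓝 (NormedSpace.exp (t • U))) := by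
    intro t
    refine ⟨fun k => ⌊t / ‖x (φ k)‖⌋, ?_⟩
    refine (cont_exp.tendsto _).comp ?_
    have h1 : Tendsto (fun k => ((⌊t / ‖x (φ k)‖⌋ : ℤ) : ℝ) * ‖x (φ k)‖) atTop (𝓝 t) := by
      have h2 : Tendsto (fun k => ‖x (φ k)‖) atTop (𝓝 0) := by
        have := (hxlim.comp hφt).norm
        rwa [norm_zero] at this
      rw [tendsto_iff_norm_sub_tendsto_zero]
      refine squeeze_zero (fun _ => norm_nonneg _) (fun k => ?_) h2
      have h3 := hxpos (φ k)
      have h4 := Int.floor_le (t / ‖x (φ k)‖)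
      have h5 := Int.lt_floor_add_one (t / ‖x (φ k)‖)
      rw [le_div_iff₀ h3] at h4
      rw [div_lt_iff₀ h3] at h5
      rw [Real.norm_eq_abs, abs_le]
      constructor
      · linarith
      · linarith
    have h2 := h1.smul hUlim
    refine h2.congr fun k => ?_
    show (((⌊t / ‖x (φ k)‖⌋ : ℤ) : ℝ) * ‖x (φ k)‖) • ((‖x (φ k)‖⁻¹ : ℝ) • x (φ k)) = _
    rw [smul_smul, mul_assoc, mul_inv_cancel₀ (hxpos _).ne', mul_one]
  have hpow : ∀ (z : ℤ) (k : ℕ), NormedSpace.exp ((z : ℝ) • x k) = toMA (reC (g' k) ^ z).1 :=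
    fun z k => exp_zpow_aux (x k) (reC (g' k)) (hx1 k) z
  have hdet : ∀ t : ℝ, (ofMA (NormedSpace.exp (t • U))).det = 1 := by
    intro t
    obtain ⟨m, hm⟩ := hpar t
    have h1 : Tendsto (fun k => (ofMA (NormedSpace.exp ((m k : ℝ) • x (φ k)))).det) atTop
        (𝓝 (ofMA (NormedSpace.exp (t • U))).det) :=
      ((continuous_ofMA.matrix_det).tendsto _).comp hm
    refine tendsto_nhds_unique h1 ?_
    refine tendsto_const_nhds.congr fun k => ?_
    rw [hpow, ofMA_toMA]
    exact (reC (g' (φ k)) ^ m k).2.symm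
  set h : ℝ → SpecialLinearGroup (Fin n₀) ℝ :=
    fun t => ⟨ofMA (NormedSpace.exp (t • U)), hdet t⟩ with hh
  have hmem : ∀ t, h t ∈ rePart S := by
    intro t
    obtain ⟨m, hm⟩ := hpar t
    refine (mem_partAt S none (h t)).2 ?_
    refine hS.mem_of_tendsto (f := fun k => g' (φ k) ^ m k) (b := atTop) ?_
      (Eventually.of_forall fun k => S.zpow_mem (hg _) _)
    refine tendsto_single (n := Rk n₀ n) (K := Fld q) (fun k => g' (φ k) ^ m k) none (h t) ?_ ?_
    · show Tendsto (fun k => reC (g' (φ k)) ^ m k) atTop (𝓝 (h t))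
      refine tendsto_SL fun i j => ?_
      have h1 : Tendsto (fun k => E (NormedSpace.exp ((m k : ℝ) • x (φ k))) (i, j)) atTop
          (𝓝 (E (NormedSpace.exp (t • U)) (i, j))) :=
        ((continuous_apply (i, j)).tendsto _).comp ((E.continuous.tendsto _).comp hm)
      refine h1.congr fun k => ?_
      rw [hpow]
      rfl
    · intro i hi
      cases i with
      | none => exact absurd rfl hi
      | some v =>
      show Tendsto (fun k => paC v (g' (φ k)) ^ m k) atTop
        (𝓝 (1 : SpecialLinearGroup (Fin (n v)) ℚ_[q v]))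
      have h0 : Tendsto (fun k => paC v (g' (φ k))) atTop
          (𝓝 (1 : SpecialLinearGroup (Fin (n v)) ℚ_[q v])) :=
        (tendsto_pi_nhds.1 (hlim'.comp hφt)) (some v)
      refine tendsto_SL fun i j => ?_
      rw [Metric.tendsto_atTop]
      intro ε hε
      have h1 : ∀ᶠ k in atTop, ∀ j l, ‖(paC v (g' (φ k))).1 j l -
          (1 : Matrix (Fin (n v)) (Fin (n v)) ℚ_[q v]) j l‖ ≤ min (ε / 2) (1 / 2) := by
        rw [eventually_all]
        intro j
        rw [eventually_all]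
        intro l
        have h2 := entries_SL h0 j l
        have h3 := (tendsto_iff_norm_sub_tendsto_zero.1 h2).eventually
          (ge_mem_nhds (show (0 : ℝ) < min (ε / 2) (1 / 2) by positivity))
        exact h3
      obtain ⟨M, hM⟩ := eventually_atTop.1 h1
      refine ⟨M, fun k hk => ?_⟩
      have h2 := near_pow (q v) (paC v (g' (φ k))) (ε := min (ε / 2) (1 / 2))
        (lt_of_le_of_lt (min_le_right _ _) (by norm_num)) (hM k hk) (m k) i j
      rw [dist_eq_norm]
      refine lt_of_le_of_lt h2 (lt_of_le_of_lt (min_le_left _ _) (by linarith))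
  refine ⟨E U, ⟨h, ?_, ?_, hmem, ?_⟩, ?_, hout⟩
  · refine Continuous.subtype_mk ?_ _
    exact continuous_ofMA.comp (cont_exp.comp (continuous_id.smul continuous_const))
  · apply Subtype.ext
    show ofMA (NormedSpace.exp ((0 : ℝ) • U)) = 1
    rw [zero_smul, NormedSpace.exp_zero, ofMA_one]
  · have h1 := hasStrictDerivAt_exp_smul_const (𝕂 := ℝ) U (0 : ℝ)
    rw [zero_smul, NormedSpace.exp_zero, one_mul] at h1
    exact E.hasStrictFDerivAt.comp_hasStrictDerivAt (0 : ℝ) h1
  · intro h0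
    have h1 : U = 0 := by
      have := congrArg E.symm h0
      rw [map_zero] at this
      rw [← this]
      exact (E.symm_apply_apply U).symm
    rw [h1, norm_zero] at hU1
    exact zero_ne_one hU1

end Pool.Agent.Work.MP_67388f_an.HM
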