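import Pool.Agent.Work.MP_67388f_an.HM.PL
import Pool.Agent.Work.MP_67388f_an.HM.RD

/-!
# IS (size M): isolation for a closed subgroup of the product over all places

## Proof
`isClosed_partAt` : `h ↦ Pi.mulSingle i h` is continuous.
`exists_isol` : suppose there is no such `c₀`: for every `k : ℕ` there is `g k ∈ S` with
`Near (g k) (1 / (k + 1))`, `OnT J (g k)`, `g k ≠ 1`; so `g k → 1` (`EM.hasBasis_near`).
(A) If `reC (g k) ≠ 1` for infinitely many `k`, pass to this subsequence: `real_direction` gives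
`w ∈ Vel (partAt S none)`, `w ≠ 0`, vanishing outside `J none`; `hV none` with `B = 0` gives `‖w‖ ≤ 0`,
contradiction.
(B) Otherwise `reC (g k) = 1` for all large `k`. For each `v : ι` let `c v` be from `padic_isol` for
`T = partAt S (some v)` (closed), `J (some v)`. For `k` so large that also `1/(k+1) ≤ c v` and
`1/(k+1) ≤ (q v)⁻¹` for all `v`: `split_fin` gives `g k (some v) ∈ partAt S (some v)`, so `g k (some v) = 1` by
`padic_isol`, for all `v`; hence `g k = 1`, contradiction.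
-/

set_option autoImplicit false

namespace Pool.Agent.Work.MP_67388f_an.HM

open Filter Topology Matrix
open Pool.Agent.Work.MP_67388f_an.EM (GG Near Rt)

theorem isClosed_partAt {I : Type} {n : I → ℕ} {K : I → Type}
    [∀ i, NontriviallyNormedField (K i)] (S : Subgroup (GG n K)) (hS : IsClosed (S : Set (GG n K)))
    (i : I) : IsClosed (partAt S i : Set (SpecialLinearGroup (Fin (n i)) (K i))) := by
  classical
  have h1 : (partAt S i : Set (SpecialLinearGroup (Fin (n i)) (K i))) =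
      (fun h => (Pi.mulSingle i h : GG n K)) ⁻¹' (S : Set (GG n K)) := by
    ext h
    exact mem_partAt S i h
  rw [h1]
  exact hS.preimage (continuous_mulSingle i)

theorem exists_isol {ι : Type} [Fintype ι] {n₀ : ℕ} {n q : ι → ℕ} [∀ v, Fact (q v).Prime]
    (hq : Function.Injective q) (S : Subgroup (GP n₀ n q)) (hS : IsClosed (S : Set (GP n₀ n q)))
    (J : ∀ i : Option ι, Finset (Fin (Rk n₀ n i) × Fin (Rk n₀ n i))) (A : Option ι → ℝ)
    (hA : ∀ i, 0 ≤ A i)
    (hV : ∀ i, ∀ w ∈ Vel (partAt S i : Set (SpecialLinearGroup (Fin (Rk n₀ n i)) (Fld q i))),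
      ∀ B : ℝ, 0 ≤ B → (∀ ψ, ψ ∉ J i → ‖w ψ‖ ≤ B) → ‖w‖ ≤ A i * B) :
    ∃ c₀ > 0, ∀ g ∈ S, Near g c₀ → OnT J g → g = 1 := by
  by_contra hcon
  have H : ∀ k : ℕ, ∃ g ∈ S, Near g (1 / ((k : ℝ) + 1)) ∧ OnT J g ∧ g ≠ 1 := by
    intro k
    by_contra hk
    refine hcon ⟨1 / ((k : ℝ) + 1), by positivity, fun g hg hN hJ => ?_⟩
    by_contra hne
    exact hk ⟨g, hg, hN, hJ, hne⟩
  choose g hgS hgN hgJ hg1 using H
  have hev : ∀ ε : ℝ, 0 < ε → ∀ᶠ k : ℕ in atTop, 1 / ((k : ℝ) + 1) ≤ ε := by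
    intro ε hε
    have h1 := tendsto_one_div_add_atTop_nhds_zero_nat (𝕜 := ℝ)
    exact (h1.eventually_lt_const hε).mono fun k hk => hk.le
  have hlim : Tendsto g atTop (𝓝 1) := by
    rw [EM.hasBasis_near.tendsto_right_iff]
    intro ε hε
    refine (hev ε hε).mono fun k hk => ?_
    intro i j l
    exact (hgN k i j l).trans hk
  by_cases hA1 : ∃ᶠ k in atTop, reC (g k) ≠ 1
  · obtain ⟨φ, hφ, hφ1⟩ := extraction_of_frequently_atTop hA1
    obtain ⟨w, hw, hw0, hwJ⟩ := real_direction S hS (J none) (g ∘ φ) (fun k => hgS _)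
      (hlim.comp hφ.tendsto_atTop) hφ1 (fun k ψ hψ => hgJ (φ k) none ψ.1 ψ.2 hψ)
    have h1 := hV none w hw 0 le_rfl (fun ψ hψ => by
      have h2 : w ψ = 0 := hwJ ψ hψ
      rw [h2]
      exact norm_zero.le)
    rw [mul_zero] at h1
    exact hw0 (norm_le_zero_iff.1 h1)
  · have hB : ∀ᶠ k in atTop, reC (g k) = 1 := by
      rw [Filter.not_frequently] at hA1
      exact hA1.mono fun k hk => not_not.1 hk
    have hP := fun v : ι => padic_isol (q v) (paPart S v) (isClosed_partAt S hS (some v)) (J (some v))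
      (hA (some v)) (hV (some v))
    choose c hc hcP using hP
    have hq0 : ∀ v : ι, 0 < ((q v : ℕ) : ℝ)⁻¹ := by
      intro v
      have := (Fact.out : (q v).Prime).pos
      positivity
    have hE : ∀ᶠ k : ℕ in atTop, ∀ v : ι, 1 / ((k : ℝ) + 1) ≤ c v ∧ 1 / ((k : ℝ) + 1) ≤ ((q v : ℕ) : ℝ)⁻¹ := by
      rw [Filter.eventually_all]
      intro v
      exact (hev _ (hc v)).and (hev _ (hq0 v))
    obtain ⟨k, hk1, hk2⟩ := (hB.and hE).exists
    apply hg1 k
    funext i
    cases i with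
    | none => exact hk1
    | some v =>
      have h1 : paC v (g k) ∈ paPart S v := split_fin hq S hS (g k) (hgS k) hk1
        (fun v j l => (hgN k (some v) j l).trans (hk2 v).2) v
      exact hcP v _ h1 (fun j l => (hgN k (some v) j l).trans (hk2 v).1)
        (fun ψ hψ => hgJ k (some v) ψ.1 ψ.2 hψ)

end Pool.Agent.Work.MP_67388f_an.HM
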