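import Pool.Agent.Work.MP_67388f_an.HM.Base

/-!
# LemA (size M, routine): basic lemmas on sizes, entries, characters

All statements are routine; compare `EM/Lem.lean`.
* `tor_zero`: `a 0 = a 0 * a 0`. `tor_diag_ne`: the determinant of a diagonal matrix is the product
  of the diagonal entries and it is `1`.
* `ent_conj`: `(a k)⁻¹ = a (-k)` is diagonal with entries the inverses (its product with `a k` is
  `1`), then `Matrix.mul_apply` and `Finset.sum_eq_single`.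
* `lam_eq`: additivity of `lam` in `k` (`lam_add`) and induction.
* `exists_lam_le`: `Rt n` is finite; by `lam_eq`, `|lam a ψ k| ≤ max(|lam a ψ (1,0)|, |lam a ψ (0,1)|)
  * sz k`. `exists_near_conj`: by `ent_conj_sub` and `norm_chi`.
* `near_of_entries`: `g * u⁻¹ - 1 = (g - u) * u⁻¹`, and the entries of `u⁻¹` are continuous on the
  compact set `{u | Near u R}` (`EM.isCompact_near`), so they are bounded there.
-/

set_option autoImplicit false

namespace Pool.Agent.Work.MP_67388f_an.HM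

open MeasureTheory Filter Topology Matrix
open Pool.Agent.Work.MP_67388f_an.EM (GG Near Rt Par NearId NIProp)

section sz

theorem sz_nonneg (k : ℤ × ℤ) : 0 ≤ sz k := by
  unfold sz
  positivity

theorem sz_zero : sz 0 = 0 := by
  simp [sz]

theorem sz_neg (k : ℤ × ℤ) : sz (-k) = sz k := by
  simp [sz]

theorem sz_add_le (k l : ℤ × ℤ) : sz (k + l) ≤ sz k + sz l := by
  unfold sz
  have h1 : |(((k + l).1 : ℤ) : ℝ)| ≤ |(k.1 : ℝ)| + |(l.1 : ℝ)| := by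
    rw [Prod.fst_add, Int.cast_add]
    exact abs_add_le _ _
  have h2 : |(((k + l).2 : ℤ) : ℝ)| ≤ |(k.2 : ℝ)| + |(l.2 : ℝ)| := by
    rw [Prod.snd_add, Int.cast_add]
    exact abs_add_le _ _
  linarith

theorem sz_nsmul (m : ℕ) (k : ℤ × ℤ) : sz (m • k) = m * sz k := by
  unfold sz
  have h1 : (((m • k).1 : ℤ) : ℝ) = (m : ℝ) * (k.1 : ℝ) := by
    simp
  have h2 : (((m • k).2 : ℤ) : ℝ) = (m : ℝ) * (k.2 : ℝ) := by
    simp
  rw [h1, h2, abs_mul, abs_mul, Nat.abs_cast]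
  ring

theorem one_le_sz {k : ℤ × ℤ} (hk : k ≠ 0) : 1 ≤ sz k := by
  unfold sz
  have h : k.1 ≠ 0 ∨ k.2 ≠ 0 := by
    by_contra h
    push Not at h
    exact hk (Prod.ext h.1 h.2)
  have key : ∀ z : ℤ, z ≠ 0 → (1 : ℝ) ≤ |(z : ℝ)| := by
    intro z hz
    have h1 : (1 : ℤ) ≤ |z| := Int.one_le_abs hz
    have h2 : ((1 : ℤ) : ℝ) ≤ ((|z| : ℤ) : ℝ) := by exact_mod_cast h1
    simpa using h2
  rcases h with h | h
  · have := key _ h
    have h3 := abs_nonneg (k.2 : ℝ)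
    linarith
  · have := key _ h
    have h3 := abs_nonneg (k.1 : ℝ)
    linarith

private theorem mem_box {R : ℝ} {k : ℤ × ℤ} (hk : sz k ≤ R) :
    k ∈ (Finset.Icc (-⌊R⌋) ⌊R⌋) ×ˢ (Finset.Icc (-⌊R⌋) ⌊R⌋) := by
  have h1 : |(k.1 : ℝ)| ≤ R := by
    unfold sz at hk
    have := abs_nonneg (k.2 : ℝ)
    linarith
  have h2 : |(k.2 : ℝ)| ≤ R := by
    unfold sz at hk
    have := abs_nonneg (k.1 : ℝ)
    linarith
  have key : ∀ z : ℤ, |(z : ℝ)| ≤ R → z ∈ Finset.Icc (-⌊R⌋) ⌊R⌋ := by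
    intro z hz
    rw [Finset.mem_Icc]
    have h3 := abs_le.1 hz
    constructor
    · have h4 : ((-z : ℤ) : ℝ) ≤ R := by
        push_cast
        linarith
      have h5 := Int.le_floor.2 h4
      linarith
    · exact Int.le_floor.2 h3.2
  exact Finset.mem_product.2 ⟨key _ h1, key _ h2⟩

theorem finite_sz (R : ℝ) : {k : ℤ × ℤ | sz k ≤ R}.Finite :=
  Set.Finite.subset (Finset.finite_toSet ((Finset.Icc (-⌊R⌋) ⌊R⌋) ×ˢ (Finset.Icc (-⌊R⌋) ⌊R⌋)))
    fun _ hk => mem_box hk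

/-- the number of times of size at most `R` is at most `(2 R + 1) ^ 2` -/
theorem card_sz_le {R : ℝ} (hR : 0 ≤ R) (F : Finset (ℤ × ℤ)) (hF : ∀ k ∈ F, sz k ≤ R) :
    (F.card : ℝ) ≤ (2 * R + 1) ^ 2 := by
  have h1 : F ⊆ (Finset.Icc (-⌊R⌋) ⌊R⌋) ×ˢ (Finset.Icc (-⌊R⌋) ⌊R⌋) := fun k hk =>
    mem_box (hF k hk)
  have h2 := Finset.card_le_card h1
  rw [Finset.card_product, Int.card_Icc] at h2
  have h3 : (0 : ℤ) ≤ ⌊R⌋ := Int.floor_nonneg.2 hR
  have h4 : (((⌊R⌋ + 1 - -⌊R⌋).toNat : ℕ) : ℝ) ≤ 2 * R + 1 := by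
    have h5 : (((⌊R⌋ + 1 - -⌊R⌋).toNat : ℕ) : ℤ) = ⌊R⌋ + 1 - -⌊R⌋ := Int.toNat_of_nonneg (by omega)
    have h6 : (((⌊R⌋ + 1 - -⌊R⌋).toNat : ℕ) : ℝ) = ((⌊R⌋ + 1 - -⌊R⌋ : ℤ) : ℝ) := by
      exact_mod_cast h5
    rw [h6]
    push_cast
    have := Int.floor_le R
    linarith
  calc (F.card : ℝ) ≤ (((⌊R⌋ + 1 - -⌊R⌋).toNat * (⌊R⌋ + 1 - -⌊R⌋).toNat : ℕ) : ℝ) := by
        exact_mod_cast h2
    _ = (((⌊R⌋ + 1 - -⌊R⌋).toNat : ℕ) : ℝ) ^ 2 := by
        push_cast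
        ring
    _ ≤ (2 * R + 1) ^ 2 := by
        exact pow_le_pow_left₀ (Nat.cast_nonneg _) h4 2

end sz

section group

variable {I : Type} {n : I → ℕ} {K : I → Type} [∀ i, NontriviallyNormedField (K i)]

theorem near_iff {g : GG n K} {ε : ℝ} : Near g ε ↔ ∀ ψ : Rt n, ‖ent g ψ - ent1 K ψ‖ ≤ ε := by
  constructor
  · intro h ψ
    exact h ψ.1 ψ.2.1 ψ.2.2
  · intro h i j l
    exact h ⟨i, (j, l)⟩

theorem ent_one (ψ : Rt n) : ent (1 : GG n K) ψ = ent1 K ψ := rfl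

theorem gg_ext' {g g' : GG n K} (h : ∀ ψ : Rt n, ent g ψ = ent g' ψ) : g = g' :=
  EM.gg_ext fun i j l => h ⟨i, (j, l)⟩

variable {a : ℤ × ℤ → GG n K}

theorem tor_zero (ha : Tor a) : a 0 = 1 := by
  have h := ha.add 0 0
  rw [add_zero] at h
  exact left_eq_mul.1 h

theorem tor_neg (ha : Tor a) (k : ℤ × ℤ) : a (-k) = (a k)⁻¹ := by
  apply eq_inv_of_mul_eq_one_left
  rw [← ha.add, neg_add_cancel, tor_zero ha]

/-- the product of the diagonal entries at `k` and `-k` -/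
private theorem tor_diag_mul (ha : Tor a) (k : ℤ × ℤ) (i : I) (j : Fin (n i)) :
    (a k i).1 j j * (a (-k) i).1 j j = 1 := by
  have h1 : a k * a (-k) = 1 := by rw [← ha.add, add_neg_cancel, tor_zero ha]
  have h2 : ((a k * a (-k)) i).1 j j = ((1 : GG n K) i).1 j j := by rw [h1]
  rw [EM.gg_mul_val, EM.gg_one_val, Matrix.mul_apply, Matrix.one_apply_eq] at h2
  rw [Finset.sum_eq_single j] at h2
  · exact h2
  · intro m _ hm
    rw [ha.diag k i j m (Ne.symm hm), zero_mul]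
  · intro h
    exact absurd (Finset.mem_univ j) h

theorem tor_diag_ne (ha : Tor a) (k : ℤ × ℤ) (i : I) (j : Fin (n i)) : (a k i).1 j j ≠ 0 := by
  intro h
  have := tor_diag_mul ha k i j
  rw [h, zero_mul] at this
  exact zero_ne_one this

private theorem tor_diag_inv (ha : Tor a) (k : ℤ × ℤ) (i : I) (j : Fin (n i)) :
    (a (-k) i).1 j j = ((a k i).1 j j)⁻¹ :=
  eq_inv_of_mul_eq_one_right (tor_diag_mul ha k i j)

theorem ent_conj (ha : Tor a) (k : ℤ × ℤ) (g : GG n K) (ψ : Rt n) :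
    ent (a k * g * (a k)⁻¹) ψ = chi (a k) ψ * ent g ψ := by
  rw [← tor_neg ha]
  obtain ⟨i, j, l⟩ := ψ
  change ((a k * g * a (-k)) i).1 j l = (a k i).1 j j * ((a k i).1 l l)⁻¹ * (g i).1 j l
  rw [EM.gg_mul_val, EM.gg_mul_val, Matrix.mul_apply, Finset.sum_eq_single l]
  · rw [Matrix.mul_apply, Finset.sum_eq_single j]
    · rw [tor_diag_inv ha]
      ring
    · intro m _ hm
      rw [ha.diag k i j m (Ne.symm hm), zero_mul]
    · intro h
      exact absurd (Finset.mem_univ j) h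
  · intro m _ hm
    rw [ha.diag (-k) i m l hm, mul_zero]
  · intro h
    exact absurd (Finset.mem_univ l) h

theorem chi_diag (ha : Tor a) (k : ℤ × ℤ) (i : I) (j : Fin (n i)) :
    chi (a k) (⟨i, (j, j)⟩ : Rt n) = 1 :=
  mul_inv_cancel₀ (tor_diag_ne ha k i j)

theorem ent_conj_sub (ha : Tor a) (k : ℤ × ℤ) (g : GG n K) (ψ : Rt n) :
    ent (a k * g * (a k)⁻¹) ψ - ent1 K ψ = chi (a k) ψ * (ent g ψ - ent1 K ψ) := by
  have h1 : chi (a k) ψ * ent1 K ψ = ent1 K ψ := by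
    have h2 := ent_conj ha k 1 ψ
    rw [mul_one, mul_inv_cancel, ent_one] at h2
    exact h2.symm
  rw [ent_conj ha, mul_sub, h1]

theorem chi_add (ha : Tor a) (k l : ℤ × ℤ) (ψ : Rt n) :
    chi (a (k + l)) ψ = chi (a k) ψ * chi (a l) ψ := by
  have key : ∀ (i : I) (j : Fin (n i)), (a (k + l) i).1 j j = (a k i).1 j j * (a l i).1 j j := by
    intro i j
    rw [ha.add, EM.gg_mul_val, Matrix.mul_apply, Finset.sum_eq_single j]
    · intro m _ hm
      rw [ha.diag k i j m (Ne.symm hm), zero_mul]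
    · intro h
      exact absurd (Finset.mem_univ j) h
  unfold chi
  rw [key, key, mul_inv]
  ring

theorem chi_zero (ha : Tor a) (ψ : Rt n) : chi (a 0) ψ = 1 := by
  unfold chi
  rw [tor_zero ha, EM.gg_one_val, Matrix.one_apply_eq, Matrix.one_apply_eq, inv_one, mul_one]

theorem chi_ne_zero (ha : Tor a) (k : ℤ × ℤ) (ψ : Rt n) : chi (a k) ψ ≠ 0 :=
  mul_ne_zero (tor_diag_ne ha k _ _) (inv_ne_zero (tor_diag_ne ha k _ _))

theorem norm_chi (ha : Tor a) (k : ℤ × ℤ) (ψ : Rt n) :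
    ‖chi (a k) ψ‖ = Real.exp (lam a ψ k) := by
  unfold lam
  rw [Real.exp_log (norm_pos_iff.2 (chi_ne_zero ha k ψ))]

theorem lam_add (ha : Tor a) (k l : ℤ × ℤ) (ψ : Rt n) :
    lam a ψ (k + l) = lam a ψ k + lam a ψ l := by
  unfold lam
  rw [chi_add ha, norm_mul, Real.log_mul (norm_ne_zero_iff.2 (chi_ne_zero ha k ψ))
    (norm_ne_zero_iff.2 (chi_ne_zero ha l ψ))]

/-- `lam` as an additive map -/
private noncomputable def lamHom (ha : Tor a) (ψ : Rt n) : ℤ × ℤ →+ ℝ :=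
  AddMonoidHom.mk' (lam a ψ) fun k l => lam_add ha k l ψ

theorem lam_nsmul (ha : Tor a) (m : ℕ) (k : ℤ × ℤ) (ψ : Rt n) :
    lam a ψ (m • k) = m * lam a ψ k := by
  exact (map_nsmul (lamHom ha ψ) m k).trans (nsmul_eq_mul _ _)

theorem lam_sub (ha : Tor a) (k l : ℤ × ℤ) (ψ : Rt n) :
    lam a ψ (k - l) = lam a ψ k - lam a ψ l :=
  map_sub (lamHom ha ψ) k l

theorem lam_eq (ha : Tor a) (k : ℤ × ℤ) (ψ : Rt n) :
    lam a ψ k = k.1 * lam a ψ (1, 0) + k.2 * lam a ψ (0, 1) := by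
  have h0 : k = k.1 • ((1 : ℤ), (0 : ℤ)) + k.2 • ((0 : ℤ), (1 : ℤ)) := by
    ext <;> simp
  have h1 : lamHom ha ψ k = lamHom ha ψ (k.1 • ((1 : ℤ), (0 : ℤ)) + k.2 • ((0 : ℤ), (1 : ℤ))) := by
    rw [← h0]
  rw [map_add, map_zsmul, map_zsmul, zsmul_eq_mul, zsmul_eq_mul] at h1
  exact h1

private theorem lam_abs_le (ha : Tor a) (k : ℤ × ℤ) (ψ : Rt n) :
    |lam a ψ k| ≤ (|lam a ψ (1, 0)| + |lam a ψ (0, 1)|) * sz k := by
  rw [lam_eq ha k ψ]
  refine (abs_add_le _ _).trans ?_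
  rw [abs_mul, abs_mul]
  unfold sz
  have h1 := abs_nonneg (k.1 : ℝ)
  have h2 := abs_nonneg (k.2 : ℝ)
  have h3 := abs_nonneg (lam a ψ (1, 0))
  have h4 := abs_nonneg (lam a ψ (0, 1))
  nlinarith [mul_nonneg h1 h4, mul_nonneg h2 h3]

theorem exists_lam_le [Fintype I] (ha : Tor a) :
    ∃ χ : ℝ, 0 ≤ χ ∧ ∀ (ψ : Rt n) (k : ℤ × ℤ), |lam a ψ k| ≤ χ * sz k := by
  classical
  have h0 : ∀ ψ : Rt n, 0 ≤ |lam a ψ (1, 0)| + |lam a ψ (0, 1)| := fun ψ =>
    add_nonneg (abs_nonneg _) (abs_nonneg _)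
  refine ⟨∑ ψ : Rt n, (|lam a ψ (1, 0)| + |lam a ψ (0, 1)|), Finset.sum_nonneg fun ψ _ => h0 ψ,
    fun ψ k => (lam_abs_le ha k ψ).trans (mul_le_mul_of_nonneg_right ?_ (sz_nonneg k))⟩
  exact Finset.single_le_sum (f := fun ψ : Rt n => |lam a ψ (1, 0)| + |lam a ψ (0, 1)|)
    (fun ψ _ => h0 ψ) (Finset.mem_univ ψ)

theorem exists_near_conj [Fintype I] (ha : Tor a) :
    ∃ χ : ℝ, 0 ≤ χ ∧ ∀ (k : ℤ × ℤ) (g : GG n K) (ε : ℝ), 0 ≤ ε → Near g ε →
      Near (a k * g * (a k)⁻¹) (ε * Real.exp (χ * sz k)) := by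
  obtain ⟨χ, hχ, h⟩ := exists_lam_le ha
  refine ⟨χ, hχ, fun k g ε hε hg => ?_⟩
  rw [near_iff] at hg ⊢
  intro ψ
  rw [ent_conj_sub ha, norm_mul, norm_chi ha, mul_comm]
  exact mul_le_mul (hg ψ) (Real.exp_le_exp.2 ((le_abs_self _).trans (h ψ k)))
    (Real.exp_pos _).le hε

/-- `OnT` is stable under conjugation by the diagonal elements -/
theorem onT_conj (ha : Tor a) {J : ∀ i, Finset (Fin (n i) × Fin (n i))} {g : GG n K}
    (h : OnT J g) (k : ℤ × ℤ) : OnT J (a k * g * (a k)⁻¹) := by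
  intro i j l hjl
  have h1 := ent_conj_sub ha k g ⟨i, (j, l)⟩
  have h2 : ent g ⟨i, (j, l)⟩ - ent1 K ⟨i, (j, l)⟩ = 0 := sub_eq_zero.2 (h i j l hjl)
  rw [h2, mul_zero] at h1
  exact sub_eq_zero.1 h1

private theorem continuous_ent (ψ : Rt n) : Continuous fun g : GG n K => ent g ψ := by
  have h1 : Continuous fun g : GG n K => (g ψ.1).1 :=
    continuous_subtype_val.comp (continuous_apply ψ.1)
  exact h1.matrix_elem ψ.2.1 ψ.2.2

theorem isClosed_onT (J : ∀ i, Finset (Fin (n i) × Fin (n i))) :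
    IsClosed {g : GG n K | OnT J g} := by
  have : {g : GG n K | OnT J g} = ⋂ i, ⋂ j, ⋂ l, ⋂ (_ : (j, l) ∉ J i), {g : GG n K |
      ent g ⟨i, (j, l)⟩ = (1 : Matrix (Fin (n i)) (Fin (n i)) (K i)) j l} := by
    ext g
    simp only [Set.mem_ofPred_eq, Set.mem_iInter]
    rfl
  rw [this]
  exact isClosed_iInter fun i => isClosed_iInter fun j => isClosed_iInter fun l =>
    isClosed_iInter fun _ => isClosed_eq (continuous_ent _) continuous_const

theorem isClosed_far [Fintype I] (c : ℝ) : IsClosed {g : GG n K | Far g c} := by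
  have : {g : GG n K | Far g c} = ⋃ ψ : Rt n, {g : GG n K | c ≤ ‖ent g ψ - ent1 K ψ‖} := by
    ext g
    simp only [Set.mem_ofPred_eq, Set.mem_iUnion]
    rfl
  rw [this]
  exact isClosed_iUnion_of_finite fun ψ =>
    isClosed_le continuous_const ((continuous_ent ψ).sub continuous_const).norm

theorem not_far_one {c : ℝ} (hc : 0 < c) : ¬ Far (1 : GG n K) c := by
  rintro ⟨ψ, hψ⟩
  rw [ent_one, sub_self, norm_zero] at hψ
  linarith

/-- a perturbation of the entries of a bounded element is a small right factor -/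
theorem near_of_entries [Fintype I] [∀ i, ProperSpace (K i)] (R : ℝ) : ∃ B : ℝ, 0 < B ∧
    ∀ (g u : GG n K) (ε : ℝ), 0 ≤ ε → Near u R → (∀ ψ : Rt n, ‖ent g ψ - ent u ψ‖ ≤ ε) →
      Near (g * u⁻¹) (B * ε) := by
  classical
  -- a bound of the sum of the norms of all entries of the inverse
  have hcont : Continuous fun u : GG n K => ∑ ψ : Rt n, ‖ent u⁻¹ ψ‖ :=
    continuous_finsetSum _ fun ψ _ => ((continuous_ent ψ).comp continuous_inv).norm
  obtain ⟨C, hC⟩ := (EM.isCompact_near (n := n) (K := K) R).exists_bound_of_continuousOn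
    hcont.continuousOn
  refine ⟨max C 1, lt_max_of_lt_right one_pos, fun g u ε hε hu h => ?_⟩
  have hC' : ∑ ψ : Rt n, ‖ent u⁻¹ ψ‖ ≤ C := (le_abs_self _).trans (hC u hu)
  intro i j l
  have h0 : (u i).1 * (u⁻¹ i).1 = 1 := by
    rw [← EM.gg_mul_val, mul_inv_cancel, EM.gg_one_val]
  have h1 : ((g * u⁻¹) i).1 - 1 = ((g i).1 - (u i).1) * (u⁻¹ i).1 := by
    rw [EM.gg_mul_val, Matrix.sub_mul, h0]
  have h2 : ((g * u⁻¹) i).1 j l - (1 : Matrix (Fin (n i)) (Fin (n i)) (K i)) j l =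
      ∑ b, ((g i).1 j b - (u i).1 j b) * (u⁻¹ i).1 b l := by
    have h3 := congrFun (congrFun h1 j) l
    simp only [Matrix.sub_apply, Matrix.mul_apply] at h3
    exact h3
  rw [h2]
  refine (norm_sum_le _ _).trans ?_
  have h4 : ∀ b ∈ (Finset.univ : Finset (Fin (n i))),
      ‖((g i).1 j b - (u i).1 j b) * (u⁻¹ i).1 b l‖ ≤ ε * ‖ent u⁻¹ (⟨i, (b, l)⟩ : Rt n)‖ := by
    intro b _
    rw [norm_mul]
    exact mul_le_mul_of_nonneg_right (h ⟨i, (j, b)⟩) (norm_nonneg _)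
  refine (Finset.sum_le_sum h4).trans ?_
  rw [← Finset.mul_sum, mul_comm]
  refine mul_le_mul_of_nonneg_right (le_trans ?_ (hC'.trans (le_max_left _ _))) hε
  have h5 : Function.Injective fun b : Fin (n i) => (⟨i, (b, l)⟩ : Rt n) := by
    intro b b' hb
    simpa using hb
  have h6 : ∑ b : Fin (n i), ‖ent u⁻¹ (⟨i, (b, l)⟩ : Rt n)‖ =
      ∑ ψ ∈ (Finset.univ : Finset (Fin (n i))).map ⟨_, h5⟩, ‖ent u⁻¹ ψ‖ := by
    rw [Finset.sum_map]
    rfl
  rw [h6]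
  exact Finset.sum_le_sum_of_subset_of_nonneg (Finset.subset_univ _) fun _ _ _ => norm_nonneg _

end group

end Pool.Agent.Work.MP_67388f_an.HM
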