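import Pool.Agent.Work.MP_67388f_an.HM.Lem

/-!
# NSd (size M-L): the nearest side of a polygon

`ev L b = L.1 b.1 + L.2 b.2`. `R` is a finite set of labels with linear forms `L r`, `F` the set of labels
which occur, `{b | ev (L r) b ≤ t r}` the half-planes. We look for an integer point `b` near the side
closest to the origin.

## Proof
Write `|x|` for the Euclidean norm of `x ∈ ℝ²` (`Real.sqrt (x.1^2 + x.2^2)`), `⟨x, y⟩` for the scalar
product. Constants: `Λ ≥ 1` with `|L r| ≤ Λ` for all `r` and `|L r| ≥ 1/Λ` whenever `L r ≠ 0`; for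
`L r, L r'` nonzero and not positively proportional `⟨L r, L r'⟩ < |L r| |L r'|` (equality case of
Cauchy-Schwarz, in the plane: `|x|²|y|² - ⟨x,y⟩² = (x.1 y.2 - x.2 y.1)²`), so by finiteness there is
`κ > 0` with `⟨L r, L r'⟩ ≤ (1 - κ) |L r| |L r'|` for all such pairs. If `L r`, `L r'` are positively
proportional, `L r = c L r'` with `c = |L r| / |L r'| ≤ Λ²`.
Given `F, t` choose `r₀ ∈ F` minimizing `t r / |L r|` (`F` is finite and nonempty) and `τ = t r₀ / |L r₀|`;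
`τ ≥ t r₀ / Λ`. Let `u = L r₀ / |L r₀|` (unit vector) and let `b` be the integer point obtained by rounding
the coordinates of `(τ - 2) u`: `b = (τ - 2) u + δ` with `|δ| ≤ 1` (each coordinate at most `1/2`). So
`|b| ≤ τ + 3` if `τ ≥ 2`, hence `sz b ≤ 2 (τ + 3) ≤ C₁ τ`.
For `r ∈ F`: `ev (L r) b = (τ - 2) ⟨L r, u⟩ + ⟨L r, δ⟩`.
* `r = r₀`: `ev (L r₀) b ≥ (τ - 2) |L r₀| - |L r₀| = t r₀ - 3 |L r₀| ≥ t r₀ - 3 Λ`.
* `L r` positively proportional to `L r₀`: `⟨L r, u⟩ = |L r|`, so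
  `ev (L r) b ≤ (τ - 2) |L r| + |L r| ≤ τ |L r| ≤ t r` by the choice of `r₀`.
* otherwise `⟨L r, u⟩ ≤ (1 - κ) |L r|`; if `τ ≥ 2` then
  `ev (L r) b ≤ (τ - 2) (1 - κ) |L r| + |L r| ≤ τ |L r| - κ τ |L r| + 3 |L r| ≤ t r - (κ / (2 Λ)) τ`, the last step
  for `τ ≥ 6 / κ` (then `3 |L r| ≤ κ τ |L r| / 2`, and `|L r| ≥ 1 / Λ`). In particular also
  `ev (L r) b ≤ t r`.
So `c₀ = min (1/Λ) (κ/(2Λ))`, `C₁ = 8`, `C₂ = max (3 Λ) (Λ ^ 2)`, `T₀ = Λ * max 2 (6/κ)` (it makes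
`τ ≥ max 2 (6/κ)`, in particular `τ ≥ 1`).
-/

set_option autoImplicit false

namespace Pool.Agent.Work.MP_67388f_an.HM

/-- The linear form with coefficients `L` at the integer point `b`. -/
def ev (L : ℝ × ℝ) (b : ℤ × ℤ) : ℝ := L.1 * b.1 + L.2 * b.2

private noncomputable def nr (x : ℝ × ℝ) : ℝ := Real.sqrt (x.1 ^ 2 + x.2 ^ 2)

private def ip (x y : ℝ × ℝ) : ℝ := x.1 * y.1 + x.2 * y.2

private theorem nr_nonneg (x : ℝ × ℝ) : 0 ≤ nr x := Real.sqrt_nonneg _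

private theorem nr_sq (x : ℝ × ℝ) : nr x ^ 2 = x.1 ^ 2 + x.2 ^ 2 :=
  Real.sq_sqrt (by positivity)

private theorem nr_pos {x : ℝ × ℝ} (hx : x ≠ 0) : 0 < nr x := by
  refine lt_of_le_of_ne (nr_nonneg x) fun h => hx ?_
  have h2 := nr_sq x
  rw [← h] at h2
  have h1 : x.1 = 0 := by
    have : x.1 ^ 2 = 0 := by nlinarith [sq_nonneg x.1, sq_nonneg x.2]
    exact pow_eq_zero_iff (two_ne_zero)|>.1 this
  have h3 : x.2 = 0 := by
    have : x.2 ^ 2 = 0 := by nlinarith [sq_nonneg x.1, sq_nonneg x.2]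
    exact pow_eq_zero_iff (two_ne_zero)|>.1 this
  exact Prod.ext h1 h3

private theorem abs_fst_le (x : ℝ × ℝ) : |x.1| ≤ nr x := by
  apply abs_le_of_sq_le_sq _ (nr_nonneg x)
  rw [nr_sq]; nlinarith [sq_nonneg x.2]

private theorem abs_snd_le (x : ℝ × ℝ) : |x.2| ≤ nr x := by
  apply abs_le_of_sq_le_sq _ (nr_nonneg x)
  rw [nr_sq]; nlinarith [sq_nonneg x.1]

private theorem ip_le (x y : ℝ × ℝ) : ip x y ≤ nr x * nr y := by
  have h : |ip x y| ≤ nr x * nr y := by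
    apply abs_le_of_sq_le_sq _ (mul_nonneg (nr_nonneg x) (nr_nonneg y))
    rw [mul_pow, nr_sq, nr_sq]
    unfold ip
    nlinarith [sq_nonneg (x.1 * y.2 - x.2 * y.1)]
  exact (le_abs_self _).trans h

private theorem ip_eq {x y : ℝ × ℝ} (h : ip x y = nr x * nr y) :
    x.1 * nr y = nr x * y.1 ∧ x.2 * nr y = nr x * y.2 := by
  have h1 : (x.1 * nr y - nr x * y.1) ^ 2 + (x.2 * nr y - nr x * y.2) ^ 2 = 0 := by
    have e : (x.1 * nr y - nr x * y.1) ^ 2 + (x.2 * nr y - nr x * y.2) ^ 2 =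
        (x.1 ^ 2 + x.2 ^ 2) * nr y ^ 2 + nr x ^ 2 * (y.1 ^ 2 + y.2 ^ 2) - 2 * nr x * nr y * ip x y := by
      unfold ip; ring
    rw [e, ← nr_sq, ← nr_sq, h]; ring
  have h2 : (x.1 * nr y - nr x * y.1) ^ 2 = 0 := by
    nlinarith [sq_nonneg (x.1 * nr y - nr x * y.1), sq_nonneg (x.2 * nr y - nr x * y.2)]
  have h3 : (x.2 * nr y - nr x * y.2) ^ 2 = 0 := by
    nlinarith [sq_nonneg (x.1 * nr y - nr x * y.1), sq_nonneg (x.2 * nr y - nr x * y.2)]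
  exact ⟨sub_eq_zero.1 (pow_eq_zero_iff (two_ne_zero)|>.1 h2),
    sub_eq_zero.1 (pow_eq_zero_iff (two_ne_zero)|>.1 h3)⟩

private theorem exists_lower {ι : Type} [Finite ι] (f : ι → ℝ) (hf : ∀ i, 0 < f i) :
    ∃ κ : ℝ, 0 < κ ∧ κ ≤ 1 ∧ ∀ i, κ ≤ f i := by
  obtain ⟨M, hM⟩ := (Set.finite_range (fun i => (f i)⁻¹)).bddAbove
  have hM' : ∀ i, (f i)⁻¹ ≤ M := fun i => hM (Set.mem_range_self i)
  refine ⟨(max M 1)⁻¹, by positivity, inv_le_one_of_one_le₀ (le_max_right _ _), fun i => ?_⟩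
  have h1 : (f i)⁻¹ ≤ max M 1 := (hM' i).trans (le_max_left _ _)
  have h2 : 0 < (f i)⁻¹ := inv_pos.2 (hf i)
  calc (max M 1)⁻¹ ≤ ((f i)⁻¹)⁻¹ := inv_anti₀ h2 h1
    _ = f i := inv_inv _

theorem nearest_side {R : Type} [Finite R] (L : R → ℝ × ℝ) :
    ∃ c₀ C₁ C₂ T₀ : ℝ, 0 < c₀ ∧ 0 < C₁ ∧ 0 < C₂ ∧ 0 < T₀ ∧
      ∀ (F : Set R) (t : R → ℝ), F.Nonempty → (∀ r ∈ F, L r ≠ 0) → (∀ r ∈ F, T₀ ≤ t r) →
        ∃ (τ : ℝ) (b : ℤ × ℤ) (r₀ : R), r₀ ∈ F ∧ 1 ≤ τ ∧ c₀ * t r₀ ≤ τ ∧ sz b ≤ C₁ * τ ∧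
          t r₀ - C₂ ≤ ev (L r₀) b ∧ ∀ r ∈ F, ev (L r) b ≤ t r ∧
            ((∃ c : ℝ, 0 < c ∧ c ≤ C₂ ∧ L r = (c * (L r₀).1, c * (L r₀).2)) ∨
              ev (L r) b ≤ t r - c₀ * τ) := by
  classical
  -- the constants
  obtain ⟨ν, hν0, hν1, hν⟩ := exists_lower (fun r : R => if L r = 0 then 1 else min (nr (L r)) (1 / (nr (L r))))
    (fun r => by
      split_ifs with h
      · exact one_pos
      · exact lt_min (nr_pos h) (one_div_pos.2 (nr_pos h)))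
  obtain ⟨κ, hκ0, hκ1, hκ⟩ := exists_lower (fun p : R × R =>
      if L p.1 ≠ 0 ∧ L p.2 ≠ 0 ∧ ip (L p.1) (L p.2) < nr (L p.1) * nr (L p.2) then
        1 - ip (L p.1) (L p.2) / (nr (L p.1) * nr (L p.2)) else 1)
    (fun p => by
      split_ifs with h
      · have h1 : 0 < nr (L p.1) * nr (L p.2) := mul_pos (nr_pos h.1) (nr_pos h.2.1)
        have h2 : ip (L p.1) (L p.2) / (nr (L p.1) * nr (L p.2)) < 1 := (div_lt_one h1).2 h.2.2
        linarith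
      · exact one_pos)
  obtain ⟨Λ, hΛ⟩ : ∃ Λ : ℝ, Λ = 1 / ν := ⟨_, rfl⟩
  have hΛ1 : 1 ≤ Λ := by
    rw [hΛ]; exact (one_le_div hν0).2 hν1
  have hΛ0 : 0 < Λ := by linarith
  have hνΛ : ν = 1 / Λ := by rw [hΛ]; field_simp
  have hlo : ∀ r, L r ≠ 0 → 1 / Λ ≤ nr (L r) := by
    intro r hr
    have h1 := hν r
    rw [if_neg hr] at h1
    rw [← hνΛ]
    exact h1.trans (min_le_left _ _)
  have hhi : ∀ r, L r ≠ 0 → nr (L r) ≤ Λ := by
    intro r hr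
    have h1 := hν r
    rw [if_neg hr] at h1
    have h2 : ν ≤ 1 / nr (L r) := h1.trans (min_le_right _ _)
    have h3 := nr_pos hr
    rw [hΛ, le_div_iff₀ hν0]
    rw [le_div_iff₀ h3] at h2
    linarith
  refine ⟨κ / (2 * Λ), 8, max (3 * Λ) (Λ ^ 2), Λ * max 2 (6 / κ), by positivity, by norm_num,
    lt_of_lt_of_le (by positivity) (le_max_left _ _), by positivity, ?_⟩
  intro F t hFne hF0 hFt
  obtain ⟨r₀, hr₀, hmin⟩ := Set.exists_min_image F (fun r => t r / nr (L r)) (Set.toFinite F) hFne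
  have hL0 : L r₀ ≠ 0 := hF0 r₀ hr₀
  have hn0 : 0 < nr (L r₀) := nr_pos hL0
  obtain ⟨τ, hτ⟩ : ∃ τ : ℝ, τ = t r₀ / nr (L r₀) := ⟨_, rfl⟩
  have htr₀ : 0 < t r₀ := lt_of_lt_of_le (by positivity) (hFt r₀ hr₀)
  have hτ1 : t r₀ / Λ ≤ τ := by
    rw [hτ]
    exact div_le_div_of_nonneg_left htr₀.le hn0 (hhi r₀ hL0)
  have hτ2 : max 2 (6 / κ) ≤ τ := by
    refine le_trans ?_ hτ1
    rw [le_div_iff₀ hΛ0, mul_comm]
    exact hFt r₀ hr₀
  have hτ3 : 2 ≤ τ := (le_max_left _ _).trans hτ2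
  have hτ4 : 6 ≤ κ * τ := by
    have := (le_max_right _ _).trans hτ2
    rw [div_le_iff₀ hκ0] at this
    linarith
  have hτt : τ * nr (L r₀) = t r₀ := by rw [hτ]; field_simp
  -- the unit vector
  obtain ⟨u, hu⟩ : ∃ u : ℝ × ℝ, u = ((L r₀).1 / nr (L r₀), (L r₀).2 / nr (L r₀)) := ⟨_, rfl⟩
  have hu1 : |u.1| ≤ 1 := by
    rw [hu]
    show |(L r₀).1 / nr (L r₀)| ≤ 1
    rw [abs_div, abs_of_pos hn0, div_le_one hn0]
    exact abs_fst_le _
  have hu2 : |u.2| ≤ 1 := by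
    rw [hu]
    show |(L r₀).2 / nr (L r₀)| ≤ 1
    rw [abs_div, abs_of_pos hn0, div_le_one hn0]
    exact abs_snd_le _
  obtain ⟨b, hb⟩ : ∃ b : ℤ × ℤ, b = (round ((τ - 2) * u.1), round ((τ - 2) * u.2)) := ⟨_, rfl⟩
  obtain ⟨d1, hd1⟩ : ∃ d1 : ℝ, d1 = (b.1 : ℝ) - (τ - 2) * u.1 := ⟨_, rfl⟩
  obtain ⟨d2, hd2⟩ : ∃ d2 : ℝ, d2 = (b.2 : ℝ) - (τ - 2) * u.2 := ⟨_, rfl⟩
  have hd1' : |d1| ≤ 1 / 2 := by
    rw [hd1, abs_sub_comm, hb]; exact abs_sub_round _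
  have hd2' : |d2| ≤ 1 / 2 := by
    rw [hd2, abs_sub_comm, hb]; exact abs_sub_round _
  have hb1 : (b.1 : ℝ) = (τ - 2) * u.1 + d1 := by rw [hd1]; ring
  have hb2 : (b.2 : ℝ) = (τ - 2) * u.2 + d2 := by rw [hd2]; ring
  -- the value of a form at `b`
  have hev : ∀ r, ev (L r) b = (τ - 2) * (ip (L r) (L r₀) / nr (L r₀)) + ((L r).1 * d1 + (L r).2 * d2) := by
    intro r
    unfold ev ip
    rw [hb1, hb2, hu]
    field_simp
    ring
  have hrem : ∀ r, |(L r).1 * d1 + (L r).2 * d2| ≤ nr (L r) := by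
    intro r
    have h1 := abs_fst_le (L r)
    have h2 := abs_snd_le (L r)
    have h3 : |(L r).1 * d1| ≤ nr (L r) * (1 / 2) := by
      rw [abs_mul]; exact mul_le_mul h1 hd1' (abs_nonneg _) (nr_nonneg _)
    have h4 : |(L r).2 * d2| ≤ nr (L r) * (1 / 2) := by
      rw [abs_mul]; exact mul_le_mul h2 hd2' (abs_nonneg _) (nr_nonneg _)
    calc |(L r).1 * d1 + (L r).2 * d2| ≤ |(L r).1 * d1| + |(L r).2 * d2| := abs_add_le _ _
      _ ≤ nr (L r) * (1 / 2) + nr (L r) * (1 / 2) := add_le_add h3 h4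
      _ = nr (L r) := by ring
  refine ⟨τ, b, r₀, hr₀, by linarith, ?_, ?_, ?_, ?_⟩
  · calc κ / (2 * Λ) * t r₀ ≤ 1 / Λ * t r₀ := by
          apply mul_le_mul_of_nonneg_right _ htr₀.le
          rw [div_le_div_iff₀ (by positivity) hΛ0]
          nlinarith
      _ = t r₀ / Λ := by ring
      _ ≤ τ := hτ1
  · unfold sz
    rw [hb1, hb2]
    have h1 : |(τ - 2) * u.1 + d1| ≤ (τ - 2) * 1 + 1 / 2 := by
      refine (abs_add_le _ _).trans (add_le_add ?_ hd1')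
      rw [abs_mul, abs_of_nonneg (by linarith : (0 : ℝ) ≤ τ - 2)]
      exact mul_le_mul_of_nonneg_left hu1 (by linarith)
    have h2 : |(τ - 2) * u.2 + d2| ≤ (τ - 2) * 1 + 1 / 2 := by
      refine (abs_add_le _ _).trans (add_le_add ?_ hd2')
      rw [abs_mul, abs_of_nonneg (by linarith : (0 : ℝ) ≤ τ - 2)]
      exact mul_le_mul_of_nonneg_left hu2 (by linarith)
    linarith
  · have h1 := hev r₀
    have h2 := (abs_le.1 (hrem r₀)).1
    have h3 : ip (L r₀) (L r₀) / nr (L r₀) = nr (L r₀) := by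
      have : ip (L r₀) (L r₀) = nr (L r₀) ^ 2 := by rw [nr_sq]; unfold ip; ring
      rw [this]; field_simp
    rw [h3] at h1
    have h4 := hhi r₀ hL0
    have h5 : 3 * Λ ≤ max (3 * Λ) (Λ ^ 2) := le_max_left _ _
    rw [h1]
    nlinarith
  · intro r hr
    have hLr : L r ≠ 0 := hF0 r hr
    have hnr : 0 < nr (L r) := nr_pos hLr
    have h1 := hev r
    have h2 := (abs_le.1 (hrem r)).2
    have hτr : τ * nr (L r) ≤ t r := by
      have h3 := hmin r hr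
      rw [← hτ, le_div_iff₀ hnr] at h3
      exact h3
    have hip := ip_le (L r) (L r₀)
    have hip' : ip (L r) (L r₀) / nr (L r₀) ≤ nr (L r) := (div_le_iff₀ hn0).2 hip
    refine ⟨?_, ?_⟩
    · have h4 : (τ - 2) * (ip (L r) (L r₀) / nr (L r₀)) ≤ (τ - 2) * nr (L r) :=
        mul_le_mul_of_nonneg_left hip' (by linarith)
      rw [h1]
      nlinarith
    · rcases hip.lt_or_eq with hlt | heq
      · right
        have h5 := hκ (r, r₀)
        dsimp only at h5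
        rw [if_pos ⟨hLr, hL0, hlt⟩] at h5
        have h6 : ip (L r) (L r₀) / nr (L r₀) ≤ (1 - κ) * nr (L r) := by
          have h7 : ip (L r) (L r₀) / (nr (L r) * nr (L r₀)) ≤ 1 - κ := by linarith
          rw [div_le_iff₀ (mul_pos hnr hn0)] at h7
          rw [div_le_iff₀ hn0]
          linarith
        have h8 : (τ - 2) * (ip (L r) (L r₀) / nr (L r₀)) ≤ (τ - 2) * ((1 - κ) * nr (L r)) :=
          mul_le_mul_of_nonneg_left h6 (by linarith)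
        have h9 : ev (L r) b ≤ τ * nr (L r) - κ * τ * nr (L r) / 2 := by
          rw [h1]
          have h10 : 6 * nr (L r) ≤ κ * τ * nr (L r) := mul_le_mul_of_nonneg_right hτ4 hnr.le
          nlinarith
        have h11 : κ / (2 * Λ) * τ ≤ κ * τ * nr (L r) / 2 := by
          have h12 := hlo r hLr
          have h13 : κ * τ / 2 * (1 / Λ) ≤ κ * τ / 2 * nr (L r) :=
            mul_le_mul_of_nonneg_left h12 (by positivity)
          calc κ / (2 * Λ) * τ = κ * τ / 2 * (1 / Λ) := by field_simp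
            _ ≤ κ * τ / 2 * nr (L r) := h13
            _ = κ * τ * nr (L r) / 2 := by ring
        linarith
      · left
        obtain ⟨e1, e2⟩ := ip_eq heq
        refine ⟨nr (L r) / nr (L r₀), div_pos hnr hn0, ?_, ?_⟩
        · refine le_trans ?_ (le_max_right _ _)
          rw [div_le_iff₀ hn0]
          have h3 := hhi r hLr
          have h4 := hlo r₀ hL0
          rw [div_le_iff₀ hΛ0] at h4
          nlinarith
        · apply Prod.ext
          · show (L r).1 = nr (L r) / nr (L r₀) * (L r₀).1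
            rw [div_mul_eq_mul_div, eq_div_iff hn0.ne']; exact e1
          · show (L r).2 = nr (L r) / nr (L r₀) * (L r₀).2
            rw [div_mul_eq_mul_div, eq_div_iff hn0.ne']; exact e2

end Pool.Agent.Work.MP_67388f_an.HM
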