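import Pool.Agent.Work.MP_67388f_an.HM.EX
import Pool.Agent.Work.MP_67388f_an.HM.CH

/-!
# PL (size M-L): p-adic closed subgroups near the identity

## Proof
Let `𝔸 = Matrix (Fin m) (Fin m) ℚ_[p]` with the local instances `Matrix.linftyOpNormedRing`,
`Matrix.linftyOpNormedAlgebra` (complete). The norm of `𝔸` and the sup norm of the entries differ at most by the
factor `m` (`Matrix.linfty_opNorm_def`): `|entry| ≤ ‖A‖ ≤ m * max |entries|`. Let `r > 0` be such that the ball of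
radius `r` lies in the ball of convergence (`padic_radius`) and, for `‖x‖, ‖y‖ < r`... put
`c` from `exp_local` with `ε₁ = ε / (m + 1)`, made so small that `‖x‖ < r` for the `x` obtained. Let `g ∈ T` be close to
`1` and `exp x = g.1`, `‖x - (g - 1)‖ ≤ ε₁ ‖x‖`, `‖x‖ < r`. Put `w ψ = x ψ.1 ψ.2` (entries of `x`). The estimate for the
entries: `|(x - (g - 1)) ψ| ≤ ‖x - (g - 1)‖ ≤ ε₁ ‖x‖ ≤ ε₁ m ‖w‖ ≤ ε ‖w‖`.
`w ∈ Vel T` : for `t ∈ ℚ_[p]`, `‖t‖ ≤ 1`, let `e t` be the element of `SL` with matrix `exp (t • x)`, and `e t = 1` for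
`‖t‖ > 1`. Claim: for `‖t‖ ≤ 1` the matrix `exp (t • x)` has determinant one and defines an element of `T`. For
`t = k` a natural number: `exp (k • x) = (exp x) ^ k = g ^ k` by induction with
`exp_add_of_commute_of_mem_ball` (all `‖k • x‖ ≤ ‖x‖ < r`). In general `t ∈ ℤ_[p]` is a limit of natural
numbers `k_j` (`PadicInt.denseRange_natCast`), `exp (k_j • x) → exp (t • x)` by continuity of `exp` on the ball
of convergence (`continuousOn_exp`), so `det = 1` by continuity and the element is in the closed set `T`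
(`SL` has the subspace topology). `e` is continuous: `{‖t‖ ≤ 1}` is open and closed. `e 0 = exp 0 = 1`. Strict
derivative of `t ↦ exp (t • x)` at `0`: composition of `hasStrictFDerivAt_exp_zero_of_radius_pos` with
the linear map `t ↦ t • x`: it is `x`; then pass to the entries (`hasStrictDerivAt_pi`, the entries are continuous
linear functions on `𝔸`); `e` agrees with it near `0`.
-/

set_option autoImplicit false

namespace Pool.Agent.Work.MP_67388f_an.HM

open Filter Topology Matrix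

section common

private def MA (m : ℕ) (K : Type) : Type := Matrix (Fin m) (Fin m) K

variable {m : ℕ} {K : Type} [NontriviallyNormedField K]

open scoped Matrix.Norms.Operator in
private noncomputable instance instMARing : NormedRing (MA m K) :=
  (inferInstance : NormedRing (Matrix (Fin m) (Fin m) K))

open scoped Matrix.Norms.Operator in
private noncomputable instance instMAAlg : NormedAlgebra K (MA m K) :=
  (inferInstance : NormedAlgebra K (Matrix (Fin m) (Fin m) K))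

private instance instMAFin : FiniteDimensional K (MA m K) :=
  (inferInstance : FiniteDimensional K (Matrix (Fin m) (Fin m) K))

private def entL : MA m K ≃ₗ[K] (Fin m × Fin m → K) where
  toFun A ψ := (show Matrix (Fin m) (Fin m) K from A) ψ.1 ψ.2
  invFun w := (show Matrix (Fin m) (Fin m) K from Matrix.of fun i j => w (i, j))
  map_add' _ _ := rfl
  map_smul' _ _ := rfl
  left_inv _ := rfl
  right_inv _ := rfl

private def toMA (A : Matrix (Fin m) (Fin m) K) : MA m K := A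

private def ofMA (A : MA m K) : Matrix (Fin m) (Fin m) K := A

omit [NontriviallyNormedField K] in
private theorem ofMA_toMA (A : Matrix (Fin m) (Fin m) K) : ofMA (toMA A) = A := rfl

private theorem ofMA_mul (A B : MA m K) : ofMA (A * B) = ofMA A * ofMA B := rfl

private theorem ofMA_one : ofMA (1 : MA m K) = 1 := rfl

private theorem ofMA_pow (A : MA m K) (k : ℕ) : ofMA (A ^ k) = ofMA A ^ k := by
  induction k with
  | zero => rw [pow_zero, pow_zero, ofMA_one]
  | succ k ih => rw [pow_succ, pow_succ, ofMA_mul, ih]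

variable [CompleteSpace K]

private instance instMAComplete : CompleteSpace (MA m K) := FiniteDimensional.complete K (MA m K)

private noncomputable def entC : MA m K ≃L[K] (Fin m × Fin m → K) :=
  (entL : MA m K ≃ₗ[K] (Fin m × Fin m → K)).toContinuousLinearEquiv

private theorem entC_apply (A : MA m K) (ψ : Fin m × Fin m) : entC A ψ = ofMA A ψ.1 ψ.2 := rfl

private theorem continuous_ofMA : Continuous (ofMA : MA m K → Matrix (Fin m) (Fin m) K) := by
  refine continuous_matrix fun i j => ?_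
  have h1 : Continuous fun A : MA m K => entC A (i, j) :=
    (continuous_apply (i, j)).comp entC.continuous
  exact h1

omit [CompleteSpace K] in
private theorem bounds_aux {V W : Type} [NormedAddCommGroup V] [NormedSpace K V]
    [NormedAddCommGroup W] [NormedSpace K W] (E : V ≃L[K] W) :
    ∃ C1 C2 : ℝ, 0 ≤ C1 ∧ 0 ≤ C2 ∧ (∀ v, ‖v‖ ≤ C1 * ‖E v‖) ∧ ∀ v, ‖E v‖ ≤ C2 * ‖v‖ :=
  ⟨‖(E.symm : W →L[K] V)‖, ‖(E : V →L[K] W)‖, norm_nonneg _, norm_nonneg _,
    fun v => by
      have h := (E.symm : W →L[K] V).le_opNorm (E v)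
      have h2 : (E.symm : W →L[K] V) (E v) = v := E.symm_apply_apply v
      rwa [h2] at h, fun v => (E : V →L[K] W).le_opNorm v⟩

end common

theorem padic_log (p : ℕ) [Fact p.Prime] {m : ℕ}
    (T : Subgroup (SpecialLinearGroup (Fin m) ℚ_[p]))
    (hT : IsClosed (T : Set (SpecialLinearGroup (Fin m) ℚ_[p]))) {ε : ℝ} (hε : 0 < ε) :
    ∃ c > 0, ∀ g ∈ T, (∀ j l, ‖g.1 j l - (1 : Matrix (Fin m) (Fin m) ℚ_[p]) j l‖ ≤ c) →
      ∃ w ∈ Vel (T : Set (SpecialLinearGroup (Fin m) ℚ_[p])), ∀ ψ : Fin m × Fin m,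
        ‖w ψ - (g.1 ψ.1 ψ.2 - (1 : Matrix (Fin m) (Fin m) ℚ_[p]) ψ.1 ψ.2)‖ ≤ ε * ‖w‖ := by
  set E : MA m ℚ_[p] ≃L[ℚ_[p]] (Fin m × Fin m → ℚ_[p]) := entC with hE
  obtain ⟨C1, C2, hC10, hC20, hb1, hb2⟩ := bounds_aux E
  have hrad : 0 < (NormedSpace.expSeries ℚ_[p] (MA m ℚ_[p])).radius := padic_radius p
  obtain ⟨r, hr0, hrr⟩ := ENNReal.lt_iff_exists_nnreal_btwn.1 hrad
  have hr0' : 0 < (r : ℝ) := by exact_mod_cast hr0
  obtain ⟨c, hc, H⟩ := exp_local (𝕂 := ℚ_[p]) (𝔸 := MA m ℚ_[p]) hrad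
    (ε := ε / (C1 * C2 + 1)) (by positivity)
  have hball : ∀ A : MA m ℚ_[p], ‖A‖ < r →
      A ∈ Metric.eball (0 : MA m ℚ_[p]) (NormedSpace.expSeries ℚ_[p] (MA m ℚ_[p])).radius := by
    intro A hA
    refine lt_trans ?_ hrr
    rw [edist_zero_right, ← ofReal_norm, ← ENNReal.ofReal_coe_nnreal]
    exact (ENNReal.ofReal_lt_ofReal_iff hr0').2 hA
  refine ⟨min c (r / 4) / (C1 + 1), by positivity, fun g hg hn => ?_⟩
  set G : MA m ℚ_[p] := toMA g.1 with hG
  have hG1 : ‖G - 1‖ ≤ min c (r / 4) := by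
    have h1 : ‖E (G - 1)‖ ≤ min c (r / 4) / (C1 + 1) := by
      rw [pi_norm_le_iff_of_nonneg (by positivity)]
      rintro ⟨i, j⟩
      exact hn i j
    have h2 := hb1 (G - 1)
    have h3 : C1 * ‖E (G - 1)‖ ≤ (C1 + 1) * (min c (r / 4) / (C1 + 1)) := by
      apply mul_le_mul (by linarith) h1 (norm_nonneg _) (by positivity)
    rw [mul_div_cancel₀ _ (by positivity)] at h3
    exact h2.trans h3
  obtain ⟨x, hx, hx1, hx2⟩ := H G (hG1.trans (min_le_left _ _))
  have hxr : ‖x‖ < r := by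
    have := hG1.trans (min_le_right _ _)
    linarith
  -- the curve
  have htb : ∀ t : ℤ_[p], ((t : ℚ_[p]) • x) ∈
      Metric.eball (0 : MA m ℚ_[p]) (NormedSpace.expSeries ℚ_[p] (MA m ℚ_[p])).radius := by
    intro t
    apply hball
    have h1 : ‖(t : ℚ_[p]) • x‖ ≤ ‖x‖ := by
      rw [norm_smul]
      have h2 : ‖(t : ℚ_[p])‖ ≤ 1 := t.2
      nlinarith [norm_nonneg x, norm_nonneg (t : ℚ_[p])]
    exact lt_of_le_of_lt h1 hxr
  have hpow : ∀ k : ℕ, NormedSpace.exp (((k : ℤ_[p]) : ℚ_[p]) • x) = G ^ k := by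
    intro k
    induction k with
    | zero => simp [NormedSpace.exp_zero]
    | succ k ih =>
      have h1 : (((k + 1 : ℕ) : ℤ_[p]) : ℚ_[p]) • x = ((k : ℤ_[p]) : ℚ_[p]) • x + x := by
        push_cast
        rw [add_smul, one_smul]
      rw [h1, NormedSpace.exp_add_of_commute_of_mem_ball (𝕂 := ℚ_[p]) _ (htb k) (hball x hxr), ih, hx,
        pow_succ]
      exact (Commute.refl x).smul_left _
  have hcont : Continuous fun t : ℤ_[p] => ofMA (NormedSpace.exp ((t : ℚ_[p]) • x)) := by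
    refine continuous_ofMA.comp ?_
    rw [← continuousOn_univ]
    refine ContinuousOn.comp (NormedSpace.continuousOn_exp (𝕂 := ℚ_[p])) ?_ fun t _ => htb t
    exact (continuous_subtype_val.smul continuous_const).continuousOn
  have hdet : ∀ t : ℤ_[p], (ofMA (NormedSpace.exp ((t : ℚ_[p]) • x))).det = 1 := by
    intro t
    refine PadicInt.denseRange_natCast.induction_on t ?_ ?_
    · exact isClosed_eq hcont.matrix_det continuous_const
    · intro k
      rw [hpow k, ofMA_pow, hG, ofMA_toMA, Matrix.det_pow]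
      rw [g.2, one_pow]
  set F : ℤ_[p] → SpecialLinearGroup (Fin m) ℚ_[p] :=
    fun t => ⟨ofMA (NormedSpace.exp ((t : ℚ_[p]) • x)), hdet t⟩ with hF
  have hFc : Continuous F := hcont.subtype_mk _
  have hF0 : F 0 = 1 := by
    apply Subtype.ext
    show ofMA (NormedSpace.exp (((0 : ℤ_[p]) : ℚ_[p]) • x)) = 1
    rw [PadicInt.coe_zero, zero_smul, NormedSpace.exp_zero, ofMA_one]
  have hFT : ∀ t, F t ∈ T := by
    intro t
    refine PadicInt.denseRange_natCast.induction_on (p := fun t => F t ∈ T) t ?_ ?_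
    · exact hT.preimage hFc
    · intro k
      have : F k = g ^ k := by
        apply Subtype.ext
        show ofMA (NormedSpace.exp (((k : ℤ_[p]) : ℚ_[p]) • x)) = (g ^ k).1
        rw [hpow k, ofMA_pow, hG, ofMA_toMA]
        exact (Matrix.SpecialLinearGroup.coe_pow g k).symm
      rw [this]
      exact T.pow_mem hg k
  -- the retraction
  classical
  have hclo : IsClopen {t : ℚ_[p] | ‖t‖ ≤ 1} := by
    have h1 := IsUltrametricDist.isClopen_closedBall (0 : ℚ_[p]) one_ne_zero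
    have h2 : Metric.closedBall (0 : ℚ_[p]) 1 = {t : ℚ_[p] | ‖t‖ ≤ 1} := by
      ext t; simp
    rwa [h2] at h1
  have hρc : Continuous fun t : ℚ_[p] => if ‖t‖ ≤ 1 then t else 0 := by
    refine Continuous.if ?_ continuous_id continuous_const
    intro a ha
    rw [hclo.frontier_eq] at ha
    exact absurd ha (Set.notMem_empty _)
  have hρ1 : ∀ t : ℚ_[p], ‖(if ‖t‖ ≤ 1 then t else 0 : ℚ_[p])‖ ≤ 1 := by
    intro t
    split_ifs with h
    · exact h
    · simp
  set ρ : ℚ_[p] → ℤ_[p] := fun t => ⟨if ‖t‖ ≤ 1 then t else 0, hρ1 t⟩ with hρ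
  have hρcont : Continuous ρ := hρc.subtype_mk _
  have hρ0 : ρ 0 = 0 := by
    apply Subtype.ext
    show (if ‖(0 : ℚ_[p])‖ ≤ 1 then (0 : ℚ_[p]) else 0) = 0
    simp
  refine ⟨E x, ⟨fun t => F (ρ t), hFc.comp hρcont, (congrArg F hρ0).trans hF0, fun t => hFT _, ?_⟩, ?_⟩
  · have h1 := hasStrictDerivAt_exp_smul_const_of_mem_ball (𝕂 := ℚ_[p]) x 0
      (by simpa using htb 0)
    rw [zero_smul, NormedSpace.exp_zero, one_mul] at h1
    have h2 := E.hasStrictFDerivAt.comp_hasStrictDerivAt (0 : ℚ_[p]) h1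
    refine h2.congr_of_eventuallyEq ?_
    have h3 : ∀ᶠ t : ℚ_[p] in 𝓝 0, ‖t‖ ≤ 1 := hclo.isOpen.mem_nhds (by simp)
    filter_upwards [h3] with t ht
    funext ψ
    show ofMA (NormedSpace.exp (t • x)) ψ.1 ψ.2 =
      ofMA (NormedSpace.exp ((if ‖t‖ ≤ 1 then t else 0 : ℚ_[p]) • x)) ψ.1 ψ.2
    rw [if_pos ht]
  · intro ψ
    have h1 : (E x) ψ - (g.1 ψ.1 ψ.2 - (1 : Matrix (Fin m) (Fin m) ℚ_[p]) ψ.1 ψ.2) =
        (E (x - (G - 1))) ψ := rfl
    rw [h1]
    have h2 : ‖x‖ ≤ C1 * ‖E x‖ := hb1 x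
    calc ‖(E (x - (G - 1))) ψ‖ ≤ ‖E (x - (G - 1))‖ := norm_le_pi_norm _ _
      _ ≤ C2 * ‖x - (G - 1)‖ := hb2 _
      _ ≤ C2 * (ε / (C1 * C2 + 1) * ‖x‖) := mul_le_mul_of_nonneg_left hx1 hC20
      _ ≤ C2 * (ε / (C1 * C2 + 1) * (C1 * ‖E x‖)) := by gcongr
      _ = (C1 * C2 / (C1 * C2 + 1)) * (ε * ‖E x‖) := by ring
      _ ≤ 1 * (ε * ‖E x‖) := by
        apply mul_le_mul_of_nonneg_right _ (by positivity)
        rw [div_le_one (by positivity)]
        linarith
      _ = ε * ‖E x‖ := one_mul _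

/-- isolation at one p-adic place -/
theorem padic_isol (p : ℕ) [Fact p.Prime] {m : ℕ}
    (T : Subgroup (SpecialLinearGroup (Fin m) ℚ_[p]))
    (hT : IsClosed (T : Set (SpecialLinearGroup (Fin m) ℚ_[p]))) (J : Finset (Fin m × Fin m))
    {A : ℝ} (hA : 0 ≤ A)
    (hJ : ∀ w ∈ Vel (T : Set (SpecialLinearGroup (Fin m) ℚ_[p])), ∀ B : ℝ, 0 ≤ B →
      (∀ ψ, ψ ∉ J → ‖w ψ‖ ≤ B) → ‖w‖ ≤ A * B) :
    ∃ c > 0, ∀ g ∈ T, (∀ j l, ‖g.1 j l - (1 : Matrix (Fin m) (Fin m) ℚ_[p]) j l‖ ≤ c) →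
      (∀ ψ : Fin m × Fin m, ψ ∉ J →
        g.1 ψ.1 ψ.2 = (1 : Matrix (Fin m) (Fin m) ℚ_[p]) ψ.1 ψ.2) → g = 1 := by
  obtain ⟨c, hc, h⟩ := padic_log p T hT (ε := 1 / (2 * (A + 1))) (by positivity)
  refine ⟨c, hc, fun g hg hn hJg => ?_⟩
  obtain ⟨w, hw, hwg⟩ := h g hg hn
  have h1 : ‖w‖ ≤ A * (1 / (2 * (A + 1)) * ‖w‖) := by
    refine hJ w hw _ (by positivity) fun ψ hψ => ?_
    have h2 := hwg ψ
    rwa [hJg ψ hψ, sub_self, sub_zero] at h2
  have h3 : A * (1 / (2 * (A + 1)) * ‖w‖) ≤ ‖w‖ / 2 := by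
    have h4 : A / (2 * (A + 1)) ≤ 1 / 2 := by
      rw [div_le_div_iff₀ (by positivity) (by norm_num)]
      linarith
    calc A * (1 / (2 * (A + 1)) * ‖w‖) = A / (2 * (A + 1)) * ‖w‖ := by ring
      _ ≤ 1 / 2 * ‖w‖ := mul_le_mul_of_nonneg_right h4 (norm_nonneg _)
      _ = ‖w‖ / 2 := by ring
  have h5 : ‖w‖ = 0 := by
    have := norm_nonneg w
    linarith
  have h6 : w = 0 := norm_eq_zero.1 h5
  apply Subtype.ext
  ext j l
  have h7 := hwg (j, l)
  rw [h5, mul_zero, h6] at h7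
  have h8 := norm_le_zero_iff.1 h7
  simp only [Pi.zero_apply, zero_sub, neg_eq_zero, sub_eq_zero] at h8
  exact h8

end Pool.Agent.Work.MP_67388f_an.HM
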