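import Pool.Agent.Work.MP_67388f_an.HM.Base

/-!
# Places: the real place and finitely many p-adic places as one family of fields
-/

set_option autoImplicit false

namespace Pool.Agent.Work.MP_67388f_an.HM

open Matrix Topology
open Pool.Agent.Work.MP_67388f_an.EM (GG Near Rt Par NearId NIProp)

/-- The fields: `ℝ` for `none`, `ℚ_[q v]` for `some v`. -/
def Fld {ι : Type} (q : ι → ℕ) [∀ v, Fact (q v).Prime] : Option ι → Type
  | none => ℝ
  | some v => ℚ_[q v]

noncomputable instance instFld {ι : Type} (q : ι → ℕ) [∀ v, Fact (q v).Prime] (i : Option ι) :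
    NontriviallyNormedField (Fld q i) :=
  match i with
  | none => inferInstanceAs (NontriviallyNormedField ℝ)
  | some v => inferInstanceAs (NontriviallyNormedField ℚ_[q v])

instance instFldProper {ι : Type} (q : ι → ℕ) [∀ v, Fact (q v).Prime] (i : Option ι) :
    ProperSpace (Fld q i) :=
  match i with
  | none => inferInstanceAs (ProperSpace ℝ)
  | some v => inferInstanceAs (ProperSpace ℚ_[q v])

instance instFldComplete {ι : Type} (q : ι → ℕ) [∀ v, Fact (q v).Prime] (i : Option ι) :
    CompleteSpace (Fld q i) :=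
  match i with
  | none => inferInstanceAs (CompleteSpace ℝ)
  | some v => inferInstanceAs (CompleteSpace ℚ_[q v])

/-- the ranks -/
def Rk {ι : Type} (n₀ : ℕ) (n : ι → ℕ) : Option ι → ℕ
  | none => n₀
  | some v => n v

/-- The product of `SL(n₀, ℝ)` and the `SL(n v, ℚ_[q v])`. -/
abbrev GP {ι : Type} (n₀ : ℕ) (n : ι → ℕ) (q : ι → ℕ) [∀ v, Fact (q v).Prime] : Type :=
  GG (Rk n₀ n) (Fld q)

/-- the real component -/
def reC {ι : Type} {n₀ : ℕ} {n q : ι → ℕ} [∀ v, Fact (q v).Prime] (g : GP n₀ n q) :
    SpecialLinearGroup (Fin n₀) ℝ := g none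

/-- the p-adic components -/
def paC {ι : Type} {n₀ : ℕ} {n q : ι → ℕ} [∀ v, Fact (q v).Prime] (v : ι) (g : GP n₀ n q) :
    SpecialLinearGroup (Fin (n v)) ℚ_[q v] := g (some v)

/-- the part of the subgroup `S` at the place `i`: all `h` such that the element with component `h`
at `i` and `1` elsewhere is in `S` -/
noncomputable def partAt {I : Type} {n : I → ℕ} {K : I → Type}
    [∀ i, NontriviallyNormedField (K i)] (S : Subgroup (GG n K)) (i : I) :
    Subgroup (SpecialLinearGroup (Fin (n i)) (K i)) :=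
  letI := Classical.decEq I
  S.comap (MonoidHom.mulSingle (fun i => SpecialLinearGroup (Fin (n i)) (K i)) i)

theorem mem_partAt {I : Type} [inst : DecidableEq I] {n : I → ℕ} {K : I → Type}
    [∀ i, NontriviallyNormedField (K i)] (S : Subgroup (GG n K)) (i : I)
    (h : SpecialLinearGroup (Fin (n i)) (K i)) :
    h ∈ partAt S i ↔ Pi.mulSingle i h ∈ S := by
  have hd : inst = Classical.decEq I := Subsingleton.elim _ _
  subst hd
  rfl

/-- the part at the real place, as a subgroup of `SL(n₀, ℝ)` -/
noncomputable def rePart {ι : Type} {n₀ : ℕ} {n q : ι → ℕ} [∀ v, Fact (q v).Prime]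
    (S : Subgroup (GP n₀ n q)) : Subgroup (SpecialLinearGroup (Fin n₀) ℝ) := partAt S none

/-- the part at the p-adic place `v`, as a subgroup of `SL(n v, ℚ_[q v])` -/
noncomputable def paPart {ι : Type} {n₀ : ℕ} {n q : ι → ℕ} [∀ v, Fact (q v).Prime]
    (S : Subgroup (GP n₀ n q)) (v : ι) : Subgroup (SpecialLinearGroup (Fin (n v)) ℚ_[q v]) :=
  partAt S (some v)

end Pool.Agent.Work.MP_67388f_an.HM
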