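import Mathlib

/-!
# MP_67388f_an, project HM: mixing measures are homogeneous

THEOREM. G closed subgroup of SL(n0, R) x prod_v SL(n_v, Q_{q_v}) (finitely many distinct primes), X a locally
compact second countable Hausdorff space with a continuous G-action with open orbit maps (e.g. G/Gamma), a : Z^r -> G a
homomorphism with diagonal class A values, mu an a-invariant probability measure on X which mixes polynomially or
exponentially as in the hand-in MixingRigidity (project MX). Then mu is homogeneous: mu (Stab_G(mu) x) = 1 for
some x. (The first alternative of Q1 for all such measures; no entropy assumption.)

PROOF. S = Stab(mu) is closed. Charts: at each place the velocities of curves in S span V_i; a coordinate subspace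
C_i is complementary to V_i; P_i : K_i^d -> S_i (product of curves) has derivative L_i transversal to C_i (CH), and
S cap (1 + C) = {1} near 1 (IS, from PL = p-adic logarithm, RD = directions at the real place, SP = splitting of
the p-adic places by powers); together GC. Typical points for sampling sets: MG (variant of MX/Samp). Close typical
points not on a common S-orbit are corrected along S (CL, CF) so that the displacement t is in 1 + C. If t
commutes with A then t preserves mu (generic points, MX/Cvx), impossible. Otherwise the blow-up at the nearest facet
(MX/Facet, MX/Samp) gives u in 1 + C preserving mu, which a conjugation by an element of A moves near 1:
contradiction to S cap (1 + C) = {1}. So close typical points are on a common S-orbit, and one S-orbit has positive,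
hence full measure (MX/Orb). Assembly: AM.
-/
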