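import Pool.Agent.Work.MP_67388f_an.HM.AM
import Pool.Agent.Work.MP_67388f_an.MX.SpecA
import Pool.Agent.Work.MP_67388f_an.MX.SpecB
import Pool.Agent.Work.MP_67388f_an.MX.SpecF

/-!
# Homogeneity from spectral conditions
-/

set_option autoImplicit false

namespace PoolMX

open MeasureTheory Filter Topology

/-- the correlations of `f` -/
noncomputable def crl {G X : Type*} [SMul G X] [MeasurableSpace X] {r : ℕ} (a : V r → G)
    (μ : Measure X) (f : X → ℝ) (m : V r) : ℝ :=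
  ∫ x, f x * f (a m • x) ∂μ - (∫ x, f x ∂μ) ^ 2

/-- density in `L ^ q` -/
def DensSpec {G X : Type*} [SMul G X] [MeasurableSpace X] {r : ℕ} (a : V r → G) (μ : Measure X)
    (f : X → ℝ) : Prop :=
  ∃ (q : ℝ) (h : (Fin r → ℝ) → ℝ), 1 < q ∧ 1 < ((r : ℝ) - 1) * (1 - 1 / q) ∧
    MemLp h (ENNReal.ofReal q) (cube r) ∧
    ∀ m : V r, crl a μ f m = ∫ θ, h θ * Real.cos (phase m θ) ∂cube r

/-- powers of the correlations which are summable along the wall `w = 0` -/
def SumSpec {G X : Type*} [SMul G X] [MeasurableSpace X] {r : ℕ} (a : V r → G) (μ : Measure X)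
    (w : V r →+ ℝ) (f : X → ℝ) : Prop :=
  ∀ η : ℝ, 0 < η → ∃ p : ℝ, 1 ≤ p ∧ p < (r : ℝ) - 1 ∧
    Summable fun m : {m : V r // |w m| < η} => |crl a μ f m.1| ^ p

private theorem sp_bdd' {X : Type*} [TopologicalSpace X] (θ : C(X, ℝ))
    (hθ : HasCompactSupport θ) : ∃ B : ℝ, ∀ x, |θ x| ≤ B := by
  obtain ⟨B, hB⟩ := θ.continuous.bounded_above_of_compact_support hθ
  exact ⟨B, fun x => by rw [← Real.norm_eq_abs]; exact hB x⟩

section gen

variable {G X : Type*} [Group G] [TopologicalSpace G] [TopologicalSpace X]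
    [MeasurableSpace X] [BorelSpace X] [MulAction G X] [ContinuousSMul G X] {r : ℕ}

theorem cconv_of_form (hr : 1 ≤ r) (a : V r → G) (ha : ∀ m m', a (m + m') = a m * a m')
    (μ : Measure X) [IsProbabilityMeasure μ] (hμ : ∀ m, μ.map (fun x => a m • x) = μ)
    (w : V r →+ ℝ) (f : C(X, ℝ)) (hf : HasCompactSupport f)
    (hform : ∀ (N : ℕ) (η : ℝ), 0 < η → ∃ K s : ℝ, 1 < ((r : ℝ) - 1) * s ∧ ∀ R : ℕ,
      ∑ m ∈ strip w N η R, ∑ m' ∈ strip w N η R, crl a μ f (m' - m) ≤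
        K * ((strip w N η R).card : ℝ) ^ (2 - s)) : CConv a μ w f := by
  intro N η δ hN hη hδ
  obtain ⟨K, s, hs, hform⟩ := hform N η hη
  have hcont : ∀ m, Continuous fun x : X => a m • x := fun m => continuous_const_smul (a m)
  obtain ⟨B, hB⟩ := sp_bdd' f hf
  have hint : ∀ m, ∫ x, f (a m • x) ∂μ = ∫ x, f x ∂μ := by
    intro m
    have h1 := integral_map (μ := μ) (φ := fun x : X => a m • x) (f := fun x => f x)
      (hcont m).measurable.aemeasurable f.continuous.aestronglyMeasurable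
    rw [hμ m] at h1
    exact h1.symm
  have hcor2 : ∀ m m' : V r, ∫ x, f (a m • x) * f (a m' • x) ∂μ - (∫ x, f x ∂μ) ^ 2 =
      crl a μ f (m' - m) := by
    intro m m'
    unfold crl
    congr 1
    have h1 := integral_map (μ := μ) (φ := fun x : X => a m • x)
      (f := fun x => f x * f (a (m' - m) • x)) (hcont m).measurable.aemeasurable
      ((f.continuous.mul (f.continuous.comp (hcont _))).aestronglyMeasurable)
    rw [hμ m] at h1
    rw [h1]
    refine integral_congr_ae (ae_of_all _ fun x => ?_)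
    simp only
    rw [smul_smul, ← ha, sub_add_cancel]
  exact summable_of_form hr w N hN η hη (fun m x => f (a m • x))
    (fun m => (f.continuous.comp (hcont m)).measurable) B (fun m x => hB _) (∫ x, f x ∂μ)
    hint (crl a μ f) hcor2 K s hs hform δ hδ

theorem cconv_of_dens (hr : 1 ≤ r) (a : V r → G) (ha : ∀ m m', a (m + m') = a m * a m')
    (μ : Measure X) [IsProbabilityMeasure μ] (hμ : ∀ m, μ.map (fun x => a m • x) = μ)
    (w : V r →+ ℝ) (f : C(X, ℝ)) (hf : HasCompactSupport f) (h : DensSpec a μ f) :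
    CConv a μ w f := by
  obtain ⟨q, h, hq, hq2, hL, hcor⟩ := h
  obtain ⟨K, hK⟩ := form_of_density (crl a μ f) q hq h hL hcor
  exact cconv_of_form hr a ha μ hμ w f hf fun N η _ => ⟨K, 1 - 1 / q, hq2, fun R => hK _⟩

theorem cconv_of_sum (hr : 1 ≤ r) (a : V r → G) (ha : ∀ m m', a (m + m') = a m * a m')
    (μ : Measure X) [IsProbabilityMeasure μ] (hμ : ∀ m, μ.map (fun x => a m • x) = μ)
    (w : V r →+ ℝ) (f : C(X, ℝ)) (hf : HasCompactSupport f) (h : SumSpec a μ w f) :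
    CConv a μ w f := by
  refine cconv_of_form hr a ha μ hμ w f hf fun N η hη => ?_
  obtain ⟨p, hp, hp2, hs⟩ := h (2 * η) (by positivity)
  obtain ⟨K, hK⟩ := form_of_summable w η (crl a μ f) p hp hs
  refine ⟨K, 1 / p, ?_, fun R => hK _ fun m hm => (mem_strip.1 hm).2.2⟩
  have hp0 : 0 < p := by linarith
  rw [mul_one_div, lt_div_iff₀ hp0]
  linarith

end gen

end PoolMX

namespace Pool.Agent.Work.MP_67388f_an.HM

open MeasureTheory Filter Topology Matrix
open Pool.Agent.Work.MP_67388f_an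
open PoolMX

section main

variable {ι : Type} [Fintype ι] {n₀ : ℕ} {n : ι → ℕ} {q : ι → ℕ} [∀ v, Fact (q v).Prime]
  {G : Type} [Group G] [TopologicalSpace G] [IsTopologicalGroup G]
  {X : Type} [TopologicalSpace X] [LocallyCompactSpace X] [T2Space X]
  [SecondCountableTopology X] [MeasurableSpace X] [BorelSpace X] [MulAction G X]
  [ContinuousSMul G X]

/-- Measures with one of the spectral conditions are homogeneous. -/
theorem homog_of_spec (hq : Function.Injective q) (κ : G →* SLS n₀ n q)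
    (hκ : IsClosedEmbedding κ) (hopen : ∀ x : X, IsOpenMap fun g : G => g • x) {r : ℕ}
    (a : V r → G) (ha : ∀ m m', a (m + m') = a m * a m') (A : Subgroup G)
    (hA : ∀ g, g ∈ A ↔ ∃ m, a m = g) (hcls : ClsS κ (MonoidHom.id G) A) (μ : Measure X)
    [IsProbabilityMeasure μ] (hμ : ∀ g ∈ A, μ.map (fun z => g • z) = μ)
    (hmix : (1 ≤ r ∧ ∀ θ : C(X, ℝ), HasCompactSupport θ → ∀ ε : ℝ, 0 < ε →
        ∃ f : C(X, ℝ), HasCompactSupport f ∧ (∀ x, |θ x - f x| ≤ ε) ∧ BallSpec a μ f) ∨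
      (1 ≤ r ∧ ∀ θ : C(X, ℝ), HasCompactSupport θ → ∀ ε : ℝ, 0 < ε →
        ∃ f : C(X, ℝ), HasCompactSupport f ∧ (∀ x, |θ x - f x| ≤ ε) ∧ DensSpec a μ f) ∨
      ((∀ s : Set X, MeasurableSet s → (∀ g ∈ A, (fun z => g • z) ⁻¹' s =ᵐ[μ] s) →
          μ s = 0 ∨ μ sᶜ = 0) ∧
        ∀ w : V r →+ ℝ, w ≠ 0 → (∃ c, ∀ m, w m = gwt κ (a m) c) →
          (1 ≤ r ∧ ∀ θ : C(X, ℝ), HasCompactSupport θ → ∀ ε : ℝ, 0 < ε →
            ∃ f : C(X, ℝ), HasCompactSupport f ∧ (∀ x, |θ x - f x| ≤ ε) ∧ SumSpec a μ w f) ∨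
          Sampled a μ w)) :
    Homog G μ := by
  have hmA : ∀ m, a m ∈ A := fun m => (hA _).2 ⟨m, rfl⟩
  have hμm : ∀ m, μ.map (fun x => a m • x) = μ := fun m => hμ _ (hmA m)
  -- the case where all nonzero functionals are sampled
  have hall : 1 ≤ r → (∀ w : V r →+ ℝ, w ≠ 0 → Sampled a μ w) → Homog G μ := by
    intro hr hsamp
    set w₀ : V r →+ ℝ :=
      { toFun := fun m => ((m ⟨0, hr⟩ : ℤ) : ℝ)
        map_zero' := by simp
        map_add' := fun m m' => by simp } with hw₀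
    have hw₀ne : w₀ ≠ 0 := by
      intro h
      have h1 := DFunLike.congr_fun h (Pi.single ⟨0, hr⟩ 1)
      have h2 : w₀ (Pi.single ⟨0, hr⟩ 1) = 1 := by
        show (((Pi.single ⟨0, hr⟩ 1 : V r) ⟨0, hr⟩ : ℤ) : ℝ) = 1
        rw [Pi.single_eq_same]; norm_num
      rw [h2] at h1
      exact one_ne_zero h1
    have herg : ∀ s : Set X, MeasurableSet s → (∀ g ∈ A, (fun z => g • z) ⁻¹' s =ᵐ[μ] s) →
        μ s = 0 ∨ μ sᶜ = 0 := by
      intro s hs hinv
      exact serg a μ hμm w₀ (hsamp w₀ hw₀ne) s hs (fun m => hinv _ (hmA m))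
    exact homog_of_sampled hq κ hκ hopen a ha A hA hcls μ hμ herg (fun w hw _ => hsamp w hw)
  rcases hmix with ⟨hr, h⟩ | ⟨hr, h⟩ | ⟨herg, h⟩
  · exact hall hr fun w _ => sampled_of_ball hr a ha μ hμm w h
  · refine hall hr fun w _ => sampled_of_cconv a μ w fun θ hθ ε hε => ?_
    obtain ⟨f, h1, h2, h3⟩ := h θ hθ ε hε
    exact ⟨f, h1, h2, cconv_of_dens hr a ha μ hμm w f h1 h3⟩
  · refine homog_of_sampled hq κ hκ hopen a ha A hA hcls μ hμ herg fun w hw hc => ?_
    rcases h w hw hc with ⟨hr, h'⟩ | h'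
    · refine sampled_of_cconv a μ w fun θ hθ ε hε => ?_
      obtain ⟨f, h1, h2, h3⟩ := h' θ hθ ε hε
      exact ⟨f, h1, h2, cconv_of_sum hr a ha μ hμm w f h1 h3⟩
    · exact h'

end main

end Pool.Agent.Work.MP_67388f_an.HM
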