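import Mathlib

/-!
# UM0: a numerical recursion for moments, uniform version of `EM/AmC`
-/

set_option autoImplicit false

namespace Pool.Agent.Work.MP_67388f_an.HM

theorem moment_rec_unif (J : ℕ) (E A : ℝ) (hE : 0 ≤ E) :
    ∀ j, j ≤ J → ∃ Kc : ℝ, 0 ≤ Kc ∧ ∀ a : ℕ → ℕ → ℝ, (∀ m, a m 0 = 1) → (∀ m, a m 1 = 0) →
      (∀ j, j ≤ J → |a 0 j| ≤ A) →
      (∀ m j, j ≤ J →
      |a (m + 1) j - ∑ i ∈ Finset.range (j + 1), (j.choose i : ℝ) * a m i * a m (j - i)| ≤ E) →
      ∀ m, |a m j| ≤ Kc * (3 / 2 : ℝ) ^ (m * j) := by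
  intro j
  induction j using Nat.strong_induction_on with
  | _ j ih =>
  intro hj
  match j, ih, hj with
  | 0, _, _ => exact ⟨1, zero_le_one, fun a h0 _ _ _ m => by rw [h0]; simp⟩
  | 1, _, _ => exact ⟨0, le_rfl, fun a _ h1 _ _ m => by rw [h1]; simp⟩
  | j + 2, ih, hj =>
    have h2 : ∀ i, ∃ k : ℝ, 0 ≤ k ∧ (i < j + 2 → ∀ a : ℕ → ℕ → ℝ, (∀ m, a m 0 = 1) →
        (∀ m, a m 1 = 0) → (∀ j, j ≤ J → |a 0 j| ≤ A) →
        (∀ m j, j ≤ J →
        |a (m + 1) j - ∑ i ∈ Finset.range (j + 1), (j.choose i : ℝ) * a m i * a m (j - i)| ≤ E) →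
        ∀ m, |a m i| ≤ k * (3 / 2 : ℝ) ^ (m * i)) := by
      intro i
      by_cases hi : i < j + 2
      · obtain ⟨k, hk0, hk⟩ := ih i hi (hi.le.trans hj)
        exact ⟨k, hk0, fun _ => hk⟩
      · exact ⟨0, le_rfl, fun h' => absurd h' hi⟩
    choose K hK0 hK using h2
    set C' : ℝ := ∑ i ∈ Finset.range (j + 1), ((j + 2).choose (i + 1) : ℝ) * K (i + 1) *
      K (j + 2 - (i + 1)) with hC'
    have hC0 : 0 ≤ C' := Finset.sum_nonneg fun i _ =>
      mul_nonneg (mul_nonneg (Nat.cast_nonneg _) (hK0 _)) (hK0 _)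
    refine ⟨max A (4 * (C' + E)), le_max_of_le_right (by positivity), ?_⟩
    intro a h0 h1 hA h
    have hstep : ∀ m, |a (m + 1) (j + 2)| ≤ 2 * |a m (j + 2)| +
        C' * (3 / 2 : ℝ) ^ (m * (j + 2)) + E := by
      intro m
      have h3 := h m (j + 2) hj
      rw [Finset.sum_range_succ, Finset.sum_range_succ'] at h3
      have h4 : |∑ i ∈ Finset.range (j + 1), ((j + 2).choose (i + 1) : ℝ) * a m (i + 1) *
          a m (j + 2 - (i + 1))| ≤ C' * (3 / 2 : ℝ) ^ (m * (j + 2)) := by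
        refine (Finset.abs_sum_le_sum_abs _ _).trans ?_
        rw [hC', Finset.sum_mul]
        refine Finset.sum_le_sum fun i hi => ?_
        rw [Finset.mem_range] at hi
        have e1 := hK (i + 1) (by omega) a h0 h1 hA h m
        have e2 := hK (j + 2 - (i + 1)) (by omega) a h0 h1 hA h m
        have e3 : (3 / 2 : ℝ) ^ (m * (j + 2)) = (3 / 2 : ℝ) ^ (m * (i + 1)) *
            (3 / 2 : ℝ) ^ (m * (j + 2 - (i + 1))) := by
          rw [← pow_add, ← mul_add]
          congr 2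
          omega
        rw [abs_mul, abs_mul, Nat.abs_cast, e3]
        calc ((j + 2).choose (i + 1) : ℝ) * |a m (i + 1)| * |a m (j + 2 - (i + 1))|
            ≤ ((j + 2).choose (i + 1) : ℝ) * (K (i + 1) * (3 / 2 : ℝ) ^ (m * (i + 1))) *
              (K (j + 2 - (i + 1)) * (3 / 2 : ℝ) ^ (m * (j + 2 - (i + 1)))) := by
              refine mul_le_mul (mul_le_mul_of_nonneg_left e1 (Nat.cast_nonneg _)) e2
                (abs_nonneg _) ?_
              exact mul_nonneg (Nat.cast_nonneg _) (mul_nonneg (hK0 _) (by positivity))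
          _ = _ := by ring
      simp only [Nat.choose_self, Nat.choose_zero_right, Nat.cast_one, one_mul, h0, Nat.sub_self,
        Nat.sub_zero, mul_one] at h3
      set S : ℝ := ∑ i ∈ Finset.range (j + 1), ((j + 2).choose (i + 1) : ℝ) * a m (i + 1) *
          a m (j + 2 - (i + 1)) with hS
      have h5 : a (m + 1) (j + 2) = (a (m + 1) (j + 2) - (S + a m (j + 2) + a m (j + 2))) +
          (S + 2 * a m (j + 2)) := by ring
      have h6 : |a (m + 1) (j + 2)| ≤ |a (m + 1) (j + 2) - (S + a m (j + 2) + a m (j + 2))| +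
          (|S| + |2 * a m (j + 2)|) := by
        calc |a (m + 1) (j + 2)| = |(a (m + 1) (j + 2) - (S + a m (j + 2) + a m (j + 2))) +
          (S + 2 * a m (j + 2))| := congrArg _ h5
          _ ≤ _ := (abs_add_le _ _).trans (add_le_add le_rfl (abs_add_le _ _))
      rw [abs_mul, abs_two] at h6
      linarith
    intro m
    set Kc : ℝ := max A (4 * (C' + E)) with hKc
    have hK1 : |a 0 (j + 2)| ≤ Kc := (hA _ hj).trans (le_max_left _ _)
    have hK2 : 4 * (C' + E) ≤ Kc := le_max_right _ _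
    have hK3 : 0 ≤ Kc := (abs_nonneg _).trans hK1
    induction m with
    | zero => simpa using hK1
    | succ m ihm =>
      set w : ℝ := (3 / 2 : ℝ) ^ (m * (j + 2)) with hw
      have hw1 : 1 ≤ w := one_le_pow₀ (by norm_num)
      have h7 : (3 / 2 : ℝ) ^ ((m + 1) * (j + 2)) = w * (3 / 2 : ℝ) ^ (j + 2) := by
        rw [hw, ← pow_add]
        congr 1
        ring
      have h8 : (9 / 4 : ℝ) ≤ (3 / 2 : ℝ) ^ (j + 2) := by
        rw [pow_add]
        have : (1 : ℝ) ≤ (3 / 2 : ℝ) ^ j := one_le_pow₀ (by norm_num)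
        nlinarith
      have h9 := hstep m
      rw [h7]
      have h10 : E ≤ E * w := le_mul_of_one_le_right hE hw1
      have h11 : Kc * (w * (9 / 4)) ≤ Kc * (w * (3 / 2 : ℝ) ^ (j + 2)) :=
        mul_le_mul_of_nonneg_left (mul_le_mul_of_nonneg_left h8 (by linarith)) hK3
      have h12 : 4 * (C' + E) * w ≤ Kc * w := mul_le_mul_of_nonneg_right hK2 (by linarith)
      nlinarith

end Pool.Agent.Work.MP_67388f_an.HM
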